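import Pool.Agent.Lib.P0036f5k.Defs
import Pool.Agent.Lib.P0036f5e.EDefs

/-!
# The witness machine for path systems with groups of rows (project K, part F)

This is the machine of `P0036f5e/EDefs.lean` with the rows of the test in groups: every group starts
with the letter `g`.  It marks the letter `s` of one block, every `g` (at most `K1`) and every `r` (at
most `K2` in every group).

`lg j`, `rg j`: after a new group has been marked, the marked groups are counted on the way to `h`, then
the machine goes back to the last marked group; `nr`: the next cell must be a fresh row.  `lc j`,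
`rc j`: after a new row has been marked, the marked rows of its group are counted on the way to the
letter `g` of the group, then the machine goes back to the last marked row.  The other states are as
before.
-/

set_option autoImplicit false

namespace Pool.Agent.P0036f5f

open Relation Pool.Agent.P0036f5v2

/-- input letters -/
inductive GA : Type
  | s
  | c
  | a
  | b
  | d (β : Bool)
  | h
  | g
  | r
  deriving DecidableEq

/-- marks -/
inductive GW : Type
  | ms
  | mg
  | mr
  deriving DecidableEq

/-- states -/
inductive GQ : Type
  | scan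
  | mid
  | fr
  | fin
  | nr
  | lg (j : ℕ)
  | rg (j : ℕ)
  | lc (j : ℕ)
  | rc (j : ℕ)
  | ra (i : ℕ)
  | gl (β : Bool) (i : ℕ)
  | lf (β : Bool) (i : ℕ)
  | se (β : Bool) (i : ℕ)
  | ca (β : Bool) (i : ℕ)
  | cb (β : Bool) (j : ℕ)
  | rt (j : ℕ)
  | rh (j : ℕ)
  | bk (j : ℕ)

/-- the letters of the blocks -/
def GA.blk : GA → Bool
  | .h => false
  | .g => false
  | .r => false
  | _ => true

/-- the letters inside the rows -/
def GA.row : GA → Bool
  | .a => true
  | .b => true
  | .d _ => true
  | _ => false

/-- first choice -/
def gtr1 (N K1 K2 : ℕ) : GQ → Sym GA GW → Option (GQ × (GA ⊕ GW) × Bool)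
  | .scan, .inp x => if x.blk = true then some (.scan, .inl x, true) else none
  | .mid, .inp x => if x.blk = true then some (.mid, .inl x, true)
      else if x = .h then some (.fr, .inl x, true) else none
  | .fr, .inp .g => some (.lg 1, .inr .mg, false)
  | .lg j, .inp x => if x.row = true then some (.lg j, .inl x, false)
      else if x = .h then some (.rg j, .inl x, true) else none
  | .lg j, .wrk .mr => some (.lg j, .inr .mr, false)
  | .lg j, .wrk .mg => if j + 1 ≤ K1 then some (.lg (j + 1), .inr .mg, false) else none
  | .rg j, .inp x => if x.row = true then some (.rg j, .inl x, true) else none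
  | .rg j, .wrk .mr => some (.rg j, .inr .mr, true)
  | .rg (j + 2), .wrk .mg => some (.rg (j + 1), .inr .mg, true)
  | .rg 1, .wrk .mg => some (.nr, .inr .mg, true)
  | .nr, .inp .r => some (.lc 1, .inr .mr, false)
  | .lc j, .inp x => if x.row = true then some (.lc j, .inl x, false) else none
  | .lc j, .wrk .mr => if j + 1 ≤ K2 then some (.lc (j + 1), .inr .mr, false) else none
  | .lc j, .wrk .mg => some (.rc j, .inr .mg, true)
  | .rc j, .inp x => if x.row = true then some (.rc j, .inl x, true) else none
  | .rc (j + 2), .wrk .mr => some (.rc (j + 1), .inr .mr, true)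
  | .rc 1, .wrk .mr => some (.ra 0, .inr .mr, true)
  | .ra i, .inp .a => if i + 1 ≤ N then some (.ra (i + 1), .inl .a, true) else none
  | .ra i, .inp (.d β) => some (.gl β i, .inl (.d β), false)
  | .gl β i, .inp x => if x.row = true then some (.gl β i, .inl x, false)
      else if x = .h then some (.lf β i, .inl x, false) else none
  | .gl β i, .wrk .mr => some (.gl β i, .inr .mr, false)
  | .gl β i, .wrk .mg => some (.gl β i, .inr .mg, false)
  | .lf β i, .inp x => if x.blk = true then some (.lf β i, .inl x, false) else none
  | .lf β i, .wrk .ms => some (.se β i, .inr .ms, true)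
  | .se β i, .inp .c => some (.ca β i, .inl .c, true)
  | .se β i, .inp x => if x.row = true then some (.se β i, .inl x, true) else none
  | .ca β (i + 1), .inp .a => some (.ca β i, .inl .a, true)
  | .ca β 0, .inp .b => some (.cb β 1, .inl .b, true)
  | .cb β j, .inp .b => if j + 1 ≤ N then some (.cb β (j + 1), .inl .b, true) else none
  | .cb β j, .inp (.d β') => if β' = β then some (.rt j, .inl (.d β'), true) else none
  | .rt j, .inp x => if x.blk = true then some (.rt j, .inl x, true)
      else if x = .h then some (.rh j, .inl x, true) else none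
  | .rh j, .inp x => if x.row = true then some (.rh j, .inl x, true) else none
  | .rh j, .wrk .mr => some (.rh j, .inr .mr, true)
  | .rh j, .wrk .mg => some (.rh j, .inr .mg, true)
  | .bk (j + 1), .inp .b => some (.bk j, .inl .b, true)
  | .bk 0, .inp .a => some (.ra 1, .inl .a, true)
  | .bk 0, .inp .r => some (.lc 1, .inr .mr, false)
  | .bk 0, .inp .g => some (.lg 1, .inr .mg, false)
  | .bk 0, .rend => some (.fin, .inl .s, true)
  | _, _ => none

/-- second choice -/
def gtr2 : GQ → Sym GA GW → Option (GQ × (GA ⊕ GW) × Bool)
  | .scan, .inp .s => some (.mid, .inr .ms, true)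
  | .se β i, .inp .c => some (.se β i, .inl .c, true)
  | .rh j, .inp (.d β) => some (.bk j, .inl (.d β), true)
  | _, _ => none

/-- the machine -/
@[reducible] def gm (N K1 K2 : ℕ) : Mach GA where
  Q := GQ
  W := GW
  δ := fun q x => {y | gtr1 N K1 K2 q x = some y ∨ gtr2 q x = some y}
  qI := .scan
  F := {.fin}

/-- an entry -/
def gE (i j : ℕ) (β : Bool) : List GA :=
  GA.c :: (List.replicate i GA.a ++ (List.replicate j GA.b ++ [GA.d β]))

/-- a segment of a row -/
def gS (i j : ℕ) (β : Bool) : List GA :=
  List.replicate i GA.a ++ (GA.d β :: List.replicate j GA.b)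

/-- the block for `F` -/
def gB (k' L : ℕ) (s t : ℕ → ℕ → ℕ) (F : ℕ → ℕ → Bool) : List GA :=
  GA.s :: (List.range k').flatMap fun q => (List.range L).flatMap fun l => gE (s q l) (t q l) (F q l)

/-- the first part of the test words -/
def gX (k' L : ℕ) (s t : ℕ → ℕ → ℕ) (Fs : List (ℕ → ℕ → Bool)) : List GA :=
  Fs.flatMap (gB k' L s t)

/-- the second part of the test words: `K1` groups of `K2` rows -/
def gY (K1 K2 L : ℕ) (s t : ℕ → ℕ → ℕ) (G : ℕ → ℕ → Bool) : List GA :=
  GA.h :: (List.range K1).flatMap fun x => GA.g :: (List.range K2).flatMap fun y =>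
    GA.r :: (List.range L).flatMap fun l =>
      gS (s (x * K2 + y) l) (t (x * K2 + y) l) (G (x * K2 + y) l)

end Pool.Agent.P0036f5f
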