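import Pool.Agent.Lib.P0036f5e.Geo

/-!
# F6: the choice of the parameters

Let `M = Nat.log 2 n ≥ 128`, `λ = Nat.log 2 (k ^ 2 / n)` (natural division), so `64 ≤ λ ≤ 2 M + 1`
(`k ^ 2 / n ≤ n ^ 2`), `E = Nat.sqrt (λ / 4) ≥ 4`, `e = E - 3 ≥ 1`, `D = 2 ^ e` (so `D ^ e = 2 ^ (e ^ 2)`),
`x = n / 2 ^ (2 e ^ 2 + 6 e + 24)`, `L = Nat.sqrt x`.  Facts: `4 E ^ 2 ≤ λ`, so `2 ^ (4 E ^ 2) * n ≤ k ^ 2` and
`2 E ^ 2 ≤ M` (`4 E ^ 2 ≤ 2 M + 1`); `2 E ≤ Nat.sqrt (2 M + 1)`; `k ^ 2 < n * 2 ^ (4 (E + 1) ^ 2)`;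
`2 e ^ 2 + 6 e + 24 = 2 E ^ 2 - 6 E + 24 ≤ M`, so `x ≥ 1`, `L ≥ 1`, `L ^ 2 ≤ x ≤ 4 L ^ 2` and
`n ≤ L ^ 2 * 2 ^ (2 e ^ 2 + 6 e + 27)`.
Closed forms: `KE L D e = L * e * 2 ^ (3 e ^ 2 + 2 e)`, `NE L D e = 3 * L ^ 2 * e * 2 ^ (2 e ^ 2 + 3 e)`,
`XE L D e * D ^ e = L * e * 2 ^ (2 e ^ 2 + 2 e) ≤ NE L D e`, `D ^ e ≤ NE L D e`.
* `NE * 2 ^ 24 ≤ n` (as in `P0036f5e/NumE.lean`), so `5000 * (NE + D ^ e + XE * D ^ e) ≤ 15000 NE ≤ n`.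
* `KE ^ 2 * 2 ^ 24 ≤ e ^ 2 2 ^ (- 2 e) * 2 ^ (4 e ^ 2) * n ≤ 2 ^ (4 E ^ 2) * n ≤ k ^ 2`: `KE * 4096 ≤ k`.  Then
  `D ^ e * (XE * D ^ e + 1) + 2 = KE + D ^ e + 2 ≤ 4 KE ≤ k`.
* Last claim: let `S = Nat.sqrt (Nat.sqrt (n ^ 3 * k ^ 2))`, `S ^ 4 ≤ n ^ 3 k ^ 2 < n ^ 4 * 2 ^ (4 (E + 1) ^ 2)`, so
  `S < n * 2 ^ ((E + 1) ^ 2)`, and with `n ≤ L ^ 2 * 2 ^ (2 e ^ 2 + 6 e + 27)`, `E = e + 3`:
  `S ≤ L ^ 2 * 2 ^ (3 e ^ 2 + 14 e + 43) = (L ^ 2 * 2 ^ (3 e ^ 2 + 2 e)) * 2 ^ (12 e + 43) ≤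
  (KE * L) * 2 ^ (12 E + 7)`; `12 E ≤ 6 Nat.sqrt (2 M + 1) ≤ 9 Nat.sqrt M + 12` (with `r = Nat.sqrt M`,
  `M < (r + 1) ^ 2`: `4 (2 M + 1) < 9 (r + 1) ^ 2 + …`; check: `(2 * Nat.sqrt (2 M + 1)) ^ 2 ≤ 8 M + 4 ≤
  8 (r + 1) ^ 2 ≤ (3 (r + 1)) ^ 2`, so `2 Nat.sqrt (2 M + 1) ≤ 3 (r + 1)`), so
  `S / 2 ^ (9 r + 64) ≤ KE * L / 2`.
-/

set_option autoImplicit false

namespace Pool.Agent.P0036f5f

open Pool.Agent.P0036f5e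

namespace NumFAux

theorem closedX (L e : ℕ) : XE L (2 ^ e) e = L * e * 2 ^ (e ^ 2 + 2 * e) := by
  unfold XE
  have h1 : (2 ^ e) ^ 2 * (2 ^ e) ^ e = (2 : ℕ) ^ (e ^ 2 + 2 * e) := by
    rw [← pow_mul, ← pow_mul, ← pow_add]
    congr 1
    ring
  calc L * (e * (2 ^ e) ^ 2) * (2 ^ e) ^ e = L * e * ((2 ^ e) ^ 2 * (2 ^ e) ^ e) := by ring
    _ = _ := by rw [h1]

theorem closedK (L e : ℕ) : KE L (2 ^ e) e = L * e * 2 ^ (3 * e ^ 2 + 2 * e) := by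
  unfold KE
  rw [closedX]
  have h1 : (2 ^ e) ^ e * 2 ^ (e ^ 2 + 2 * e) * (2 ^ e) ^ e = (2 : ℕ) ^ (3 * e ^ 2 + 2 * e) := by
    rw [← pow_mul, ← pow_add, ← pow_add]
    congr 1
    ring
  calc (2 ^ e) ^ e * (L * e * 2 ^ (e ^ 2 + 2 * e) * (2 ^ e) ^ e)
      = L * e * ((2 ^ e) ^ e * 2 ^ (e ^ 2 + 2 * e) * (2 ^ e) ^ e) := by ring
    _ = _ := by rw [h1]

theorem closedN (L e : ℕ) : NE L (2 ^ e) e = 3 * L ^ 2 * e * 2 ^ (2 * e ^ 2 + 3 * e) := by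
  unfold NE
  rw [closedX]
  have h0 : (2 : ℕ) * 2 ^ e = 2 ^ (e + 1) := by rw [pow_succ]; ring
  have h1 : 2 ^ (e ^ 2 + 2 * e) * (2 * 2 ^ e) ^ e = (2 : ℕ) ^ (2 * e ^ 2 + 3 * e) := by
    rw [h0, ← pow_mul, ← pow_add]
    congr 1
    ring
  calc L * (3 * (L * e * 2 ^ (e ^ 2 + 2 * e))) * (2 * 2 ^ e) ^ e
      = 3 * L ^ 2 * e * (2 ^ (e ^ 2 + 2 * e) * (2 * 2 ^ e) ^ e) := by ring
    _ = _ := by rw [h1]

theorem closedD (e : ℕ) : (2 ^ e) ^ e = 2 ^ (e ^ 2) := by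
  rw [← pow_mul]
  congr 1
  ring

theorem sq_aux {L x : ℕ} (hL : 1 ≤ L) (hx : x < (L + 1) ^ 2) : x + 1 ≤ L ^ 2 * 4 := by
  have h1 : (L + 1) ^ 2 ≤ (2 * L) ^ 2 := Nat.pow_le_pow_left (by omega) 2
  have h2 : (2 * L) ^ 2 = L ^ 2 * 4 := by ring
  omega

theorem sq_aux2 {e M r : ℕ} (h : 4 * (e + 3) ^ 2 ≤ 2 * M + 1) (hr : M < (r + 1) ^ 2) :
    (4 * (e + 3)) ^ 2 ≤ (3 * (r + 1)) ^ 2 := by
  have h1 : (4 * (e + 3)) ^ 2 = 4 * (4 * (e + 3) ^ 2) := by ring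
  have h2 : (3 * (r + 1)) ^ 2 = 9 * (r + 1) ^ 2 := by ring
  omega

theorem sq_aux3 {e : ℕ} (he : 1 ≤ e) : 2 * e ^ 2 + 6 * e + 24 ≤ 2 * (e + 3) ^ 2 := by
  have h1 : 2 * (e + 3) ^ 2 = 2 * e ^ 2 + 12 * e + 18 := by ring
  omega

/-- the estimates for given parameters -/
theorem main {n k L e r : ℕ} (hL : 1 ≤ L) (he : 1 ≤ e)
    (h1 : L ^ 2 * 2 ^ (2 * e ^ 2 + 6 * e + 24) ≤ n)
    (h2 : n ≤ L ^ 2 * 2 ^ (2 * e ^ 2 + 6 * e + 27))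
    (h3 : 2 ^ (4 * e ^ 2) * n ≤ k ^ 2)
    (h4 : k ^ 2 ≤ n * 2 ^ (4 * (e + 4) ^ 2))
    (h5 : 12 * e + 43 ≤ 9 * r + 16) :
    5000 * (NE L (2 ^ e) e + (2 ^ e) ^ e + XE L (2 ^ e) e * (2 ^ e) ^ e) ≤ n ∧
      (2 ^ e) ^ e * (XE L (2 ^ e) e * (2 ^ e) ^ e + 1) + 2 ≤ k ∧
      Nat.sqrt (Nat.sqrt (n ^ 3 * k ^ 2)) / 2 ^ (9 * r + 64) ≤ KE L (2 ^ e) e * L / 2 := by
  have hLe : 1 ≤ L * e := Nat.mul_pos hL he
  have hpe : ∀ j : ℕ, 1 ≤ 2 ^ j := fun j => Nat.one_le_two_pow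
  have he2 : e ≤ 2 ^ e := Nat.lt_two_pow_self.le
  refine ⟨?_, ?_, ?_⟩
  · have hN : NE L (2 ^ e) e * 2 ^ 24 ≤ n := by
      rw [closedN]
      have h6 : 3 * e ≤ 2 ^ (3 * e) := by
        have h7 : 3 * e < 2 ^ (3 * e) := Nat.lt_two_pow_self
        exact h7.le
      calc 3 * L ^ 2 * e * 2 ^ (2 * e ^ 2 + 3 * e) * 2 ^ 24
          = L ^ 2 * (3 * e * 2 ^ (2 * e ^ 2 + 3 * e + 24)) := by rw [pow_add 2 _ 24]; ring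
        _ ≤ L ^ 2 * (2 ^ (3 * e) * 2 ^ (2 * e ^ 2 + 3 * e + 24)) :=
            Nat.mul_le_mul_left _ (Nat.mul_le_mul_right _ h6)
        _ = L ^ 2 * 2 ^ (2 * e ^ 2 + 6 * e + 24) := by
            rw [← pow_add]
            congr 2
            ring
        _ ≤ n := h1
    have hDN : (2 ^ e) ^ e ≤ NE L (2 ^ e) e := by
      rw [closedN, closedD]
      have h6 : 2 ^ (e ^ 2) ≤ 2 ^ (2 * e ^ 2 + 3 * e) :=
        Nat.pow_le_pow_right (by norm_num) (by nlinarith [Nat.zero_le e])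
      have h7 : 1 ≤ 3 * L ^ 2 * e := by
        have h8 : 1 ≤ L ^ 2 := Nat.one_le_pow _ _ hL
        exact Nat.mul_pos (by omega) he
      calc 2 ^ (e ^ 2) ≤ 1 * 2 ^ (2 * e ^ 2 + 3 * e) := by rw [one_mul]; exact h6
        _ ≤ _ := Nat.mul_le_mul_right _ h7
    have hXN : XE L (2 ^ e) e * (2 ^ e) ^ e ≤ NE L (2 ^ e) e := by
      rw [closedN, closedX, closedD]
      have h6 : L * e ≤ 3 * L ^ 2 * e := by
        have h8 : L ≤ 3 * L ^ 2 := by nlinarith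
        exact Nat.mul_le_mul_right _ h8
      have h7 : 2 ^ (e ^ 2 + 2 * e) * 2 ^ (e ^ 2) ≤ 2 ^ (2 * e ^ 2 + 3 * e) := by
        rw [← pow_add]
        exact Nat.pow_le_pow_right (by norm_num) (by omega)
      calc L * e * 2 ^ (e ^ 2 + 2 * e) * 2 ^ (e ^ 2)
          = L * e * (2 ^ (e ^ 2 + 2 * e) * 2 ^ (e ^ 2)) := by ring
        _ ≤ _ := Nat.mul_le_mul h6 h7
    have h9 : (2 : ℕ) ^ 24 = 16777216 := by norm_num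
    rw [h9] at hN
    omega
  · have hK : KE L (2 ^ e) e * 4096 ≤ k := by
      rw [← Nat.pow_le_pow_iff_left (n := 2) (by norm_num)]
      refine le_trans ?_ h3
      rw [closedK]
      have h6 : e ^ 2 ≤ 2 ^ (2 * e) := by
        rw [mul_comm 2 e, pow_mul]
        exact Nat.pow_le_pow_left he2 2
      calc (L * e * 2 ^ (3 * e ^ 2 + 2 * e) * 4096) ^ 2
          = L ^ 2 * (e ^ 2 * ((2 ^ (3 * e ^ 2 + 2 * e)) ^ 2 * 2 ^ 24)) := by ring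
        _ ≤ L ^ 2 * (2 ^ (2 * e) * ((2 ^ (3 * e ^ 2 + 2 * e)) ^ 2 * 2 ^ 24)) :=
            Nat.mul_le_mul_left _ (Nat.mul_le_mul_right _ h6)
        _ = 2 ^ (4 * e ^ 2) * (L ^ 2 * 2 ^ (2 * e ^ 2 + 6 * e + 24)) := by
            have h7 : (2 : ℕ) ^ (2 * e) * ((2 ^ (3 * e ^ 2 + 2 * e)) ^ 2 * 2 ^ 24) =
                2 ^ (4 * e ^ 2) * 2 ^ (2 * e ^ 2 + 6 * e + 24) := by
              rw [← pow_mul, ← pow_add, ← pow_add, ← pow_add]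
              congr 1
              ring
            rw [h7]
            ring
        _ ≤ 2 ^ (4 * e ^ 2) * n := Nat.mul_le_mul_left _ h1
    have hKE : (2 ^ e) ^ e * (XE L (2 ^ e) e * (2 ^ e) ^ e + 1) =
        KE L (2 ^ e) e + (2 ^ e) ^ e := by
      unfold KE
      ring
    have hDK : (2 ^ e) ^ e ≤ KE L (2 ^ e) e := by
      rw [closedK, closedD]
      have h6 : 2 ^ (e ^ 2) ≤ 2 ^ (3 * e ^ 2 + 2 * e) :=
        Nat.pow_le_pow_right (by norm_num) (by nlinarith [Nat.zero_le e])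
      calc 2 ^ (e ^ 2) ≤ 1 * 2 ^ (3 * e ^ 2 + 2 * e) := by rw [one_mul]; exact h6
        _ ≤ _ := Nat.mul_le_mul_right _ hLe
    have hD1 : 1 ≤ (2 ^ e) ^ e := by
      rw [closedD]
      exact hpe _
    rw [hKE]
    omega
  · have hS : Nat.sqrt (Nat.sqrt (n ^ 3 * k ^ 2)) ≤ n * 2 ^ ((e + 4) ^ 2) := by
      rw [← Nat.pow_le_pow_iff_left (n := 4) (by norm_num)]
      calc Nat.sqrt (Nat.sqrt (n ^ 3 * k ^ 2)) ^ 4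
          = (Nat.sqrt (Nat.sqrt (n ^ 3 * k ^ 2)) ^ 2) ^ 2 := by ring
        _ ≤ (Nat.sqrt (n ^ 3 * k ^ 2)) ^ 2 := Nat.pow_le_pow_left (Nat.sqrt_le' _) 2
        _ ≤ n ^ 3 * k ^ 2 := Nat.sqrt_le' _
        _ ≤ n ^ 3 * (n * 2 ^ (4 * (e + 4) ^ 2)) := Nat.mul_le_mul_left _ h4
        _ = (n * 2 ^ ((e + 4) ^ 2)) ^ 4 := by
            rw [mul_pow, ← pow_mul, mul_comm ((e + 4) ^ 2) 4]
            ring
    have hS2 : Nat.sqrt (Nat.sqrt (n ^ 3 * k ^ 2)) ≤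
        KE L (2 ^ e) e * L * 2 ^ (9 * r + 16) := by
      refine hS.trans ?_
      rw [closedK]
      calc n * 2 ^ ((e + 4) ^ 2)
          ≤ L ^ 2 * 2 ^ (2 * e ^ 2 + 6 * e + 27) * 2 ^ ((e + 4) ^ 2) :=
            Nat.mul_le_mul_right _ h2
        _ = L ^ 2 * (2 ^ (3 * e ^ 2 + 2 * e) * 2 ^ (12 * e + 43)) := by
            rw [mul_assoc, ← pow_add, ← pow_add]
            congr 2
            ring
        _ ≤ L ^ 2 * (2 ^ (3 * e ^ 2 + 2 * e) * 2 ^ (9 * r + 16)) :=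
            Nat.mul_le_mul_left _ (Nat.mul_le_mul_left _
              (Nat.pow_le_pow_right (by norm_num) h5))
        _ = L * 1 * 2 ^ (3 * e ^ 2 + 2 * e) * L * 2 ^ (9 * r + 16) := by ring
        _ ≤ L * e * 2 ^ (3 * e ^ 2 + 2 * e) * L * 2 ^ (9 * r + 16) :=
            Nat.mul_le_mul_right _ (Nat.mul_le_mul_right _ (Nat.mul_le_mul_right _
              (Nat.mul_le_mul_left _ he)))
    calc Nat.sqrt (Nat.sqrt (n ^ 3 * k ^ 2)) / 2 ^ (9 * r + 64)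
        ≤ KE L (2 ^ e) e * L * 2 ^ (9 * r + 16) / 2 ^ (9 * r + 64) := Nat.div_le_div_right hS2
      _ = KE L (2 ^ e) e * L * 2 ^ (9 * r + 16) / (2 ^ (9 * r + 16) * 2 ^ 48) := by
          rw [← pow_add]
      _ = KE L (2 ^ e) e * L / 2 ^ 48 := by
          rw [← Nat.div_div_eq_div_mul, Nat.mul_div_cancel _ (hpe _)]
      _ ≤ KE L (2 ^ e) e * L / 2 := Nat.div_le_div_left (by norm_num) (by norm_num)

end NumFAux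

theorem num_lowerF {n k : ℕ} (hn : 2 ^ 128 ≤ n) (hk : k ^ 2 ≤ n ^ 3) (hk2 : 2 ^ 64 * n ≤ k ^ 2) :
    ∃ L D e, 1 ≤ L ∧ 1 ≤ D ∧ 1 ≤ e ∧ 5000 * (NE L D e + D ^ e + XE L D e * D ^ e) ≤ n ∧
      D ^ e * (XE L D e * D ^ e + 1) + 2 ≤ k ∧
      Nat.sqrt (Nat.sqrt (n ^ 3 * k ^ 2)) / 2 ^ (9 * Nat.sqrt (Nat.log 2 n) + 64) ≤
        KE L D e * L / 2 := by
  have hn0 : 0 < n := lt_of_lt_of_le (by positivity) hn
  have hM1 : 2 ^ Nat.log 2 n ≤ n := Nat.pow_log_le_self 2 hn0.ne'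
  have hM2 : n < 2 ^ (Nat.log 2 n + 1) := Nat.lt_pow_succ_log_self (by norm_num) n
  have hq0 : 2 ^ 64 ≤ k ^ 2 / n := (Nat.le_div_iff_mul_le hn0).2 hk2
  have hq1 : 0 < k ^ 2 / n := lt_of_lt_of_le (by positivity) hq0
  have hl1 : 2 ^ Nat.log 2 (k ^ 2 / n) ≤ k ^ 2 / n := Nat.pow_log_le_self 2 hq1.ne'
  have hl2 : k ^ 2 / n < 2 ^ (Nat.log 2 (k ^ 2 / n) + 1) :=
    Nat.lt_pow_succ_log_self (by norm_num) _
  have hl3 : 64 ≤ Nat.log 2 (k ^ 2 / n) := by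
    have h1 : 2 ^ 64 < 2 ^ (Nat.log 2 (k ^ 2 / n) + 1) := lt_of_le_of_lt hq0 hl2
    have h2 := (Nat.pow_lt_pow_iff_right (by norm_num)).1 h1
    omega
  have hl4 : Nat.log 2 (k ^ 2 / n) ≤ 2 * Nat.log 2 n + 1 := by
    have h1 : k ^ 2 / n ≤ n ^ 2 := by
      apply Nat.div_le_of_le_mul
      calc k ^ 2 ≤ n ^ 3 := hk
        _ = n * n ^ 2 := by ring
    have h2 : n ^ 2 < 2 ^ (2 * Nat.log 2 n + 2) := by
      have h3 : (2 : ℕ) ^ (2 * Nat.log 2 n + 2) = (2 ^ (Nat.log 2 n + 1)) ^ 2 := by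
        rw [← pow_mul]
        congr 1
        ring
      rw [h3]
      exact Nat.pow_lt_pow_left hM2 (by norm_num)
    have h3 : 2 ^ Nat.log 2 (k ^ 2 / n) < 2 ^ (2 * Nat.log 2 n + 2) :=
      lt_of_le_of_lt (hl1.trans h1) h2
    have h4 := (Nat.pow_lt_pow_iff_right (by norm_num)).1 h3
    omega
  generalize Nat.log 2 n = M at *
  generalize Nat.log 2 (k ^ 2 / n) = l at *
  have hE1 : Nat.sqrt (l / 4) ^ 2 ≤ l / 4 := Nat.sqrt_le' _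
  have hE2 : l / 4 < (Nat.sqrt (l / 4) + 1) ^ 2 := Nat.lt_succ_sqrt' _
  have hE3 : 4 ≤ Nat.sqrt (l / 4) := by
    rw [Nat.le_sqrt']
    omega
  obtain ⟨e, he⟩ : ∃ e, Nat.sqrt (l / 4) = e + 3 := ⟨Nat.sqrt (l / 4) - 3, by omega⟩
  rw [he] at hE1 hE2 hE3
  have he1 : 1 ≤ e := by omega
  have hr1 : M < (Nat.sqrt M + 1) ^ 2 := Nat.lt_succ_sqrt' _
  have hl5 : 4 * (e + 3) ^ 2 ≤ l := by omega
  have hl6 : l + 1 ≤ 4 * (e + 4) ^ 2 := by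
    have h1 : (e + 3 + 1) ^ 2 = (e + 4) ^ 2 := by ring
    rw [h1] at hE2
    omega
  have h2E : 2 * (e + 3) ^ 2 ≤ M := by omega
  have h2M : 4 * (e + 3) ^ 2 ≤ 2 * M + 1 := by omega
  have hP : 2 * e ^ 2 + 6 * e + 24 ≤ M := (NumFAux.sq_aux3 he1).trans h2E
  have hx1 : 2 ^ (2 * e ^ 2 + 6 * e + 24) ≤ n :=
    (Nat.pow_le_pow_right (by norm_num) hP).trans hM1
  have hpp : 0 < 2 ^ (2 * e ^ 2 + 6 * e + 24) := by positivity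
  have hx2 : 1 ≤ n / 2 ^ (2 * e ^ 2 + 6 * e + 24) := (Nat.one_le_div_iff hpp).2 hx1
  have hx3 : n / 2 ^ (2 * e ^ 2 + 6 * e + 24) * 2 ^ (2 * e ^ 2 + 6 * e + 24) ≤ n :=
    Nat.div_mul_le_self _ _
  have hx4 : n < (n / 2 ^ (2 * e ^ 2 + 6 * e + 24) + 1) * 2 ^ (2 * e ^ 2 + 6 * e + 24) := by
    rw [mul_comm]
    exact Nat.lt_mul_div_succ n hpp
  generalize n / 2 ^ (2 * e ^ 2 + 6 * e + 24) = x at *
  have hL1 : Nat.sqrt x ^ 2 ≤ x := Nat.sqrt_le' _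
  have hL2 : x < (Nat.sqrt x + 1) ^ 2 := Nat.lt_succ_sqrt' _
  have hL3 : 1 ≤ Nat.sqrt x := by
    rw [Nat.le_sqrt']
    simpa using hx2
  generalize Nat.sqrt x = L at *
  have hL4 : x + 1 ≤ L ^ 2 * 4 := NumFAux.sq_aux hL3 hL2
  have key := NumFAux.main (n := n) (k := k) (L := L) (e := e) (r := Nat.sqrt M) hL3 he1
    ((Nat.mul_le_mul_right _ hL1).trans hx3)
    (by
      refine hx4.le.trans ?_
      calc (x + 1) * 2 ^ (2 * e ^ 2 + 6 * e + 24)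
          ≤ L ^ 2 * 4 * 2 ^ (2 * e ^ 2 + 6 * e + 24) := Nat.mul_le_mul_right _ hL4
        _ ≤ L ^ 2 * 8 * 2 ^ (2 * e ^ 2 + 6 * e + 24) :=
            Nat.mul_le_mul_right _ (Nat.mul_le_mul_left _ (by norm_num))
        _ = L ^ 2 * 2 ^ (2 * e ^ 2 + 6 * e + 27) := by
            rw [show 2 * e ^ 2 + 6 * e + 27 = (2 * e ^ 2 + 6 * e + 24) + 3 by ring,
              pow_add 2 _ 3]
            ring)
    (by
      have h1 : 2 ^ (4 * e ^ 2) ≤ k ^ 2 / n := by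
        refine le_trans (Nat.pow_le_pow_right (by norm_num) ?_) hl1
        exact (Nat.mul_le_mul_left _ (Nat.pow_le_pow_left (by omega) 2)).trans hl5
      exact (Nat.le_div_iff_mul_le hn0).1 h1)
    (by
      have h1 : k ^ 2 / n < 2 ^ (4 * (e + 4) ^ 2) :=
        lt_of_lt_of_le hl2 (Nat.pow_le_pow_right (by norm_num) hl6)
      have h2 := (Nat.div_lt_iff_lt_mul hn0).1 h1
      rw [mul_comm]
      exact h2.le)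
    (by
      have h1 : (4 * (e + 3)) ^ 2 ≤ (3 * (Nat.sqrt M + 1)) ^ 2 := NumFAux.sq_aux2 h2M hr1
      have h2 := (Nat.pow_le_pow_iff_left (n := 2) (by norm_num)).1 h1
      omega)
  exact ⟨L, 2 ^ e, e, hL3, Nat.one_le_two_pow, he1, key.1, key.2.1, key.2.2⟩

end Pool.Agent.P0036f5f
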