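import Pool.Agent.Lib.P0036f5f.EDefs

/-!
# F1: size of the witness machine

As `P0036f5e/WitA.lean`: the set of states `scan, mid, fr, fin, nr`, `lg j, rg j (j ≤ K1)`,
`lc j, rc j (j ≤ K2)`, `ra i, gl β i, lf β i, se β i, ca β i (i ≤ N)`, `cb β j, rt j, rh j, bk j (j ≤ N)` is
closed (`1 ≤ N`, `1 ≤ K1`, `1 ≤ K2`), it has at most
`5 + 2 (K1 + 1) + 2 (K2 + 1) + 14 (N + 1) ≤ 33 (N + K1 + K2)` elements; 9 letters, 3 marks, 14 tape
symbols, at most two transitions per state and symbol; the size is at most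
`33 x + 9 + 14 + 1 + 1 + 5 * (33 x * 14 * 2) ≤ 5000 x`, `x = N + K1 + K2`.
-/

set_option autoImplicit false

namespace Pool.Agent.P0036f5f

open Relation Pool.Agent.P0036f5v2 Pool.Agent.P0036f5w Pool.Agent.P0036f5g Pool.Agent.P0036f5k
  Classical

namespace WitAAux

theorem few_restrict {A : Type} (M : Mach A) (cv : Bool) (k : ℕ) (K : Set M.Q) (hI : M.qI ∈ K)
    (hM : FewWrites M cv k) : FewWrites (M.restrict K hI) cv k := by
  intro w c hr
  have key : ∀ c : (M.restrict K hI).Cfg, Reach (M.restrict K hI) cv w c →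
      Reach M cv w ⟨c.st.1, c.pos, c.tape, c.seen⟩ := by
    intro c hr
    let φ : (M.restrict K hI).Cfg → M.Cfg := fun c => ⟨c.st.1, c.pos, c.tape, c.seen⟩
    have : ReflTransGen (M.Step cv w.length) (φ ((M.restrict K hI).init w)) (φ c) := by
      refine ReflTransGen.lift φ ?_ _ _ hr
      rintro a b ⟨h1, x, d, h2, h3, h4, h5, h6, h7⟩
      exact ⟨h1, x, d, h2, h3, h4, h5, h6, h7⟩
    exact this
  obtain ⟨h1, h2, h3⟩ := hM w _ (key c hr)
  refine ⟨h1, h2, ?_⟩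
  intro hs hp1 hp2 q x d hx hok
  exact h3 hs hp1 hp2 q.1 x d hx hok

/-- the states with a bit and a number -/
def fam (g : Bool → ℕ → GQ) (n : ℕ) : Set GQ :=
  (fun p : Bool × ℕ => g p.1 p.2) '' (Set.univ ×ˢ Set.Iic n)

/-- the states that can occur -/
def kst (N K1 K2 : ℕ) : Set GQ :=
  ((({.scan, .mid, .fr, .fin, .nr} ∪ GQ.ra '' Set.Iic N) ∪
    ((GQ.lg '' Set.Iic K1 ∪ GQ.rg '' Set.Iic K1) ∪ (GQ.lc '' Set.Iic K2 ∪ GQ.rc '' Set.Iic K2))) ∪
    ((GQ.rt '' Set.Iic N ∪ GQ.rh '' Set.Iic N) ∪ (GQ.bk '' Set.Iic N ∪ fam GQ.cb N))) ∪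
    ((fam GQ.gl N ∪ fam GQ.lf N) ∪ (fam GQ.se N ∪ fam GQ.ca N))

theorem mem_scan (N K1 K2 : ℕ) : GQ.scan ∈ kst N K1 K2 := by simp [kst]
theorem mem_mid (N K1 K2 : ℕ) : GQ.mid ∈ kst N K1 K2 := by simp [kst]
theorem mem_fr (N K1 K2 : ℕ) : GQ.fr ∈ kst N K1 K2 := by simp [kst]
theorem mem_fin (N K1 K2 : ℕ) : GQ.fin ∈ kst N K1 K2 := by simp [kst]
theorem mem_nr (N K1 K2 : ℕ) : GQ.nr ∈ kst N K1 K2 := by simp [kst]
theorem mem_lg (N K1 K2 j : ℕ) : GQ.lg j ∈ kst N K1 K2 ↔ j ≤ K1 := by simp [kst, fam]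
theorem mem_rg (N K1 K2 j : ℕ) : GQ.rg j ∈ kst N K1 K2 ↔ j ≤ K1 := by simp [kst, fam]
theorem mem_lc (N K1 K2 j : ℕ) : GQ.lc j ∈ kst N K1 K2 ↔ j ≤ K2 := by simp [kst, fam]
theorem mem_rc (N K1 K2 j : ℕ) : GQ.rc j ∈ kst N K1 K2 ↔ j ≤ K2 := by simp [kst, fam]
theorem mem_ra (N K1 K2 i : ℕ) : GQ.ra i ∈ kst N K1 K2 ↔ i ≤ N := by simp [kst, fam]
theorem mem_rt (N K1 K2 i : ℕ) : GQ.rt i ∈ kst N K1 K2 ↔ i ≤ N := by simp [kst, fam]
theorem mem_rh (N K1 K2 i : ℕ) : GQ.rh i ∈ kst N K1 K2 ↔ i ≤ N := by simp [kst, fam]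
theorem mem_bk (N K1 K2 i : ℕ) : GQ.bk i ∈ kst N K1 K2 ↔ i ≤ N := by simp [kst, fam]
theorem mem_cb (N K1 K2 i : ℕ) (c : Bool) : GQ.cb c i ∈ kst N K1 K2 ↔ i ≤ N := by
  cases c <;> simp [kst, fam]
theorem mem_gl (N K1 K2 i : ℕ) (c : Bool) : GQ.gl c i ∈ kst N K1 K2 ↔ i ≤ N := by
  cases c <;> simp [kst, fam]
theorem mem_lf (N K1 K2 i : ℕ) (c : Bool) : GQ.lf c i ∈ kst N K1 K2 ↔ i ≤ N := by
  cases c <;> simp [kst, fam]
theorem mem_se (N K1 K2 i : ℕ) (c : Bool) : GQ.se c i ∈ kst N K1 K2 ↔ i ≤ N := by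
  cases c <;> simp [kst, fam]
theorem mem_ca (N K1 K2 i : ℕ) (c : Bool) : GQ.ca c i ∈ kst N K1 K2 ↔ i ≤ N := by
  cases c <;> simp [kst, fam]

theorem fam_finite (g : Bool → ℕ → GQ) (n : ℕ) : (fam g n).Finite :=
  (Set.finite_univ.prod (Set.finite_Iic n)).image _

theorem fam_ncard (g : Bool → ℕ → GQ) (n : ℕ) : (fam g n).ncard ≤ 2 * (n + 1) := by
  have c2 : (Set.Iic n).ncard = n + 1 := by simp [Set.ncard_eq_toFinset_card']
  have c3 : ((Set.univ : Set Bool) ×ˢ Set.Iic n).ncard = 2 * (n + 1) := by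
    rw [Set.ncard_prod, c2]
    congr 1
    simp
  exact (Set.ncard_image_le (Set.finite_univ.prod (Set.finite_Iic n))).trans c3.le

theorem im_ncard (g : ℕ → GQ) (n : ℕ) : (g '' Set.Iic n).ncard ≤ n + 1 := by
  have c2 : (Set.Iic n).ncard = n + 1 := by simp [Set.ncard_eq_toFinset_card']
  exact (Set.ncard_image_le (Set.finite_Iic n)).trans c2.le

theorem kst_finite (N K1 K2 : ℕ) : (kst N K1 K2).Finite := by
  have hi : ∀ (g : ℕ → GQ) (n : ℕ), (g '' Set.Iic n).Finite :=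
    fun g n => (Set.finite_Iic n).image g
  unfold kst
  exact ((((Set.toFinite _).union (hi _ _)).union
    (((hi _ _).union (hi _ _)).union ((hi _ _).union (hi _ _)))).union
    (((hi _ _).union (hi _ _)).union ((hi _ _).union (fam_finite _ _)))).union
    (((fam_finite _ _).union (fam_finite _ _)).union ((fam_finite _ _).union (fam_finite _ _)))

theorem kst_ncard (N K1 K2 : ℕ) :
    (kst N K1 K2).ncard ≤ 5 + 2 * (K1 + 1) + 2 * (K2 + 1) + 14 * (N + 1) := by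
  have i0 : ({.scan, .mid, .fr, .fin, .nr} : Set GQ).ncard ≤ 5 := by
    have e1 := Set.ncard_insert_le GQ.scan ({.mid, .fr, .fin, .nr} : Set GQ)
    have e2 := Set.ncard_insert_le GQ.mid ({.fr, .fin, .nr} : Set GQ)
    have e3 := Set.ncard_insert_le GQ.fr ({.fin, .nr} : Set GQ)
    have e4 := Set.ncard_insert_le GQ.fin ({.nr} : Set GQ)
    rw [Set.ncard_singleton] at e4
    omega
  have u1 := Set.ncard_union_le (((({.scan, .mid, .fr, .fin, .nr} : Set GQ) ∪ GQ.ra '' Set.Iic N) ∪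
    ((GQ.lg '' Set.Iic K1 ∪ GQ.rg '' Set.Iic K1) ∪ (GQ.lc '' Set.Iic K2 ∪ GQ.rc '' Set.Iic K2))) ∪
    ((GQ.rt '' Set.Iic N ∪ GQ.rh '' Set.Iic N) ∪ (GQ.bk '' Set.Iic N ∪ fam GQ.cb N)))
    ((fam GQ.gl N ∪ fam GQ.lf N) ∪ (fam GQ.se N ∪ fam GQ.ca N))
  have u2 := Set.ncard_union_le ((({.scan, .mid, .fr, .fin, .nr} : Set GQ) ∪ GQ.ra '' Set.Iic N) ∪
    ((GQ.lg '' Set.Iic K1 ∪ GQ.rg '' Set.Iic K1) ∪ (GQ.lc '' Set.Iic K2 ∪ GQ.rc '' Set.Iic K2)))
    ((GQ.rt '' Set.Iic N ∪ GQ.rh '' Set.Iic N) ∪ (GQ.bk '' Set.Iic N ∪ fam GQ.cb N))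
  have u3 := Set.ncard_union_le (({.scan, .mid, .fr, .fin, .nr} : Set GQ) ∪ GQ.ra '' Set.Iic N)
    ((GQ.lg '' Set.Iic K1 ∪ GQ.rg '' Set.Iic K1) ∪ (GQ.lc '' Set.Iic K2 ∪ GQ.rc '' Set.Iic K2))
  have u4 := Set.ncard_union_le ({.scan, .mid, .fr, .fin, .nr} : Set GQ) (GQ.ra '' Set.Iic N)
  have u5 := Set.ncard_union_le (GQ.lg '' Set.Iic K1 ∪ GQ.rg '' Set.Iic K1)
    (GQ.lc '' Set.Iic K2 ∪ GQ.rc '' Set.Iic K2)
  have u5a := Set.ncard_union_le (GQ.lg '' Set.Iic K1) (GQ.rg '' Set.Iic K1)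
  have u5b := Set.ncard_union_le (GQ.lc '' Set.Iic K2) (GQ.rc '' Set.Iic K2)
  have u6 := Set.ncard_union_le (GQ.rt '' Set.Iic N ∪ GQ.rh '' Set.Iic N)
    (GQ.bk '' Set.Iic N ∪ fam GQ.cb N)
  have u7 := Set.ncard_union_le (GQ.rt '' Set.Iic N) (GQ.rh '' Set.Iic N)
  have u8 := Set.ncard_union_le (GQ.bk '' Set.Iic N) (fam GQ.cb N)
  have u9 := Set.ncard_union_le (fam GQ.gl N ∪ fam GQ.lf N) (fam GQ.se N ∪ fam GQ.ca N)
  have u10 := Set.ncard_union_le (fam GQ.gl N) (fam GQ.lf N)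
  have u11 := Set.ncard_union_le (fam GQ.se N) (fam GQ.ca N)
  have f1 := im_ncard GQ.ra N
  have f2 := im_ncard GQ.lc K2
  have f3 := im_ncard GQ.rc K2
  have f2' := im_ncard GQ.lg K1
  have f3' := im_ncard GQ.rg K1
  have f4 := im_ncard GQ.rt N
  have f5 := im_ncard GQ.rh N
  have f6 := im_ncard GQ.bk N
  have f7 := fam_ncard GQ.cb N
  have f8 := fam_ncard GQ.gl N
  have f9 := fam_ncard GQ.lf N
  have f10 := fam_ncard GQ.se N
  have f11 := fam_ncard GQ.ca N
  unfold kst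
  omega

theorem kst_closed (N K1 K2 : ℕ) (hN : 1 ≤ N) (hK1 : 1 ≤ K1) (hK2 : 1 ≤ K2) :
    ∀ q ∈ kst N K1 K2, ∀ s, ∀ x ∈ (gm N K1 K2).δ q s, x.1 ∈ kst N K1 K2 := by
  intro q hq s x hx
  have hx' : gtr1 N K1 K2 q s = some x ∨ gtr2 q s = some x := hx
  clear hx
  rcases q with _ | _ | _ | _ | _ | j | (_ | _ | j) | j | (_ | _ | j) | i | ⟨e, i⟩ | ⟨e, i⟩ |
      ⟨e, i⟩ | ⟨e, (_ | i)⟩ | ⟨e, j⟩ | j | j | (_ | j) <;>
    rcases s with (_ | _ | _ | _ | _ | _ | _ | _) | (_ | _ | _) | _ | _ <;>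
    simp only [gtr1, gtr2, GA.blk, GA.row, mem_lg, mem_rg, mem_lc, mem_rc, mem_ra, mem_rt, mem_rh,
      mem_bk, mem_cb, mem_gl, mem_lf, mem_se, mem_ca, reduceCtorEq, or_false, or_self,
      Option.some.injEq, if_true, if_false] at hx' hq <;>
    (try split_ifs at hx') <;>
    (try simp only [Option.some.injEq, false_or, reduceCtorEq] at hx') <;>
    (try (rcases hx' with hx' | hx')) <;>
    (try subst hx') <;>
    (try simp only [mem_scan, mem_mid, mem_fr, mem_fin, mem_nr, mem_lg, mem_rg, mem_lc, mem_rc,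
      mem_ra, mem_rt, mem_rh, mem_bk, mem_cb, mem_gl, mem_lf, mem_se, mem_ca]) <;>
    (try omega)

end WitAAux

open WitAAux in
theorem gexists_small (N K1 K2 : ℕ) (hN : 1 ≤ N) (hK1 : 1 ≤ K1) (hK2 : 1 ≤ K2) :
    ∃ M : LA GA, (∀ cv, M.toMach.lang cv = (gm N K1 K2).lang cv) ∧
      M.toMach.size ≤ 5000 * (N + K1 + K2) ∧
      ∀ (cv : Bool) (k : ℕ), FewWrites (gm N K1 K2) cv k → FewWrites M.toMach cv k := by
  have hI : (gm N K1 K2).qI ∈ kst N K1 K2 := mem_scan N K1 K2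
  let M' : Mach GA := (gm N K1 K2).restrict (kst N K1 K2) hI
  have fQ : Finite M'.Q := (kst_finite N K1 K2).to_subtype
  let eW : GW ≃ Option Bool :=
    { toFun := fun a => match a with
        | .ms => none
        | .mg => some false
        | .mr => some true
      invFun := fun a => match a with
        | none => .ms
        | some false => .mg
        | some true => .mr
      left_inv := fun a => by rcases a with _ | _ | _ <;> rfl
      right_inv := fun a => by rcases a with _ | _ | _ <;> rfl }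
  have fW0 : Finite GW := Finite.of_equiv _ eW.symm
  have fW : Finite M'.W := fW0
  refine ⟨⟨M', fQ, fW⟩, ?_, ?_, ?_⟩
  · intro cv
    exact Mach.restrict_lang _ cv _ hI (kst_closed N K1 K2 hN hK1 hK2)
  · show M'.size ≤ _
    let eA : GA ≃ Option ((Bool × Bool) ⊕ (Bool × Bool)) :=
      { toFun := fun v => match v with
          | .s => some (.inl (false, false))
          | .c => some (.inl (false, true))
          | .a => some (.inl (true, false))
          | .b => some (.inl (true, true))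
          | .d β => some (.inr (true, β))
          | .h => some (.inr (false, false))
          | .g => none
          | .r => some (.inr (false, true))
        invFun := fun a => match a with
          | some (.inl (false, false)) => .s
          | some (.inl (false, true)) => .c
          | some (.inl (true, false)) => .a
          | some (.inl (true, true)) => .b
          | some (.inr (true, β)) => .d β
          | some (.inr (false, false)) => .h
          | none => .g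
          | some (.inr (false, true)) => .r
        left_inv := fun v => by rcases v with _ | _ | _ | _ | β | _ | _ | _ <;> rfl
        right_inv := fun a => by rcases a with _ | ⟨_ | _, _ | _⟩ | ⟨_ | _, _ | _⟩ <;> rfl }
    have fA : Finite GA := Finite.of_equiv _ eA.symm
    have hA : Nat.card GA = 9 := by
      rw [Nat.card_congr eA]
      simp
    have hW : Nat.card GW = 3 := by
      rw [Nat.card_congr eW]
      simp
    have hS : Nat.card (Sym GA M'.W) = 14 := by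
      have : Nat.card (Sym GA GW) = 14 := by
        rw [card_sym, hA, hW]
      exact this
    have hQ : Nat.card M'.Q = (kst N K1 K2).ncard := rfl
    have hF : M'.F.ncard ≤ Nat.card M'.Q := Set.ncard_le_card M'.F
    have fS : Finite (Sym GA M'.W) := by
      apply Nat.finite_of_card_ne_zero
      rw [hS]
      norm_num
    have hT : Nat.card {t : (M'.Q × Sym GA M'.W) ×
        (M'.Q × (GA ⊕ M'.W) × Bool) // t.2 ∈ M'.δ t.1.1 t.1.2} ≤
        Nat.card ((M'.Q × Sym GA M'.W) × Bool) := by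
      refine Nat.card_le_card_of_injective
        (fun u => (u.1.1, decide (gtr1 N K1 K2 u.1.1.1.1 u.1.1.2 =
          some (u.1.2.1.1, u.1.2.2)))) ?_
      rintro ⟨⟨⟨q, s⟩, ⟨r, y⟩⟩, h⟩ ⟨⟨⟨q', s'⟩, ⟨r', y'⟩⟩, h'⟩ heq
      simp only [Prod.mk.injEq] at heq
      obtain ⟨⟨rfl, rfl⟩, hd⟩ := heq
      have h1 : gtr1 N K1 K2 q.1 s = some (r.1, y) ∨ gtr2 q.1 s = some (r.1, y) := h
      have h2 : gtr1 N K1 K2 q.1 s = some (r'.1, y') ∨ gtr2 q.1 s = some (r'.1, y') := h'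
      have h3 : (gtr1 N K1 K2 q.1 s = some (r.1, y)) ↔
          (gtr1 N K1 K2 q.1 s = some (r'.1, y')) := by
        simpa using hd
      have h4 : (r.1, y) = (r'.1, y') := by
        by_cases hc : gtr1 N K1 K2 q.1 s = some (r.1, y)
        · have := h3.1 hc
          rw [hc] at this
          exact Option.some.inj this
        · have hc' : ¬ gtr1 N K1 K2 q.1 s = some (r'.1, y') := fun h => hc (h3.2 h)
          have a1 := h1.resolve_left hc
          have a2 := h2.resolve_left hc'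
          rw [a1] at a2
          exact Option.some.inj a2
      have h5 : r = r' := Subtype.ext (congrArg Prod.fst h4)
      have h6 : y = y' := congrArg Prod.snd h4
      subst h5 h6
      rfl
    rw [Nat.card_prod, Nat.card_prod, hS] at hT
    have hB : Nat.card Bool = 2 := by simp
    rw [hB] at hT
    have hK' := kst_ncard N K1 K2
    unfold Mach.size
    rw [hA, hS]
    rw [hQ] at hT hF ⊢
    omega
  · intro cv k hk
    exact few_restrict (gm N K1 K2) cv k (kst N K1 K2) hI hk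

end Pool.Agent.P0036f5f
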