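import Pool.Agent.Lib.P0036f5f.EDefs

/-!
# F4: correct test words are accepted (adapted from the part E version of helper2)

As `P0036f5e/WitB2.lean` (helper2), with groups: at the start of the group `x` (state `fr` or `bk 0` at the
unmarked `g`): mark it, `lg 1` goes left, passes the `x` older marked groups (and all marked rows),
reaches `h` in the state `lg (x + 1)` (`x + 1 ≤ K1`); `rg (x + 1)` goes right, passes `x` marked groups, and
at the last one gets `nr` at the next cell, the `r` of the first row of the group: mark it, `lc 1`.  For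
every row `y` of the group (after its `r` has been marked): `lc 1` goes left, passes the `y` older marked
rows of the group, reaches the marked `g` in the state `lc (y + 1)` (`y + 1 ≤ K2`); `rc (y + 1)` goes right,
passes `y` marked rows, and at the last one gets `ra 0`.  The segments as in part E.
-/

set_option autoImplicit false

namespace Pool.Agent.P0036f5f

open Relation Pool.Agent.P0036f5v2 Pool.Agent.P0036f5w Pool.Agent.P0036f5g Pool.Agent.P0036f5k
  Pool.Agent.P0036f5e Classical

namespace WitB2Aux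

/-- the tape with the marked separator at `A` and the marked letters `0, …, m - 1` (the letters `g` and
`r` of the test in their order; `i` is a letter `g` if `i % (K2 + 1) = 0`) -/
noncomputable def TE (K2 A : ℕ) (π : ℕ → ℕ) (τ : ℕ → Sym GA GW) (m p : ℕ) : Sym GA GW :=
  if p = A then .wrk .ms
  else if ∃ i, i < m ∧ i % (K2 + 1) = 0 ∧ p = π i then .wrk .mg
  else if ∃ i, i < m ∧ i % (K2 + 1) ≠ 0 ∧ p = π i then .wrk .mr else τ p

/-- data of a correct test word -/
structure Dat (K1 K2 L N : ℕ) (s t : ℕ → ℕ → ℕ → ℕ) (F G : ℕ → ℕ → ℕ → Bool) (w : List GA)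
    (τ : ℕ → Sym GA GW) (A H : ℕ) (π : ℕ → ℕ) (σ : ℕ → ℕ → ℕ → ℕ) : Prop where
  L1 : 1 ≤ L
  k1 : 1 ≤ K1
  k2 : 1 ≤ K2
  ini : (gm N K1 K2).initTape w = τ
  hA : 1 ≤ A
  hAH : A < H
  s1 : ∀ x < K1, ∀ y < K2, ∀ l < L, 1 ≤ s x y l ∧ s x y l ≤ N
  t1 : ∀ x < K1, ∀ y < K2, ∀ l < L, 1 ≤ t x y l ∧ t x y l ≤ N
  r0 : π 0 = H + 1
  rl : ∀ i < K1 * (K2 + 1), π i < π (i + 1)
  gg : ∀ x < K1, π (x * (K2 + 1) + 1) = π (x * (K2 + 1)) + 1
  g0 : ∀ x < K1, ∀ y < K2, σ x y 0 = π (x * (K2 + 1) + (y + 1)) + 1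
  gs : ∀ x < K1, ∀ y < K2, ∀ l < L, σ x y (l + 1) = σ x y l + s x y l + t x y l + 1
  rs : ∀ x < K1, ∀ y < K2, σ x y L = π (x * (K2 + 1) + (y + 1) + 1)
  len : π (K1 * (K2 + 1)) = w.length + 1
  fl : ∀ p, 1 ≤ p → p < H → ∃ x, τ p = .inp x ∧ x.blk = true
  fA : τ A = .inp .s
  fH : τ H = .inp .h
  fg : ∀ x < K1, τ (π (x * (K2 + 1))) = .inp .g
  fr : ∀ x < K1, ∀ y < K2, τ (π (x * (K2 + 1) + (y + 1))) = .inp .r
  fi : ∀ i < K1 * (K2 + 1), ∀ p, π i < p → p < π (i + 1) → ∃ x, τ p = .inp x ∧ x.row = true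
  fa : ∀ x < K1, ∀ y < K2, ∀ l < L, ∀ u < s x y l, τ (σ x y l + u) = .inp .a
  fd : ∀ x < K1, ∀ y < K2, ∀ l < L, τ (σ x y l + s x y l) = .inp (.d (G x y l))
  fb : ∀ x < K1, ∀ y < K2, ∀ l < L, ∀ u < t x y l, τ (σ x y l + s x y l + 1 + u) = .inp .b
  fe : τ (w.length + 1) = .rend
  ent : ∀ x < K1, ∀ y < K2, ∀ l < L, ∃ e, A < e ∧ e + s x y l + t x y l + 1 < H ∧
    (∀ p, A < p → p < e → ∃ z, τ p = .inp z ∧ (z = .c ∨ z.row = true)) ∧
    τ e = .inp .c ∧ (∀ u < s x y l, τ (e + 1 + u) = .inp .a) ∧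
    (∀ u < t x y l, τ (e + 1 + s x y l + u) = .inp .b) ∧
    τ (e + 1 + s x y l + t x y l) = .inp (.d (F x y l))
  eq : ∀ x < K1, ∀ y < K2, ∀ l < L, F x y l = G x y l

/-- reachable with `m` marked letters -/
def R (N K1 K2 : ℕ) (cv : Bool) (w : List GA) (τ : ℕ → Sym GA GW) (A : ℕ) (π : ℕ → ℕ) (m : ℕ)
    (q : GQ) (p : ℕ) : Prop :=
  ∃ sn : Set ℕ, ReflTransGen ((gm N K1 K2).Step cv w.length) ((gm N K1 K2).init w)
    ⟨q, p, TE K2 A π τ m, sn⟩ ∧ ∀ i ∈ sn, i < π m

variable {K1 K2 L N : ℕ} {s t : ℕ → ℕ → ℕ → ℕ} {F G : ℕ → ℕ → ℕ → Bool} {w : List GA}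
  {τ : ℕ → Sym GA GW} {A H : ℕ} {π : ℕ → ℕ} {σ : ℕ → ℕ → ℕ → ℕ} {cv : Bool}

theorem bnd {x : ℕ} (hx : x < K1) : x * (K2 + 1) + (K2 + 1) ≤ K1 * (K2 + 1) := by
  have h := Nat.mul_le_mul_right (K2 + 1) (Nat.succ_le_of_lt hx)
  rwa [Nat.succ_mul] at h

theorem md {x z : ℕ} (hz : z < K2 + 1) : (x * (K2 + 1) + z) % (K2 + 1) = z := by
  rw [Nat.mul_add_mod', Nat.mod_eq_of_lt hz]

theorem Dat.mono (D : Dat K1 K2 L N s t F G w τ A H π σ) : ∀ q', q' ≤ K1 * (K2 + 1) → ∀ q,
    q < q' → π q < π q' := by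
  intro q'
  induction q' with
  | zero => intro _ q hq; omega
  | succ q' ih =>
    intro h q hq
    have h1 := D.rl q' (by omega)
    rcases Nat.lt_or_ge q q' with h2 | h2
    · have := ih (by omega) q h2
      omega
    · have h3 : q = q' := by omega
      subst h3
      exact h1

theorem Dat.mono' (D : Dat K1 K2 L N s t F G w τ A H π σ) {q q' : ℕ} (h1 : q ≤ q')
    (h2 : q' ≤ K1 * (K2 + 1)) : π q ≤ π q' := by
  rcases Nat.eq_or_lt_of_le h1 with h | h
  · rw [h]
  · exact (D.mono q' h2 q h).le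

theorem Dat.inj (D : Dat K1 K2 L N s t F G w τ A H π σ) {q q' : ℕ} (h1 : q ≤ K1 * (K2 + 1))
    (h2 : q' ≤ K1 * (K2 + 1)) (h : π q = π q') : q = q' := by
  rcases lt_trichotomy q q' with h3 | h3 | h3
  · have := D.mono q' h2 q h3
    omega
  · exact h3
  · have := D.mono q h1 q' h3
    omega

theorem Dat.low (D : Dat K1 K2 L N s t F G w τ A H π σ) {q : ℕ} (h : q ≤ K1 * (K2 + 1)) :
    H < π q := by
  have := D.mono' (Nat.zero_le q) h
  have := D.r0
  omega

theorem te_A (m : ℕ) : TE K2 A π τ m A = .wrk .ms := by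
  unfold TE
  rw [if_pos rfl]

theorem te_no {m p : ℕ} (hp : p ≠ A) (h : ∀ i < m, p ≠ π i) : TE K2 A π τ m p = τ p := by
  unfold TE
  rw [if_neg hp, if_neg, if_neg]
  · rintro ⟨i, h1, -, h2⟩
    exact h i h1 h2
  · rintro ⟨i, h1, -, h2⟩
    exact h i h1 h2

theorem Dat.te_low (D : Dat K1 K2 L N s t F G w τ A H π σ) {m p : ℕ}
    (hm : m ≤ K1 * (K2 + 1)) (hp : p ≠ A) (hH : p ≤ H) : TE K2 A π τ m p = τ p := by
  refine te_no hp fun i hi => ?_
  have := D.low (q := i) (by omega)
  omega

theorem Dat.te_mg (D : Dat K1 K2 L N s t F G w τ A H π σ) {m q : ℕ}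
    (hm : m ≤ K1 * (K2 + 1)) (hq : q < m) (h0 : q % (K2 + 1) = 0) :
    TE K2 A π τ m (π q) = .wrk .mg := by
  have := D.low (q := q) (by omega)
  have := D.hAH
  unfold TE
  rw [if_neg (by omega), if_pos ⟨q, hq, h0, rfl⟩]

theorem Dat.te_mr (D : Dat K1 K2 L N s t F G w τ A H π σ) {m q : ℕ}
    (hm : m ≤ K1 * (K2 + 1)) (hq : q < m) (h0 : q % (K2 + 1) ≠ 0) :
    TE K2 A π τ m (π q) = .wrk .mr := by
  have := D.low (q := q) (by omega)
  have := D.hAH
  unfold TE
  rw [if_neg (by omega), if_neg, if_pos ⟨q, hq, h0, rfl⟩]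
  rintro ⟨i, h1, h2, h3⟩
  have h4 := D.inj (q := q) (q' := i) (by omega) (by omega) h3
  subst h4
  exact h0 h2

theorem Dat.te_row (D : Dat K1 K2 L N s t F G w τ A H π σ) {m q p : ℕ}
    (hm : m ≤ K1 * (K2 + 1)) (hq : q < K1 * (K2 + 1)) (h1 : π q < p) (h2 : p < π (q + 1)) :
    TE K2 A π τ m p = τ p := by
  have := D.low (q := q) (by omega)
  have := D.hAH
  refine te_no (by omega) fun q' h3 h4 => ?_
  rcases Nat.lt_or_ge q q' with h5 | h5
  · have := D.mono' (q := q + 1) (q' := q') (by omega) (by omega)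
    omega
  · have := D.mono' (q := q') (q' := q) h5 (by omega)
    omega

theorem Dat.te_new (D : Dat K1 K2 L N s t F G w τ A H π σ) {m : ℕ}
    (hm : m ≤ K1 * (K2 + 1)) : TE K2 A π τ m (π m) = τ (π m) := by
  have := D.low hm
  have := D.hAH
  refine te_no (by omega) fun q' h3 h4 => ?_
  have := D.mono m hm q' h3
  omega

theorem te_succ {m p : ℕ} (hp : p ≠ π m) : TE K2 A π τ (m + 1) p = TE K2 A π τ m p := by
  have e : ∀ c : ℕ → Prop, (∃ i, i < m + 1 ∧ c i ∧ p = π i) ↔ ∃ i, i < m ∧ c i ∧ p = π i := by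
    intro c
    constructor
    · rintro ⟨i, h1, h2, h3⟩
      rcases Nat.lt_or_ge i m with h4 | h4
      · exact ⟨i, h4, h2, h3⟩
      · have : i = m := by omega
        subst this
        exact absurd h3 hp
    · rintro ⟨i, h1, h2, h3⟩
      exact ⟨i, by omega, h2, h3⟩
  have e1 := e fun i => i % (K2 + 1) = 0
  have e2 := e fun i => i % (K2 + 1) ≠ 0
  unfold TE
  simp only [e1, e2]

/-- the mark of the letter `m` -/
def mkw (K2 m : ℕ) : GW := if m % (K2 + 1) = 0 then .mg else .mr

theorem Dat.te_update (D : Dat K1 K2 L N s t F G w τ A H π σ) {m : ℕ}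
    (hm : m < K1 * (K2 + 1)) :
    Function.update (TE K2 A π τ m) (π m) (.wrk (mkw K2 m)) = TE K2 A π τ (m + 1) := by
  funext p
  by_cases hp : p = π m
  · rw [hp, Function.update_self]
    unfold mkw
    by_cases h0 : m % (K2 + 1) = 0
    · rw [if_pos h0, D.te_mg (by omega) (by omega) h0]
    · rw [if_neg h0, D.te_mr (by omega) (by omega) h0]
  · rw [Function.update_of_ne hp, te_succ hp]

theorem Dat.find (D : Dat K1 K2 L N s t F G w τ A H π σ) : ∀ m, m ≤ K1 * (K2 + 1) → ∀ p,
    H < p → p < π m → ∃ q, q < m ∧ π q ≤ p ∧ p < π (q + 1) := by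
  intro m
  induction m with
  | zero => intro _ p h1 h2; have := D.r0; omega
  | succ m ih =>
    intro hm p h1 h2
    rcases Nat.lt_or_ge p (π m) with h3 | h3
    · obtain ⟨q, h4, h5⟩ := ih (by omega) p h1 h3
      exact ⟨q, by omega, h5⟩
    · exact ⟨m, by omega, h3, h2⟩

/-- the cells of the marked rows -/
theorem Dat.cell (D : Dat K1 K2 L N s t F G w τ A H π σ) {m p : ℕ}
    (hm : m ≤ K1 * (K2 + 1)) (h1 : H < p) (h2 : p < π m) :
    (∃ x, TE K2 A π τ m p = .inp x ∧ x.row = true) ∨
      TE K2 A π τ m p = .wrk .mr ∨ TE K2 A π τ m p = .wrk .mg := by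
  obtain ⟨q, h3, h4, h5⟩ := D.find m hm p h1 h2
  rcases Nat.eq_or_lt_of_le h4 with h6 | h6
  · right
    rw [← h6]
    by_cases h0 : q % (K2 + 1) = 0
    · right
      exact D.te_mg hm h3 h0
    · left
      exact D.te_mr hm h3 h0
  · left
    rw [D.te_row hm (by omega) h6 h5]
    exact D.fi q (by omega) p h6 h5

/-- the cells between two letters `g` -/
theorem Dat.cellg (D : Dat K1 K2 L N s t F G w τ A H π σ) {m p x : ℕ}
    (hm : m ≤ K1 * (K2 + 1)) (hx : x < K1) (h1 : π (x * (K2 + 1)) < p)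
    (h1' : p < π (x * (K2 + 1) + (K2 + 1))) (h2 : p < π m) :
    (∃ z, TE K2 A π τ m p = .inp z ∧ z.row = true) ∨ TE K2 A π τ m p = .wrk .mr := by
  have hb := bnd (K2 := K2) hx
  have hl := D.low (q := x * (K2 + 1)) (by omega)
  obtain ⟨q, h3, h4, h5⟩ := D.find m hm p (by omega) h2
  have hq1 : x * (K2 + 1) ≤ q := by
    by_contra hc
    have := D.mono' (q := q + 1) (q' := x * (K2 + 1)) (by omega) (by omega)
    omega
  have hq2 : q < x * (K2 + 1) + (K2 + 1) := by
    by_contra hc
    have := D.mono' (q := x * (K2 + 1) + (K2 + 1)) (q' := q) (by omega) (by omega)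
    omega
  rcases Nat.eq_or_lt_of_le h4 with h6 | h6
  · right
    rw [← h6]
    refine D.te_mr hm h3 ?_
    obtain ⟨z, rfl⟩ : ∃ z, q = x * (K2 + 1) + z := ⟨q - x * (K2 + 1), by omega⟩
    rw [md (by omega)]
    rintro rfl
    rw [Nat.add_zero] at h6
    omega
  · left
    rw [D.te_row hm (by omega) h6 h5]
    exact D.fi q (by omega) p h6 h5

theorem R.step (D : Dat K1 K2 L N s t F G w τ A H π σ) {m : ℕ} {q q' : GQ} {p p' : ℕ}
    {x : GA ⊕ GW} {d : Bool} (h : R N K1 K2 cv w τ A π m q p) (hm : m ≤ K1 * (K2 + 1))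
    (hp : 1 ≤ p) (hp1 : p < π m) (hx : Sym.ofW x = TE K2 A π τ m p)
    (hp2 : p' = if d = true then p + 1 else p - 1)
    (ht : gtr1 N K1 K2 q (TE K2 A π τ m p) = some (q', x, d) ∨
      gtr2 q (TE K2 A π τ m p) = some (q', x, d)) : R N K1 K2 cv w τ A π m q' p' := by
  obtain ⟨sn, hr, hs⟩ := h
  have hlen := D.len
  have hmk := D.mono' hm le_rfl
  refine ⟨insert p sn, hr.tail ⟨by simp only; omega, x, d, ht,
    fun h0 => by simp only at h0; omega, hp2, ?_, ?_, rfl⟩, ?_⟩
  · intro _
    simp only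
    rw [hx, Function.update_eq_self]
  · intro _
    exact ⟨rfl, fun _ _ _ => hx⟩
  · rintro i (hi | hi)
    · omega
    · exact hs i hi

theorem R.mark (D : Dat K1 K2 L N s t F G w τ A H π σ) {m : ℕ} {q q' : GQ} {y : GA}
    (h : R N K1 K2 cv w τ A π m q (π m)) (hm : m < K1 * (K2 + 1)) (hy : τ (π m) = .inp y)
    (ht : gtr1 N K1 K2 q (.inp y) = some (q', .inr (mkw K2 m), false)) :
    R N K1 K2 cv w τ A π (m + 1) q' (π m - 1) := by
  obtain ⟨sn, hr, hs⟩ := h
  have hlen := D.len
  have hlt := D.rl m hm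
  have hmk := D.mono' (q := m + 1) (q' := K1 * (K2 + 1)) (by omega) le_rfl
  have hlow := D.low hm.le
  have e : TE K2 A π τ m (π m) = .inp y := by rw [D.te_new hm.le, hy]
  have hns : π m ∉ sn := fun hc => by have := hs _ hc; omega
  refine ⟨insert (π m) sn, hr.tail ⟨by simp only; omega, .inr (mkw K2 m), false,
    Or.inl (by simp only; rw [e]; exact ht), fun h0 => by simp only at h0; omega,
    by simp, ?_, ?_, rfl⟩, ?_⟩
  · intro _
    simp only
    exact (D.te_update hm).symm
  · intro hc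
    exact absurd ⟨by simp only; omega, by simp only; omega, hns⟩ hc
  · rintro i (hi | hi)
    · omega
    · have := hs i hi; omega

/-- a step to the right on a letter -/
theorem R.right (D : Dat K1 K2 L N s t F G w τ A H π σ) {m : ℕ} {q q' : GQ} {p : ℕ} {y : GA}
    (h : R N K1 K2 cv w τ A π m q p) (hm : m ≤ K1 * (K2 + 1)) (hp : 1 ≤ p) (hp1 : p < π m)
    (hy : TE K2 A π τ m p = .inp y)
    (ht : gtr1 N K1 K2 q (.inp y) = some (q', .inl y, true) ∨
      gtr2 q (.inp y) = some (q', .inl y, true)) : R N K1 K2 cv w τ A π m q' (p + 1) := by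
  refine R.step D (x := .inl y) (d := true) h hm hp hp1 (by rw [hy]; rfl)
    (by rw [if_pos rfl]) ?_
  rw [hy]
  exact ht

/-- a step to the left on a letter -/
theorem R.left (D : Dat K1 K2 L N s t F G w τ A H π σ) {m : ℕ} {q q' : GQ} {p : ℕ} {y : GA}
    (h : R N K1 K2 cv w τ A π m q (p + 1)) (hm : m ≤ K1 * (K2 + 1)) (hp1 : p + 1 < π m)
    (hy : TE K2 A π τ m (p + 1) = .inp y)
    (ht : gtr1 N K1 K2 q (.inp y) = some (q', .inl y, false)) :
    R N K1 K2 cv w τ A π m q' p := by
  refine R.step D (x := .inl y) (d := false) h hm (by omega) hp1 (by rw [hy]; rfl)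
    (by simp) ?_
  rw [hy]
  exact Or.inl ht

/-- a step to the right on a mark -/
theorem R.wright (D : Dat K1 K2 L N s t F G w τ A H π σ) {m : ℕ} {q q' : GQ} {p : ℕ} {v : GW}
    (h : R N K1 K2 cv w τ A π m q p) (hm : m ≤ K1 * (K2 + 1)) (hp : 1 ≤ p) (hp1 : p < π m)
    (hy : TE K2 A π τ m p = .wrk v)
    (ht : gtr1 N K1 K2 q (.wrk v) = some (q', .inr v, true)) :
    R N K1 K2 cv w τ A π m q' (p + 1) := by
  refine R.step D (x := .inr v) (d := true) h hm hp hp1 (by rw [hy]; rfl)
    (by rw [if_pos rfl]) ?_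
  rw [hy]
  exact Or.inl ht

/-- a step to the left on a mark -/
theorem R.wleft (D : Dat K1 K2 L N s t F G w τ A H π σ) {m : ℕ} {q q' : GQ} {p : ℕ} {v : GW}
    (h : R N K1 K2 cv w τ A π m q (p + 1)) (hm : m ≤ K1 * (K2 + 1)) (hp1 : p + 1 < π m)
    (hy : TE K2 A π τ m (p + 1) = .wrk v)
    (ht : gtr1 N K1 K2 q (.wrk v) = some (q', .inr v, false)) :
    R N K1 K2 cv w τ A π m q' p := by
  refine R.step D (x := .inr v) (d := false) h hm (by omega) hp1 (by rw [hy]; rfl)
    (by simp) ?_
  rw [hy]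
  exact Or.inl ht

/-- walking to the left over a group, up to its letter `g` -/
theorem grp_left (D : Dat K1 K2 L N s t F G w τ A H π σ) {m x p : ℕ}
    (hm : m ≤ K1 * (K2 + 1)) (hx : x < K1) {S : GQ}
    (hS : ∀ z : GA, z.row = true → gtr1 N K1 K2 S (.inp z) = some (S, .inl z, false))
    (hS' : gtr1 N K1 K2 S (.wrk .mr) = some (S, .inr .mr, false))
    (hp : π (x * (K2 + 1)) ≤ p) (hp' : p < π (x * (K2 + 1) + (K2 + 1))) (hpm : p < π m)
    (h : R N K1 K2 cv w τ A π m S p) : R N K1 K2 cv w τ A π m S (π (x * (K2 + 1))) := by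
  have key : ∀ v, π (x * (K2 + 1)) + v ≤ p → R N K1 K2 cv w τ A π m S (p - v) := by
    intro v
    induction v with
    | zero => intro _; exact h
    | succ v ihv =>
      intro hv
      have h2 := ihv (by omega)
      have e : p - v = (p - (v + 1)) + 1 := by omega
      rw [e] at h2
      rcases D.cellg (p := p - (v + 1) + 1) hm hx (by omega) (by omega) (by omega) with
        ⟨z, hz, hrow⟩ | hz
      · exact h2.left D hm (by omega) hz (hS z hrow)
      · exact h2.wleft D hm (by omega) hz hS'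
  have h1 := key (p - π (x * (K2 + 1))) (by omega)
  have e : p - (p - π (x * (K2 + 1))) = π (x * (K2 + 1)) := by omega
  rwa [e] at h1

/-- walking to the right over a group, up to the next letter `g` -/
theorem grp_right (D : Dat K1 K2 L N s t F G w τ A H π σ) {m x p : ℕ}
    (hm : m ≤ K1 * (K2 + 1)) (hx : x < K1) (hxm : x * (K2 + 1) + (K2 + 1) < m) {S : GQ}
    (hS : ∀ z : GA, z.row = true → gtr1 N K1 K2 S (.inp z) = some (S, .inl z, true))
    (hS' : gtr1 N K1 K2 S (.wrk .mr) = some (S, .inr .mr, true))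
    (hp : π (x * (K2 + 1)) < p) (hp' : p ≤ π (x * (K2 + 1) + (K2 + 1)))
    (h : R N K1 K2 cv w τ A π m S p) :
    R N K1 K2 cv w τ A π m S (π (x * (K2 + 1) + (K2 + 1))) := by
  have hlow := D.low (q := x * (K2 + 1)) (by omega)
  have hup := D.mono m hm (x * (K2 + 1) + (K2 + 1)) hxm
  have key : ∀ v, p + v ≤ π (x * (K2 + 1) + (K2 + 1)) →
      R N K1 K2 cv w τ A π m S (p + v) := by
    intro v
    induction v with
    | zero => intro _; exact h
    | succ v ihv =>
      intro hv
      have h2 := ihv (by omega)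
      rcases D.cellg (p := p + v) hm hx (by omega) (by omega) (by omega) with
        ⟨z, hz, hrow⟩ | hz
      · exact h2.right D (p := p + v) hm (by omega) (by omega) hz (Or.inl (hS z hrow))
      · exact h2.wright D (p := p + v) hm (by omega) (by omega) hz hS'
  have h1 := key (π (x * (K2 + 1) + (K2 + 1)) - p) (by omega)
  have e : p + (π (x * (K2 + 1) + (K2 + 1)) - p) = π (x * (K2 + 1) + (K2 + 1)) := by omega
  rwa [e] at h1

/-- counting the marked groups on the way to `h` -/
theorem lg_walk (D : Dat K1 K2 L N s t F G w τ A H π σ) {x : ℕ} (hx : x < K1)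
    (h : R N K1 K2 cv w τ A π (x * (K2 + 1) + 1) (.lg 1) (π (x * (K2 + 1)) - 1)) :
    ∀ u j, u + j = x →
      R N K1 K2 cv w τ A π (x * (K2 + 1) + 1) (.lg (u + 1)) (π (j * (K2 + 1)) - 1) := by
  have hb := bnd (K2 := K2) hx
  have hk2 := D.k2
  intro u
  induction u with
  | zero =>
    intro j hj
    have : j = x := by omega
    subst this
    exact h
  | succ u ih =>
    intro j hj
    have h1 := ih (j + 1) (by omega)
    rw [Nat.succ_mul] at h1
    have hj1 : (j + 1) * (K2 + 1) ≤ x * (K2 + 1) := Nat.mul_le_mul_right _ (by omega)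
    rw [Nat.succ_mul] at hj1
    have hlow := D.low (q := j * (K2 + 1)) (by omega)
    have hlt := D.mono (j * (K2 + 1) + (K2 + 1)) (by omega) (j * (K2 + 1)) (by omega)
    have hup := D.mono' (q := j * (K2 + 1) + (K2 + 1)) (q' := x * (K2 + 1)) (by omega)
      (by omega)
    have hup' := D.rl (x * (K2 + 1)) (by omega)
    have h2 := grp_left D (m := x * (K2 + 1) + 1) (x := j) (by omega) (by omega)
      (S := .lg (u + 1)) (fun z hz => by simp only [gtr1]; rw [if_pos hz]) rfl (by omega)
      (by omega) (by omega) h1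
    have e : π (j * (K2 + 1)) = (π (j * (K2 + 1)) - 1) + 1 := by omega
    rw [e] at h2
    refine h2.wleft D (by omega) (by omega) (v := .mg) ?_ ?_
    · rw [← e]
      exact D.te_mg (by omega) (by omega) (by rw [Nat.mul_mod_left])
    · simp only [gtr1]
      rw [if_pos (by omega)]

/-- back to the last marked group -/
theorem rg_walk (D : Dat K1 K2 L N s t F G w τ A H π σ) {x : ℕ} (hx : x < K1)
    (h : R N K1 K2 cv w τ A π (x * (K2 + 1) + 1) (.rg (x + 1)) (π 0)) : ∀ j u, u + j = x →
      R N K1 K2 cv w τ A π (x * (K2 + 1) + 1) (.rg (u + 1)) (π (j * (K2 + 1))) := by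
  have hb := bnd (K2 := K2) hx
  have hk2 := D.k2
  intro j
  induction j with
  | zero =>
    intro u hu
    have : u = x := by omega
    subst this
    rw [Nat.zero_mul]
    exact h
  | succ j ih =>
    intro u hu
    have h1 := ih (u + 1) (by omega)
    have hj1 : (j + 1) * (K2 + 1) ≤ x * (K2 + 1) := Nat.mul_le_mul_right _ (by omega)
    rw [Nat.succ_mul] at hj1 ⊢
    have hlow := D.low (q := j * (K2 + 1)) (by omega)
    have hlt := D.mono (j * (K2 + 1) + (K2 + 1)) (by omega) (j * (K2 + 1)) (by omega)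
    have hup := D.mono (x * (K2 + 1) + 1) (by omega) (j * (K2 + 1)) (by omega)
    have h2 : R N K1 K2 cv w τ A π (x * (K2 + 1) + 1) (.rg (u + 1)) (π (j * (K2 + 1)) + 1) := by
      refine h1.wright D (by omega) (by omega) hup (v := .mg) ?_ rfl
      exact D.te_mg (by omega) (by omega) (by rw [Nat.mul_mod_left])
    refine grp_right D (x := j) (by omega) (by omega) (by omega) ?_ rfl (by omega) (by omega) h2
    intro z hz
    simp only [gtr1]
    rw [if_pos hz]

/-- from the new mark of a group to the mark of its first row -/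
theorem to_nr (D : Dat K1 K2 L N s t F G w τ A H π σ) {x : ℕ} (hx : x < K1)
    (h : R N K1 K2 cv w τ A π (x * (K2 + 1) + 1) (.lg 1) (π (x * (K2 + 1)) - 1)) :
    R N K1 K2 cv w τ A π (x * (K2 + 1) + 1 + 1) (.lc 1) (π (x * (K2 + 1) + 1) - 1) := by
  have hb := bnd (K2 := K2) hx
  have hk2 := D.k2
  have hA := D.hA
  have hAH := D.hAH
  have h0 := D.r0
  have hlow := D.low (q := x * (K2 + 1) + 1) (by omega)
  have h1 := lg_walk D hx h x 0 (by omega)
  rw [Nat.zero_mul] at h1
  have e : π 0 - 1 = H := by omega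
  rw [e] at h1
  have h2 : R N K1 K2 cv w τ A π (x * (K2 + 1) + 1) (.rg (x + 1)) (H + 1) := by
    refine h1.right D (by omega) (by omega) hlow (y := .h) ?_ (Or.inl ?_)
    · rw [D.te_low (by omega) (by omega) le_rfl]
      exact D.fH
    · simp [gtr1, GA.row]
  rw [← h0] at h2
  have h3 := rg_walk D hx h2 x 0 (by omega)
  have hl := D.rl (x * (K2 + 1)) (by omega)
  have hlow' := D.low (q := x * (K2 + 1)) (by omega)
  have h4 : R N K1 K2 cv w τ A π (x * (K2 + 1) + 1) .nr (π (x * (K2 + 1)) + 1) := by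
    refine h3.wright D (by omega) (by omega) hl (v := .mg) ?_ rfl
    exact D.te_mg (by omega) (by omega) (by rw [Nat.mul_mod_left])
  rw [← D.gg x hx] at h4
  refine h4.mark D (by omega) (y := .r) (D.fr x hx 0 (by omega)) ?_
  have e1 : mkw K2 (x * (K2 + 1) + 1) = .mr := by
    unfold mkw
    rw [if_neg]
    rw [md (by omega)]
    exact Nat.one_ne_zero
  rw [e1]
  rfl

/-- counting the marked rows of the group on the way to its letter `g` -/
theorem lc_walk (D : Dat K1 K2 L N s t F G w τ A H π σ) {x y : ℕ} (hx : x < K1) (hy : y < K2)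
    (h : R N K1 K2 cv w τ A π (x * (K2 + 1) + (y + 1) + 1) (.lc 1)
      (π (x * (K2 + 1) + (y + 1)) - 1)) : ∀ u j, u + j = y →
      R N K1 K2 cv w τ A π (x * (K2 + 1) + (y + 1) + 1) (.lc (u + 1))
        (π (x * (K2 + 1) + (j + 1)) - 1) := by
  have hb := bnd (K2 := K2) hx
  intro u
  induction u with
  | zero =>
    intro j hj
    have : j = y := by omega
    subst this
    exact h
  | succ u ih =>
    intro j hj
    have h1 := ih (j + 1) (by omega)
    have ej : x * (K2 + 1) + (j + 1 + 1) = x * (K2 + 1) + (j + 1) + 1 := by omega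
    rw [ej] at h1
    obtain ⟨a, ha⟩ : ∃ a, a = x * (K2 + 1) + (j + 1) := ⟨_, rfl⟩
    rw [← ha] at h1 ⊢
    have hjl := D.rl a (by omega)
    have hlow := D.low (q := a) (by omega)
    have hup := D.mono' (q := a + 1) (q' := x * (K2 + 1) + (y + 1)) (by omega) (by omega)
    have hup' := D.rl (x * (K2 + 1) + (y + 1)) (by omega)
    have key : ∀ v, π a + v + 1 ≤ π (a + 1) →
        R N K1 K2 cv w τ A π (x * (K2 + 1) + (y + 1) + 1) (.lc (u + 1))
          (π (a + 1) - 1 - v) := by
      intro v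
      induction v with
      | zero => intro _; exact h1
      | succ v ihv =>
        intro hv
        have h2 := ihv (by omega)
        have e : π (a + 1) - 1 - v = (π (a + 1) - 1 - (v + 1)) + 1 := by omega
        rw [e] at h2
        obtain ⟨z, hz, hrow⟩ := D.fi a (by omega) (π (a + 1) - 1 - (v + 1) + 1) (by omega)
          (by omega)
        refine h2.left D (by omega) (by omega) (y := z) ?_ ?_
        · rw [D.te_row (q := a) (by omega) (by omega) (by omega) (by omega)]
          exact hz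
        · simp only [gtr1]
          rw [if_pos hrow]
    have h3 := key (π (a + 1) - 1 - π a) (by omega)
    have e : π (a + 1) - 1 - (π (a + 1) - 1 - π a) = (π a - 1) + 1 := by omega
    rw [e] at h3
    refine h3.wleft D (by omega) (by omega) (v := .mr) ?_ ?_
    · have e2 : π a - 1 + 1 = π a := by omega
      rw [e2]
      exact D.te_mr (by omega) (by omega) (by rw [ha, md (by omega)]; omega)
    · simp only [gtr1]
      rw [if_pos (by omega)]

/-- walking to the right over a row -/
theorem row_walk (D : Dat K1 K2 L N s t F G w τ A H π σ) {m a p : ℕ}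
    (hm : m ≤ K1 * (K2 + 1)) (ha : a < m) {S : GQ}
    (hS : ∀ x : GA, x.row = true → gtr1 N K1 K2 S (.inp x) = some (S, .inl x, true))
    (hp : π a < p) (hp' : p ≤ π (a + 1)) (h : R N K1 K2 cv w τ A π m S p) :
    R N K1 K2 cv w τ A π m S (π (a + 1)) := by
  have hlow := D.low (q := a) (by omega)
  have hup := D.mono' (q := a + 1) (q' := m) (by omega) hm
  have key : ∀ v, p + v ≤ π (a + 1) → R N K1 K2 cv w τ A π m S (p + v) := by
    intro v
    induction v with
    | zero => intro _; exact h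
    | succ v ihv =>
      intro hv
      obtain ⟨x, hx, hrow⟩ := D.fi a (by omega) (p + v) (by omega) (by omega)
      refine (ihv (by omega)).right D (p := p + v) (by omega) (by omega) (by omega) (y := x) ?_
        (Or.inl (hS x hrow))
      rw [D.te_row (q := a) (by omega) (by omega) (by omega) (by omega)]
      exact hx
  have h1 := key (π (a + 1) - p) (by omega)
  have e : p + (π (a + 1) - p) = π (a + 1) := by omega
  rwa [e] at h1

/-- back to the last marked row -/
theorem rc_walk (D : Dat K1 K2 L N s t F G w τ A H π σ) {x y : ℕ} (hx : x < K1) (hy : y < K2)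
    (h : R N K1 K2 cv w τ A π (x * (K2 + 1) + (y + 1) + 1) (.rc (y + 1))
      (π (x * (K2 + 1) + 1))) : ∀ j u, u + j = y →
      R N K1 K2 cv w τ A π (x * (K2 + 1) + (y + 1) + 1) (.rc (u + 1))
        (π (x * (K2 + 1) + (j + 1))) := by
  have hb := bnd (K2 := K2) hx
  intro j
  induction j with
  | zero =>
    intro u hu
    have : u = y := by omega
    subst this
    exact h
  | succ j ih =>
    intro u hu
    have h1 := ih (u + 1) (by omega)
    have hlow := D.low (q := x * (K2 + 1) + (j + 1)) (by omega)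
    have hup := D.mono (x * (K2 + 1) + (y + 1) + 1) (by omega) (x * (K2 + 1) + (j + 1))
      (by omega)
    have hjl := D.rl (x * (K2 + 1) + (j + 1)) (by omega)
    have h2 : R N K1 K2 cv w τ A π (x * (K2 + 1) + (y + 1) + 1) (.rc (u + 1))
        (π (x * (K2 + 1) + (j + 1)) + 1) := by
      refine h1.wright D (by omega) (by omega) hup (v := .mr) ?_ rfl
      exact D.te_mr (by omega) (by omega) (by rw [md (by omega)]; omega)
    refine row_walk D (a := x * (K2 + 1) + (j + 1)) (by omega) (by omega) ?_ (by omega)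
      (by omega) h2
    intro z hz
    simp only [gtr1]
    rw [if_pos hz]

/-- from the new mark to the start of the row -/
theorem to_row (D : Dat K1 K2 L N s t F G w τ A H π σ) {x y : ℕ} (hx : x < K1) (hy : y < K2)
    (h : R N K1 K2 cv w τ A π (x * (K2 + 1) + (y + 1) + 1) (.lc 1)
      (π (x * (K2 + 1) + (y + 1)) - 1)) :
    R N K1 K2 cv w τ A π (x * (K2 + 1) + (y + 1) + 1) (.ra 0) (σ x y 0) := by
  have hb := bnd (K2 := K2) hx
  have hgg := D.gg x hx
  have hlow0 := D.low (q := x * (K2 + 1)) (by omega)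
  have hup0 := D.mono (x * (K2 + 1) + (y + 1) + 1) (by omega) (x * (K2 + 1)) (by omega)
  have h1 := lc_walk D hx hy h y 0 (by omega)
  rw [Nat.zero_add] at h1
  have e : π (x * (K2 + 1) + 1) - 1 = π (x * (K2 + 1)) := by omega
  rw [e] at h1
  have h2 : R N K1 K2 cv w τ A π (x * (K2 + 1) + (y + 1) + 1) (.rc (y + 1))
      (π (x * (K2 + 1)) + 1) := by
    refine h1.wright D (by omega) (by omega) hup0 (v := .mg) ?_ rfl
    exact D.te_mg (by omega) (by omega) (by rw [Nat.mul_mod_left])
  rw [← hgg] at h2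
  have h3 := rc_walk D hx hy h2 y 0 (by omega)
  have hl := D.rl (x * (K2 + 1) + (y + 1)) (by omega)
  have hlow' := D.low (q := x * (K2 + 1) + (y + 1)) (by omega)
  have h4 : R N K1 K2 cv w τ A π (x * (K2 + 1) + (y + 1) + 1) (.ra 0)
      (π (x * (K2 + 1) + (y + 1)) + 1) := by
    refine h3.wright D (by omega) (by omega) hl (v := .mr) ?_ rfl
    exact D.te_mr (by omega) (by omega) (by rw [md (by omega)]; omega)
  rwa [← D.g0 x hx y hy] at h4

/-- positions in a row -/
theorem Dat.gle (D : Dat K1 K2 L N s t F G w τ A H π σ) {x y : ℕ} (hx : x < K1) (hy : y < K2) :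
    ∀ l, l ≤ L →
    π (x * (K2 + 1) + (y + 1)) < σ x y l ∧ σ x y l ≤ π (x * (K2 + 1) + (y + 1) + 1) := by
  have up : ∀ u l, u + l = L → σ x y l ≤ π (x * (K2 + 1) + (y + 1) + 1) := by
    intro u
    induction u with
    | zero =>
      intro l hl
      have : l = L := by omega
      subst this
      rw [D.rs x hx y hy]
    | succ u ih =>
      intro l hl
      have h1 := ih (l + 1) (by omega)
      have h2 := D.gs x hx y hy l (by omega)
      omega
  intro l hl
  refine ⟨?_, up (L - l) l (by omega)⟩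
  induction l with
  | zero => rw [D.g0 x hx y hy]; omega
  | succ l ih =>
    have h1 := ih (by omega)
    have h2 := D.gs x hx y hy l (by omega)
    omega

/-- one segment -/
theorem seg (D : Dat K1 K2 L N s t F G w τ A H π σ) {x y l : ℕ} (hx : x < K1) (hy : y < K2) (hl : l < L)
    (h : R N K1 K2 cv w τ A π (x * (K2 + 1) + (y + 1) + 1) (.ra 1) (σ x y l + 1)) :
    R N K1 K2 cv w τ A π (x * (K2 + 1) + (y + 1) + 1) (.bk 0) (σ x y (l + 1)) := by
  have hA := D.hA
  have hAH := D.hAH
  obtain ⟨hs1, hs2⟩ := D.s1 x hx y hy l hl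
  obtain ⟨ht1, ht2⟩ := D.t1 x hx y hy l hl
  have hgs := D.gs x hx y hy l hl
  obtain ⟨hg1, -⟩ := D.gle hx hy l (by omega)
  obtain ⟨-, hg2⟩ := D.gle hx hy (l + 1) (by omega)
  have hb := bnd (K2 := K2) hx
  have hlow := D.low (q := x * (K2 + 1) + (y + 1)) (by omega)
  obtain ⟨e, e1, e2, e3, e4, e5, e6, e7⟩ := D.ent x hx y hy l hl
  have hmk : x * (K2 + 1) + (y + 1) + 1 ≤ K1 * (K2 + 1) := by omega
  have heq := D.eq x hx y hy l hl
  have hfa := D.fa x hx y hy l hl
  have hfd := D.fd x hx y hy l hl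
  have hfb := D.fb x hx y hy l hl
  have tr : ∀ p, π (x * (K2 + 1) + (y + 1)) < p → p < π (x * (K2 + 1) + (y + 1) + 1) → TE K2 A π τ (x * (K2 + 1) + (y + 1) + 1) p = τ p :=
    fun p a b => D.te_row hmk (by omega) a b
  have tl : ∀ p, A < p → p ≤ H → TE K2 A π τ (x * (K2 + 1) + (y + 1) + 1) p = τ p :=
    fun p a b => D.te_low hmk (by omega) b
  -- reading the first number
  have h1 : ∀ u, u + 1 ≤ s x y l → R N K1 K2 cv w τ A π (x * (K2 + 1) + (y + 1) + 1) (.ra (u + 1)) (σ x y l + (u + 1)) := by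
    intro u
    induction u with
    | zero => intro _; exact h
    | succ u ih =>
      intro hu
      refine (ih (by omega)).right D (p := σ x y l + (u + 1)) hmk (by omega) (by omega)
        (y := .a) ?_ (Or.inl ?_)
      · rw [tr _ (by omega) (by omega)]
        exact hfa (u + 1) (by omega)
      · simp only [gtr1]
        rw [if_pos (by omega)]
  have h2 := h1 (s x y l - 1) (by omega)
  have e0 : s x y l - 1 + 1 = s x y l := by omega
  rw [e0] at h2
  -- the bit
  have h3 : R N K1 K2 cv w τ A π (x * (K2 + 1) + (y + 1) + 1) (.gl (G x y l) (s x y l)) (σ x y l + s x y l - 1) := by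
    have e8 : σ x y l + s x y l = (σ x y l + s x y l - 1) + 1 := by omega
    rw [e8] at h2
    refine h2.left D hmk (by omega) (y := .d (G x y l)) ?_ rfl
    rw [← e8, tr _ (by omega) (by omega)]
    exact hfd
  -- to `h`
  have h4 : ∀ v, H + v ≤ σ x y l + s x y l - 1 →
      R N K1 K2 cv w τ A π (x * (K2 + 1) + (y + 1) + 1) (.gl (G x y l) (s x y l)) (σ x y l + s x y l - 1 - v) := by
    intro v
    induction v with
    | zero => intro _; exact h3
    | succ v ihv =>
      intro hv
      have h5 := ihv (by omega)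
      have e8 : σ x y l + s x y l - 1 - v = (σ x y l + s x y l - 1 - (v + 1)) + 1 := by omega
      rw [e8] at h5
      rcases D.cell (p := σ x y l + s x y l - 1 - (v + 1) + 1) hmk (by omega) (by omega) with
        ⟨z, hz, hrow⟩ | hz | hz
      · refine h5.left D hmk (by omega) hz ?_
        simp only [gtr1]
        rw [if_pos hrow]
      · exact h5.wleft D hmk (by omega) hz rfl
      · exact h5.wleft D hmk (by omega) hz rfl
  have h5 := h4 (σ x y l + s x y l - 1 - H) (by omega)
  have e8 : σ x y l + s x y l - 1 - (σ x y l + s x y l - 1 - H) = (H - 1) + 1 := by omega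
  rw [e8] at h5
  have h6 : R N K1 K2 cv w τ A π (x * (K2 + 1) + (y + 1) + 1) (.lf (G x y l) (s x y l)) (H - 1) := by
    refine h5.left D hmk (by omega) (y := .h) ?_ ?_
    · have e9 : H - 1 + 1 = H := by omega
      rw [e9, tl _ hAH le_rfl]
      exact D.fH
    · simp [gtr1, GA.row]
  -- to the marked block
  have h7 : ∀ v, A + v ≤ H - 1 →
      R N K1 K2 cv w τ A π (x * (K2 + 1) + (y + 1) + 1) (.lf (G x y l) (s x y l)) (H - 1 - v) := by
    intro v
    induction v with
    | zero => intro _; exact h6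
    | succ v ihv =>
      intro hv
      have h8 := ihv (by omega)
      have e9 : H - 1 - v = (H - 1 - (v + 1)) + 1 := by omega
      rw [e9] at h8
      obtain ⟨z, hz, hzb⟩ := D.fl (H - 1 - (v + 1) + 1) (by omega) (by omega)
      refine h8.left D hmk (by omega) (y := z) ?_ ?_
      · rw [tl _ (by omega) (by omega)]
        exact hz
      · simp only [gtr1]
        rw [if_pos hzb]
  have h8 := h7 (H - 1 - A) (by omega)
  have e9 : H - 1 - (H - 1 - A) = A := by omega
  rw [e9] at h8
  have h9 : R N K1 K2 cv w τ A π (x * (K2 + 1) + (y + 1) + 1) (.se (G x y l) (s x y l)) (A + 1) :=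
    h8.wright D hmk hA (by omega) (te_A _) rfl
  -- to the entry
  have h10 : ∀ v, A + 1 + v ≤ e →
      R N K1 K2 cv w τ A π (x * (K2 + 1) + (y + 1) + 1) (.se (G x y l) (s x y l)) (A + 1 + v) := by
    intro v
    induction v with
    | zero => intro _; exact h9
    | succ v ihv =>
      intro hv
      obtain ⟨z, hz, hzb⟩ := e3 (A + 1 + v) (by omega) (by omega)
      refine (ihv (by omega)).right D (p := A + 1 + v) hmk (by omega) (by omega) (y := z) ?_ ?_
      · rw [tl _ (by omega) (by omega)]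
        exact hz
      · rcases hzb with hzb | hzb
        · subst hzb
          exact Or.inr rfl
        · left
          cases z <;> first | rfl | exact absurd hzb (by simp [GA.row])
  have h11 := h10 (e - (A + 1)) (by omega)
  have e10 : A + 1 + (e - (A + 1)) = e := by omega
  rw [e10] at h11
  -- the first number of the entry
  have h12 : ∀ v u, u + v = s x y l →
      R N K1 K2 cv w τ A π (x * (K2 + 1) + (y + 1) + 1) (.ca (G x y l) u) (e + 1 + v) := by
    intro v
    induction v with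
    | zero =>
      intro u hu
      have : u = s x y l := by omega
      subst this
      refine h11.right D hmk (by omega) (by omega) (y := .c) ?_ (Or.inl rfl)
      rw [tl _ (by omega) (by omega)]
      exact e4
    | succ v ihv =>
      intro u hu
      refine (ihv (u + 1) (by omega)).right D (p := e + 1 + v) hmk (by omega) (by omega)
        (y := .a) ?_ (Or.inl rfl)
      rw [tl _ (by omega) (by omega)]
      exact e5 v (by omega)
  have h13 := h12 (s x y l) 0 (by omega)
  -- the second number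
  have h14 : ∀ v, v + 1 ≤ t x y l →
      R N K1 K2 cv w τ A π (x * (K2 + 1) + (y + 1) + 1) (.cb (G x y l) (v + 1)) (e + 1 + s x y l + (v + 1)) := by
    intro v
    induction v with
    | zero =>
      intro hv
      refine h13.right D (p := e + 1 + s x y l) hmk (by omega) (by omega) (y := .b) ?_
        (Or.inl rfl)
      rw [tl _ (by omega) (by omega)]
      exact e6 0 (by omega)
    | succ v ihv =>
      intro hv
      refine (ihv (by omega)).right D (p := e + 1 + s x y l + (v + 1)) hmk (by omega) (by omega)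
        (y := .b) ?_ (Or.inl ?_)
      · rw [tl _ (by omega) (by omega)]
        exact e6 (v + 1) (by omega)
      · simp only [gtr1]
        rw [if_pos (by omega)]
  have h15 := h14 (t x y l - 1) (by omega)
  have e11 : t x y l - 1 + 1 = t x y l := by omega
  rw [e11] at h15
  have h16 : R N K1 K2 cv w τ A π (x * (K2 + 1) + (y + 1) + 1) (.rt (t x y l)) (e + 1 + s x y l + t x y l + 1) := by
    refine h15.right D (p := e + 1 + s x y l + t x y l) hmk (by omega) (by omega)
      (y := .d (F x y l)) ?_ (Or.inl ?_)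
    · rw [tl _ (by omega) (by omega)]
      exact e7
    · simp only [gtr1]
      rw [if_pos heq]
  -- back to `h`
  have h17 : ∀ v, e + 1 + s x y l + t x y l + 1 + v ≤ H →
      R N K1 K2 cv w τ A π (x * (K2 + 1) + (y + 1) + 1) (.rt (t x y l)) (e + 1 + s x y l + t x y l + 1 + v) := by
    intro v
    induction v with
    | zero => intro _; exact h16
    | succ v ihv =>
      intro hv
      obtain ⟨z, hz, hzb⟩ := D.fl (e + 1 + s x y l + t x y l + 1 + v) (by omega) (by omega)
      refine (ihv (by omega)).right D (p := e + 1 + s x y l + t x y l + 1 + v) hmk (by omega)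
        (by omega) (y := z) ?_ (Or.inl ?_)
      · rw [tl _ (by omega) (by omega)]
        exact hz
      · simp only [gtr1]
        rw [if_pos hzb]
  have h18 := h17 (H - (e + 1 + s x y l + t x y l + 1)) (by omega)
  have e12 : e + 1 + s x y l + t x y l + 1 + (H - (e + 1 + s x y l + t x y l + 1)) = H := by omega
  rw [e12] at h18
  have h19 : R N K1 K2 cv w τ A π (x * (K2 + 1) + (y + 1) + 1) (.rh (t x y l)) (H + 1) := by
    refine h18.right D hmk (by omega) (by omega) (y := .h) ?_ (Or.inl ?_)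
    · rw [tl _ hAH le_rfl]
      exact D.fH
    · simp [gtr1, GA.blk]
  -- to the segment
  have h20 : ∀ v, H + 1 + v ≤ σ x y l + s x y l →
      R N K1 K2 cv w τ A π (x * (K2 + 1) + (y + 1) + 1) (.rh (t x y l)) (H + 1 + v) := by
    intro v
    induction v with
    | zero => intro _; exact h19
    | succ v ihv =>
      intro hv
      have h21 := ihv (by omega)
      rcases D.cell (p := H + 1 + v) hmk (by omega) (by omega) with
        ⟨z, hz, hrow⟩ | hz | hz
      · refine h21.right D (p := H + 1 + v) hmk (by omega) (by omega) hz (Or.inl ?_)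
        simp only [gtr1]
        rw [if_pos hrow]
      · exact h21.wright D (p := H + 1 + v) hmk (by omega) (by omega) hz rfl
      · exact h21.wright D (p := H + 1 + v) hmk (by omega) (by omega) hz rfl
  have h21 := h20 (σ x y l + s x y l - (H + 1)) (by omega)
  have e13 : H + 1 + (σ x y l + s x y l - (H + 1)) = σ x y l + s x y l := by omega
  rw [e13] at h21
  -- the second number of the segment
  have h22 : ∀ v u, u + v = t x y l →
      R N K1 K2 cv w τ A π (x * (K2 + 1) + (y + 1) + 1) (.bk u) (σ x y l + s x y l + 1 + v) := by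
    intro v
    induction v with
    | zero =>
      intro u hu
      have : u = t x y l := by omega
      subst this
      refine h21.right D (p := σ x y l + s x y l) hmk (by omega) (by omega) (y := .d (G x y l)) ?_
        (Or.inr rfl)
      rw [tr _ (by omega) (by omega)]
      exact hfd
    | succ v ihv =>
      intro u hu
      refine (ihv (u + 1) (by omega)).right D (p := σ x y l + s x y l + 1 + v) hmk (by omega)
        (by omega) (y := .b) ?_ (Or.inl rfl)
      rw [tr _ (by omega) (by omega)]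
      exact hfb v (by omega)
  have h23 := h22 (t x y l) 0 (by omega)
  have e14 : σ x y l + s x y l + 1 + t x y l = σ x y (l + 1) := by omega
  rwa [e14] at h23

/-- one row -/
theorem row (D : Dat K1 K2 L N s t F G w τ A H π σ) {x y : ℕ} (hx : x < K1) (hy : y < K2)
    (h : R N K1 K2 cv w τ A π (x * (K2 + 1) + (y + 1) + 1) (.lc 1) (π (x * (K2 + 1) + (y + 1)) - 1)) : ∀ l, l < L →
    R N K1 K2 cv w τ A π (x * (K2 + 1) + (y + 1) + 1) (.bk 0) (σ x y (l + 1)) := by
  have h0 := to_row D hx hy h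
  have hb := bnd (K2 := K2) hx
  have hlow := D.low (q := x * (K2 + 1) + (y + 1)) (by omega)
  have key : ∀ l, l < L → ∀ S : GQ, (S = .ra 0 ∨ S = .bk 0) →
      R N K1 K2 cv w τ A π (x * (K2 + 1) + (y + 1) + 1) S (σ x y l) → R N K1 K2 cv w τ A π (x * (K2 + 1) + (y + 1) + 1) (.bk 0) (σ x y (l + 1)) := by
    intro l hl S hS h1
    apply seg D hx hy hl
    obtain ⟨hs1, hs2⟩ := D.s1 x hx y hy l hl
    obtain ⟨hg1, -⟩ := D.gle hx hy l (by omega)
    obtain ⟨-, hg2⟩ := D.gle hx hy (l + 1) (by omega)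
    have hgs := D.gs x hx y hy l hl
    refine h1.right D (by omega) (by omega) (by omega) (y := .a) ?_ (Or.inl ?_)
    · rw [D.te_row (by omega) (by omega) hg1 (by omega)]
      exact D.fa x hx y hy l hl 0 (by omega)
    · rcases hS with rfl | rfl
      · simp only [gtr1]
        rw [if_pos (by omega)]
      · rfl
  intro l
  induction l with
  | zero => intro hl; exact key 0 hl _ (Or.inl rfl) h0
  | succ l ih => intro hl; exact key (l + 1) hl _ (Or.inr rfl) (ih (by omega))

theorem row' (D : Dat K1 K2 L N s t F G w τ A H π σ) {x y : ℕ} (hx : x < K1) (hy : y < K2)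
    (h : R N K1 K2 cv w τ A π (x * (K2 + 1) + (y + 1) + 1) (.lc 1) (π (x * (K2 + 1) + (y + 1)) - 1)) :
    R N K1 K2 cv w τ A π (x * (K2 + 1) + (y + 1) + 1) (.bk 0) (π (x * (K2 + 1) + (y + 1) + 1)) := by
  have hL := D.L1
  have h1 := row D hx hy h (L - 1) (by omega)
  have e : L - 1 + 1 = L := by omega
  rw [e, D.rs x hx y hy] at h1
  exact h1

/-- up to the separator of the block -/
theorem scan (D : Dat K1 K2 L N s t F G w τ A H π σ) : ∀ k, k < A → ∃ sn : Set ℕ,
    ReflTransGen ((gm N K1 K2).Step cv w.length) ((gm N K1 K2).init w) ⟨.scan, k + 1, τ, sn⟩ ∧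
      ∀ j ∈ sn, j < k + 1 := by
  have hAH := D.hAH
  have hlen := D.len
  have hlow := D.low (q := K1 * (K2 + 1)) le_rfl
  intro k
  induction k with
  | zero =>
    intro _
    refine ⟨∅, ?_, fun j hj => absurd hj (Set.notMem_empty j)⟩
    have e : (gm N K1 K2).init w = ⟨.scan, 0 + 1, τ, ∅⟩ := by
      unfold Mach.init
      rw [D.ini]
    rw [e]
  | succ k ih =>
    intro hk
    obtain ⟨sn, hr, hs⟩ := ih (by omega)
    obtain ⟨y, hy, hb⟩ := D.fl (k + 1) (by omega) (by omega)
    refine ⟨insert (k + 1) sn, hr.tail ⟨by simp only; omega, .inl y, true, Or.inl ?_,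
      fun _ => rfl, rfl, ?_, ?_, rfl⟩, ?_⟩
    · simp only
      rw [hy]
      simp only [gtr1]
      rw [if_pos hb]
    · intro _
      simp only
      have : (Sym.ofW (Sum.inl y) : Sym GA GW) = τ (k + 1) := hy.symm
      rw [this, Function.update_eq_self]
    · intro _
      exact ⟨rfl, fun _ _ _ => hy.symm⟩
    · rintro j (hj | hj)
      · omega
      · have := hs j hj
        omega

theorem mid0 (D : Dat K1 K2 L N s t F G w τ A H π σ) :
    R N K1 K2 cv w τ A π 0 .mid (A + 1) := by
  have hA := D.hA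
  have hAH := D.hAH
  have hlen := D.len
  have hlow := D.low (q := K1 * (K2 + 1)) le_rfl
  have h0 := D.r0
  obtain ⟨sn, hr, hs⟩ := scan (cv := cv) D (A - 1) (by omega)
  have e : A - 1 + 1 = A := by omega
  rw [e] at hr hs
  have hns : A ∉ sn := fun h => by have := hs A h; omega
  refine ⟨insert A sn, hr.tail ⟨by simp only; omega, .inr .ms, true, Or.inr ?_,
    fun _ => rfl, rfl, fun _ => ?_, ?_, rfl⟩, ?_⟩
  · simp only
    rw [D.fA]
    rfl
  · simp only
    funext i
    by_cases hi : i = A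
    · rw [hi, Function.update_self, te_A]
      rfl
    · rw [Function.update_of_ne hi]
      exact te_no hi fun q h1 => absurd h1 (Nat.not_lt_zero q)
  · intro h
    exact absurd ⟨hA, by simp only; omega, hns⟩ h
  · rintro i (hi | hi)
    · omega
    · have := hs i hi
      omega

theorem fr0 (D : Dat K1 K2 L N s t F G w τ A H π σ) :
    R N K1 K2 cv w τ A π 0 .fr (π 0) := by
  have hA := D.hA
  have hAH := D.hAH
  have h0 := D.r0
  have key : ∀ v, A + 1 + v ≤ H → R N K1 K2 cv w τ A π 0 .mid (A + 1 + v) := by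
    intro v
    induction v with
    | zero => intro _; exact mid0 D
    | succ v ihv =>
      intro hv
      obtain ⟨x, hx, hb⟩ := D.fl (A + 1 + v) (by omega) (by omega)
      refine (ihv (by omega)).right D (p := A + 1 + v) (Nat.zero_le _) (by omega) (by omega)
        (y := x) ?_ (Or.inl ?_)
      · rw [D.te_low (Nat.zero_le _) (by omega) (by omega)]
        exact hx
      · simp only [gtr1]
        rw [if_pos hb]
  have h1 := key (H - (A + 1)) (by omega)
  have e : A + 1 + (H - (A + 1)) = H := by omega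
  rw [e] at h1
  rw [h0]
  refine h1.right D (Nat.zero_le _) (by omega) (by omega) (y := .h) ?_ (Or.inl ?_)
  · rw [D.te_low (Nat.zero_le _) (by omega) le_rfl]
    exact D.fH
  · simp [gtr1, GA.blk]

/-- the state after the mark of a letter -/
def st (K2 m : ℕ) : GQ := if m % (K2 + 1) = 0 then .lg 1 else .lc 1

/-- from one mark to the next -/
theorem next (D : Dat K1 K2 L N s t F G w τ A H π σ) {i : ℕ} (hi : i + 1 < K1 * (K2 + 1))
    (h : R N K1 K2 cv w τ A π (i + 1) (st K2 i) (π i - 1)) :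
    R N K1 K2 cv w τ A π (i + 1 + 1) (st K2 (i + 1)) (π (i + 1) - 1) := by
  obtain ⟨x, hxe⟩ : ∃ x, x = i / (K2 + 1) := ⟨_, rfl⟩
  obtain ⟨z, hze⟩ : ∃ z, z = i % (K2 + 1) := ⟨_, rfl⟩
  have hk2 := D.k2
  have hx : x < K1 := by
    rw [hxe]
    exact Nat.div_lt_of_lt_mul (by rw [Nat.mul_comm]; omega)
  have hb := bnd (K2 := K2) hx
  have hz : z < K2 + 1 := by
    rw [hze]
    exact Nat.mod_lt _ (Nat.succ_pos _)
  have e : i = x * (K2 + 1) + z := by
    rw [hxe, hze, Nat.mul_comm]
    exact (Nat.div_add_mod i (K2 + 1)).symm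
  subst e
  rcases Nat.eq_zero_or_pos z with h0 | h0
  · -- a letter `g`
    subst h0
    have e1 : st K2 (x * (K2 + 1) + 0) = .lg 1 := by
      unfold st
      rw [if_pos (md (by omega))]
    have e2 : st K2 (x * (K2 + 1) + 0 + 1) = .lc 1 := by
      unfold st
      rw [if_neg]
      rw [Nat.add_zero, md (by omega)]
      exact Nat.one_ne_zero
    rw [e1] at h
    rw [e2]
    rw [Nat.add_zero] at h ⊢
    exact to_nr D hx h
  · obtain ⟨y, rfl⟩ : ∃ y, z = y + 1 := ⟨z - 1, by omega⟩
    have e1 : st K2 (x * (K2 + 1) + (y + 1)) = .lc 1 := by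
      unfold st
      rw [if_neg]
      rw [md hz]
      omega
    rw [e1] at h
    have h1 := row' D hx (by omega) h
    rcases Nat.lt_or_ge (y + 1) K2 with h2 | h2
    · -- the next letter is an `r`
      have e3 : (x * (K2 + 1) + (y + 1) + 1) % (K2 + 1) ≠ 0 := by
        rw [Nat.add_assoc, md (by omega)]
        omega
      have e2 : st K2 (x * (K2 + 1) + (y + 1) + 1) = .lc 1 := by
        unfold st
        rw [if_neg e3]
      rw [e2]
      refine h1.mark D (by omega) (y := .r) ?_ ?_
      · rw [Nat.add_assoc]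
        exact D.fr x hx (y + 1) (by omega)
      · unfold mkw
        rw [if_neg e3]
        rfl
    · have hy : y + 1 = K2 := by omega
      have e4 : x * (K2 + 1) + (y + 1) + 1 = (x + 1) * (K2 + 1) := by
        rw [Nat.succ_mul, hy]
        rfl
      have hx1 : x + 1 < K1 := by
        rw [e4] at hi
        exact Nat.lt_of_mul_lt_mul_right hi
      have e3 : (x * (K2 + 1) + (y + 1) + 1) % (K2 + 1) = 0 := by
        rw [e4, Nat.mul_mod_left]
      have e2 : st K2 (x * (K2 + 1) + (y + 1) + 1) = .lg 1 := by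
        unfold st
        rw [if_pos e3]
      rw [e2]
      refine h1.mark D (by omega) (y := .g) ?_ ?_
      · rw [e4]
        exact D.fg (x + 1) hx1
      · unfold mkw
        rw [if_pos e3]
        rfl

theorem rows (D : Dat K1 K2 L N s t F G w τ A H π σ) : ∀ i, i < K1 * (K2 + 1) →
    R N K1 K2 cv w τ A π (i + 1) (st K2 i) (π i - 1) := by
  intro i
  induction i with
  | zero =>
    intro hi
    have hk := D.k1
    have e1 : st K2 0 = .lg 1 := by
      unfold st
      rw [if_pos (Nat.zero_mod _)]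
    rw [e1]
    refine (fr0 D).mark D hi (y := .g) ?_ ?_
    · have h1 := D.fg 0 (by omega)
      rwa [Nat.zero_mul] at h1
    · unfold mkw
      rw [if_pos (Nat.zero_mod _)]
      rfl
  | succ i ih =>
    intro hi
    exact next D hi (ih (by omega))

theorem acc (D : Dat K1 K2 L N s t F G w τ A H π σ) : w ∈ (gm N K1 K2).lang cv := by
  have hk := D.k1
  have hk2 := D.k2
  have hlen := D.len
  have hx : K1 - 1 < K1 := by omega
  have hb := bnd (K2 := K2) hx
  have e4 : (K1 - 1) * (K2 + 1) + (K2 - 1 + 1) + 1 = K1 * (K2 + 1) := by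
    have h1 : K1 = K1 - 1 + 1 := by omega
    have h2 : K1 * (K2 + 1) = (K1 - 1) * (K2 + 1) + (K2 + 1) := by
      conv_lhs => rw [h1]
      rw [Nat.succ_mul]
    rw [h2]
    omega
  have h0 := rows (cv := cv) D ((K1 - 1) * (K2 + 1) + (K2 - 1 + 1)) (by omega)
  have e1 : st K2 ((K1 - 1) * (K2 + 1) + (K2 - 1 + 1)) = .lc 1 := by
    unfold st
    rw [if_neg]
    rw [md (by omega)]
    omega
  rw [e1] at h0
  have h1 := row' (cv := cv) D hx (y := K2 - 1) (by omega) h0
  rw [e4] at h1
  obtain ⟨sn, hr, hs⟩ := h1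
  rw [hlen] at hr
  have hT : TE K2 A π τ (K1 * (K2 + 1)) (w.length + 1) = .rend := by
    rw [← hlen, D.te_new le_rfl, hlen]
    exact D.fe
  refine ⟨⟨.fin, w.length + 1 + 1, TE K2 A π τ (K1 * (K2 + 1)), insert (w.length + 1) sn⟩,
    hr.tail ⟨le_rfl, .inl .s, true, Or.inl ?_, fun _ => rfl, rfl, ?_, ?_, rfl⟩, rfl, rfl⟩
  · simp only
    rw [hT]
    rfl
  · rintro ⟨-, h2, -⟩
    simp only at h2
    omega
  · intro _
    exact ⟨rfl, fun _ _ h3 => absurd hT h3⟩

/-! ### the layout of the input -/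

theorem split {α : Type} (f : ℕ → List α) {j : ℕ} : ∀ n, j < n →
    ∃ Q, (List.range n).flatMap f = (List.range j).flatMap f ++ (f j ++ Q) := by
  intro n
  induction n with
  | zero => intro h; omega
  | succ n ih =>
    intro h
    rw [List.range_succ, List.flatMap_append]
    rcases Nat.lt_or_ge j n with h1 | h1
    · obtain ⟨Q, hQ⟩ := ih h1
      rw [hQ]
      exact ⟨Q ++ [n].flatMap f, by simp only [List.append_assoc]⟩
    · have : j = n := by omega
      subst this
      exact ⟨[], by simp⟩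

theorem iT {N K1 K2 : ℕ} {w : List GA} {i : ℕ} {y : GA} (h : w[i]? = some y) :
    (gm N K1 K2).initTape w (i + 1) = .inp y := by
  simp [Mach.initTape, h]

theorem iTe {N K1 K2 : ℕ} {w : List GA} : (gm N K1 K2).initTape w (w.length + 1) = .rend := by
  simp [Mach.initTape]

theorem get_mid {N K1 K2 : ℕ} {w P Z Q : List GA} (e : w = P ++ (Z ++ Q)) {u p : ℕ} {y : GA}
    (h : Z[u]? = some y) (hp : p = P.length + u + 1) : (gm N K1 K2).initTape w p = .inp y := by
  subst hp
  apply iT
  have hu : u < Z.length := by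
    by_contra hc
    rw [List.getElem?_eq_none (by omega)] at h
    exact absurd h (by simp)
  rw [e, List.getElem?_append_right (by omega), Nat.add_sub_cancel_left,
    List.getElem?_append_left hu]
  exact h

theorem gS_length (i j : ℕ) (β : Bool) : (gS i j β).length = i + j + 1 := by
  simp [gS]
  omega

theorem gE_length (i j : ℕ) (β : Bool) : (gE i j β).length = i + j + 2 := by
  simp [gE]
  omega

theorem gS_get {i j : ℕ} {β : Bool} : (∀ u < i, (gS i j β)[u]? = some .a) ∧
    (gS i j β)[i]? = some (.d β) ∧ ∀ u < j, (gS i j β)[i + 1 + u]? = some .b := by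
  refine ⟨?_, ?_, ?_⟩
  · intro u hu
    unfold gS
    rw [List.getElem?_append_left (by simpa using hu), List.getElem?_replicate, if_pos hu]
  · unfold gS
    rw [List.getElem?_append_right (by simp), List.length_replicate, Nat.sub_self]
    rfl
  · intro u hu
    unfold gS
    rw [List.getElem?_append_right (by simp; omega), List.length_replicate]
    have e : i + 1 + u - i = u + 1 := by omega
    rw [e, List.getElem?_cons_succ, List.getElem?_replicate, if_pos hu]

theorem gE_get {i j : ℕ} {β : Bool} : (gE i j β)[0]? = some .c ∧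
    (∀ u < i, (gE i j β)[1 + u]? = some .a) ∧ (∀ u < j, (gE i j β)[1 + i + u]? = some .b) ∧
    (gE i j β)[1 + i + j]? = some (.d β) := by
  refine ⟨rfl, ?_, ?_, ?_⟩
  · intro u hu
    unfold gE
    rw [Nat.add_comm 1 u, List.getElem?_cons_succ,
      List.getElem?_append_left (by simpa using hu), List.getElem?_replicate, if_pos hu]
  · intro u hu
    unfold gE
    have e : 1 + i + u = (i + u) + 1 := by omega
    rw [e, List.getElem?_cons_succ, List.getElem?_append_right (by simp),
      List.length_replicate, Nat.add_sub_cancel_left,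
      List.getElem?_append_left (by simpa using hu), List.getElem?_replicate, if_pos hu]
  · unfold gE
    have e : 1 + i + j = (i + j) + 1 := by omega
    rw [e, List.getElem?_cons_succ, List.getElem?_append_right (by simp),
      List.length_replicate, Nat.add_sub_cancel_left, List.getElem?_append_right (by simp),
      List.length_replicate, Nat.sub_self]
    rfl

theorem gS_mem {i j : ℕ} {β : Bool} {x : GA} (h : x ∈ gS i j β) : x.row = true := by
  unfold gS at h
  rcases List.mem_append.1 h with h | h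
  · rw [(List.mem_replicate.1 h).2]; rfl
  · rcases List.mem_cons.1 h with h | h
    · rw [h]; rfl
    · rw [(List.mem_replicate.1 h).2]; rfl

theorem gE_mem {i j : ℕ} {β : Bool} {x : GA} (h : x ∈ gE i j β) :
    x = .c ∨ x.row = true := by
  unfold gE at h
  rcases List.mem_cons.1 h with h | h
  · exact Or.inl h
  · right
    rcases List.mem_append.1 h with h | h
    · rw [(List.mem_replicate.1 h).2]; rfl
    · rcases List.mem_append.1 h with h | h
      · rw [(List.mem_replicate.1 h).2]; rfl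
      · rw [List.mem_singleton.1 h]; rfl

/-- the body of a block -/
def bd (k' L : ℕ) (s t : ℕ → ℕ → ℕ) (F : ℕ → ℕ → Bool) : List GA :=
  (List.range k').flatMap fun q => (List.range L).flatMap fun l => gE (s q l) (t q l) (F q l)

theorem bd_mem {k' L : ℕ} {s t : ℕ → ℕ → ℕ} {F : ℕ → ℕ → Bool} {x : GA}
    (h : x ∈ bd k' L s t F) : x = .c ∨ x.row = true := by
  unfold bd at h
  obtain ⟨q, -, h⟩ := List.mem_flatMap.1 h
  obtain ⟨l, -, h⟩ := List.mem_flatMap.1 h
  exact gE_mem h

theorem bd_split {k' L : ℕ} {s t : ℕ → ℕ → ℕ} {F : ℕ → ℕ → Bool} {q l : ℕ} (hq : q < k')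
    (hl : l < L) : ∃ P Q, bd k' L s t F = P ++ (gE (s q l) (t q l) (F q l) ++ Q) := by
  obtain ⟨Q1, h1⟩ := split (fun q => (List.range L).flatMap fun l => gE (s q l) (t q l) (F q l))
    k' hq
  obtain ⟨Q2, h2⟩ := split (fun l => gE (s q l) (t q l) (F q l)) L hl
  unfold bd
  rw [h1, h2]
  exact ⟨((List.range q).flatMap fun q => (List.range L).flatMap fun l =>
      gE (s q l) (t q l) (F q l)) ++
    ((List.range l).flatMap fun l => gE (s q l) (t q l) (F q l)), Q2 ++ Q1,
    by simp only [List.append_assoc]⟩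

theorem gX_mem {k' L : ℕ} {s t : ℕ → ℕ → ℕ} {Fs : List (ℕ → ℕ → Bool)} {x : GA}
    (h : x ∈ gX k' L s t Fs) : x.blk = true := by
  unfold gX at h
  obtain ⟨F, -, h⟩ := List.mem_flatMap.1 h
  unfold gB at h
  rcases List.mem_cons.1 h with h | h
  · rw [h]; rfl
  · rcases bd_mem h with h | h
    · rw [h]; rfl
    · cases x <;> first | rfl | exact absurd h (by simp [GA.row])

/-- a segment -/
def sg (K2 : ℕ) (s t : ℕ → ℕ → ℕ) (G : ℕ → ℕ → Bool) (x y l : ℕ) : List GA :=
  gS (s (x * K2 + y) l) (t (x * K2 + y) l) (G (x * K2 + y) l)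

/-- a row -/
def rw' (K2 L : ℕ) (s t : ℕ → ℕ → ℕ) (G : ℕ → ℕ → Bool) (x y : ℕ) : List GA :=
  GA.r :: (List.range L).flatMap (sg K2 s t G x y)

/-- a group -/
def gp (K2 L : ℕ) (s t : ℕ → ℕ → ℕ) (G : ℕ → ℕ → Bool) (x : ℕ) : List GA :=
  GA.g :: (List.range K2).flatMap (rw' K2 L s t G x)

theorem gY_eq (K1 K2 L : ℕ) (s t : ℕ → ℕ → ℕ) (G : ℕ → ℕ → Bool) :
    gY K1 K2 L s t G = GA.h :: (List.range K1).flatMap (gp K2 L s t G) := rfl

theorem fm_succ {α : Type} (f : ℕ → List α) (n : ℕ) :
    ((List.range (n + 1)).flatMap f).length = ((List.range n).flatMap f).length + (f n).length := by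
  simp only [List.range_succ, List.flatMap_append, List.length_append, List.flatMap_cons,
    List.flatMap_nil, List.append_nil]

theorem idx {x y : ℕ} (hx : x < K1) (hy : y < K2) : x * K2 + y < K1 * K2 := by
  have h := Nat.mul_le_mul_right K2 (Nat.succ_le_of_lt hx)
  rw [Nat.succ_mul] at h
  omega

theorem exists_dat {s t : ℕ → ℕ → ℕ} (hP : PS (K1 * K2) L N s t) (hL : 1 ≤ L) (hK1 : 1 ≤ K1)
    (hK2 : 1 ≤ K2) (l1 l2 : List (ℕ → ℕ → Bool)) (F G : ℕ → ℕ → Bool)
    (h : ∀ q < K1 * K2, ∀ l < L, F q l = G q l) : ∃ τ A H π σ,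
    Dat K1 K2 L N (fun x y l => s (x * K2 + y) l) (fun x y l => t (x * K2 + y) l)
      (fun x y l => F (x * K2 + y) l) (fun x y l => G (x * K2 + y) l)
      (gX (K1 * K2) L s t (l1 ++ F :: l2) ++ gY K1 K2 L s t G) τ A H π σ := by
  obtain ⟨k', hk'⟩ : ∃ k', k' = K1 * K2 := ⟨_, rfl⟩
  rw [← hk'] at hP h ⊢
  set X1 := gX k' L s t l1 with hX1
  set X2 := gX k' L s t l2 with hX2
  set X := gX k' L s t (l1 ++ F :: l2) with hX
  have eXX : X = X1 ++ (gB k' L s t F ++ X2) := by
    rw [hX, hX1, hX2, gX, List.flatMap_append, List.flatMap_cons]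
    rfl
  have eBB : gB k' L s t F = GA.s :: bd k' L s t F := rfl
  have lX : X.length = X1.length + ((bd k' L s t F).length + 1 + X2.length) := by
    rw [eXX, eBB, List.length_append, List.length_append, List.length_cons]
  set w := X ++ gY K1 K2 L s t G with hw
  -- positions of the letters `g`
  obtain ⟨B, hB⟩ : ∃ B : ℕ → ℕ, ∀ x, B x = X.length + 2 +
      ((List.range x).flatMap (gp K2 L s t G)).length := ⟨_, fun _ => rfl⟩
  obtain ⟨C, hC⟩ : ∃ C : ℕ → ℕ → ℕ, ∀ x y, C x y =
      ((List.range y).flatMap (rw' K2 L s t G x)).length := ⟨_, fun _ _ => rfl⟩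
  have hB0 : B 0 = X.length + 2 := by rw [hB]; rfl
  have hB1 : ∀ x, B (x + 1) = B x + 1 + C x K2 := by
    intro x
    have e : (gp K2 L s t G x).length = C x K2 + 1 := by
      rw [hC]
      exact List.length_cons
    rw [hB, hB, fm_succ, e]
    omega
  have hC0 : ∀ x, C x 0 = 0 := fun x => by rw [hC]; rfl
  have hC1 : ∀ x y, C x (y + 1) = C x y + (rw' K2 L s t G x y).length := by
    intro x y
    rw [hC, hC, fm_succ]
  have rlen : ∀ x y, (rw' K2 L s t G x y).length =
      ((List.range L).flatMap (sg K2 s t G x y)).length + 1 := fun x y => List.length_cons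
  obtain ⟨π, hπ⟩ : ∃ π : ℕ → ℕ, ∀ i, π i = if i % (K2 + 1) = 0 then B (i / (K2 + 1)) else
      B (i / (K2 + 1)) + 1 + C (i / (K2 + 1)) (i % (K2 + 1) - 1) := ⟨_, fun _ => rfl⟩
  have πg : ∀ x, π (x * (K2 + 1)) = B x := by
    intro x
    rw [hπ, if_pos (Nat.mul_mod_left _ _), Nat.mul_div_cancel _ (Nat.succ_pos _)]
  have πr : ∀ x y, y ≤ K2 → π (x * (K2 + 1) + (y + 1)) = B x + 1 + C x y := by
    intro x y hy
    rcases Nat.eq_or_lt_of_le hy with h1 | h1
    · have e : x * (K2 + 1) + (y + 1) = (x + 1) * (K2 + 1) := by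
        rw [Nat.succ_mul, h1]
      rw [e, πg, hB1, h1]
    · have e1 : (x * (K2 + 1) + (y + 1)) % (K2 + 1) = y + 1 := md (by omega)
      have e2 : (x * (K2 + 1) + (y + 1)) / (K2 + 1) = x := by
        rw [Nat.mul_comm, Nat.mul_add_div (Nat.succ_pos _), Nat.div_eq_of_lt (by omega),
          Nat.add_zero]
      rw [hπ, e1, e2, if_neg (Nat.succ_ne_zero _), Nat.add_sub_cancel]
  obtain ⟨σ, hσ⟩ : ∃ σ : ℕ → ℕ → ℕ → ℕ, ∀ x y l, σ x y l = B x + 1 + C x y + 1 +
      ((List.range l).flatMap (sg K2 s t G x y)).length := ⟨_, fun _ _ _ => rfl⟩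
  have gs : ∀ x y l, σ x y (l + 1) = σ x y l + s (x * K2 + y) l + t (x * K2 + y) l + 1 := by
    intro x y l
    have e : (sg K2 s t G x y l).length = s (x * K2 + y) l + t (x * K2 + y) l + 1 :=
      gS_length _ _ _
    rw [hσ, hσ, fm_succ, e]
    omega
  -- decompositions of the input
  have wgrp : ∀ x < K1, ∃ Q, w = (X ++ (GA.h :: (List.range x).flatMap (gp K2 L s t G))) ++
      (gp K2 L s t G x ++ Q) := by
    intro x hx
    obtain ⟨Q, hQ⟩ := split (gp K2 L s t G) K1 hx
    refine ⟨Q, ?_⟩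
    rw [hw, gY_eq, hQ]
    simp only [List.append_assoc, List.cons_append]
  have wrow : ∀ x < K1, ∀ y < K2, ∃ Q, w = (X ++ (GA.h :: (List.range x).flatMap
      (gp K2 L s t G)) ++ (GA.g :: (List.range y).flatMap (rw' K2 L s t G x))) ++
      (rw' K2 L s t G x y ++ Q) := by
    intro x hx y hy
    obtain ⟨Q, hQ⟩ := wgrp x hx
    obtain ⟨Q', hQ'⟩ := split (rw' K2 L s t G x) K2 hy
    refine ⟨Q' ++ Q, ?_⟩
    rw [hQ, gp, hQ']
    simp only [List.append_assoc, List.cons_append]
  have wseg : ∀ x < K1, ∀ y < K2, ∀ l < L, ∃ Q, w = (X ++ (GA.h :: (List.range x).flatMap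
      (gp K2 L s t G)) ++ (GA.g :: (List.range y).flatMap (rw' K2 L s t G x)) ++
      (GA.r :: (List.range l).flatMap (sg K2 s t G x y))) ++ (sg K2 s t G x y l ++ Q) := by
    intro x hx y hy l hl
    obtain ⟨Q, hQ⟩ := wrow x hx y hy
    obtain ⟨Q', hQ'⟩ := split (sg K2 s t G x y) L hl
    refine ⟨Q' ++ Q, ?_⟩
    rw [hQ, rw', hQ']
    simp only [List.append_assoc, List.cons_append]
  have lgrp : ∀ x u, B x + u = (X ++ (GA.h :: (List.range x).flatMap
      (gp K2 L s t G))).length + u + 1 := by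
    intro x u
    rw [hB]
    simp only [List.length_append, List.length_cons]
    omega
  have lrow : ∀ x y u, B x + 1 + C x y + u = (X ++ (GA.h :: (List.range x).flatMap
      (gp K2 L s t G)) ++ (GA.g :: (List.range y).flatMap (rw' K2 L s t G x))).length +
        u + 1 := by
    intro x y u
    rw [hB, hC]
    simp only [List.length_append, List.length_cons]
    omega
  have lseg : ∀ x y l u, σ x y l + u = (X ++ (GA.h :: (List.range x).flatMap
      (gp K2 L s t G)) ++ (GA.g :: (List.range y).flatMap (rw' K2 L s t G x)) ++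
      (GA.r :: (List.range l).flatMap (sg K2 s t G x y))).length + u + 1 := by
    intro x y l u
    rw [hσ, hB, hC]
    simp only [List.length_append, List.length_cons]
    omega
  obtain ⟨B1, wX⟩ : ∃ B1, w = X ++ (GA.h :: B1) := ⟨_, by rw [hw, gY_eq]⟩
  have wB : w = X1 ++ ((GA.s :: bd k' L s t F) ++ (X2 ++ gY K1 K2 L s t G)) := by
    rw [hw, eXX, eBB]
    simp only [List.append_assoc, List.cons_append]
  -- the index of a letter
  have cases : ∀ i < K1 * (K2 + 1), ∃ x < K1, i = x * (K2 + 1) ∨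
      ∃ y < K2, i = x * (K2 + 1) + (y + 1) := by
    intro i hi
    have hx : i / (K2 + 1) < K1 := Nat.div_lt_of_lt_mul (by rw [Nat.mul_comm]; exact hi)
    have hz := Nat.mod_lt i (Nat.succ_pos K2)
    have e : i / (K2 + 1) * (K2 + 1) + i % (K2 + 1) = i := by
      rw [Nat.mul_comm]
      exact Nat.div_add_mod i (K2 + 1)
    refine ⟨i / (K2 + 1), hx, ?_⟩
    generalize i % (K2 + 1) = c at e hz ⊢
    generalize i / (K2 + 1) = b at e hx ⊢
    rcases Nat.eq_zero_or_pos c with h0 | h0
    · left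
      rw [h0, Nat.add_zero] at e
      exact e.symm
    · right
      refine ⟨c - 1, by omega, ?_⟩
      have e1 : c - 1 + 1 = c := by omega
      rw [e1]
      exact e.symm
  refine ⟨(gm N K1 K2).initTape w, X1.length + 1, X.length + 1, π, σ, ?_⟩
  refine ⟨hL, hK1, hK2, rfl, by omega, by omega, ?_, ?_, ?_, ?_, ?_, ?_, fun x _ y _ l _ =>
    gs x y l, ?_, ?_, ?_, ?_, ?_, ?_, ?_, ?_, ?_, ?_, ?_, iTe, ?_, ?_⟩
  · intro x hx y hy l hl
    exact hP.s1 _ (by rw [hk']; exact idx hx hy) l hl
  · intro x hx y hy l hl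
    exact hP.t1 _ (by rw [hk']; exact idx hx hy) l hl
  · have h1 := πg 0
    rw [Nat.zero_mul] at h1
    rw [h1, hB0]
  · intro i hi
    obtain ⟨x, hx, h1 | ⟨y, hy, h1⟩⟩ := cases i hi
    · rw [h1, πg]
      have h2 := πr x 0 (by omega)
      rw [Nat.zero_add, hC0] at h2
      rw [h2]
      omega
    · have h2 := πr x (y + 1) (by omega)
      have h3 := hC1 x y
      have h4 := rlen x y
      have e5 : x * (K2 + 1) + (y + 1) + 1 = x * (K2 + 1) + (y + 1 + 1) := by omega
      rw [h1, πr x y (by omega), e5, h2]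
      omega
  · intro x hx
    have h2 := πr x 0 (by omega)
    rw [Nat.zero_add, hC0] at h2
    rw [h2, πg]
  · intro x hx y hy
    rw [hσ, πr x y (by omega)]
    rfl
  · intro x hx y hy
    have h2 := πr x (y + 1) (by omega)
    have h3 := hC1 x y
    have h4 := rlen x y
    have e5 : x * (K2 + 1) + (y + 1) + 1 = x * (K2 + 1) + (y + 1 + 1) := by omega
    rw [e5, h2, hσ]
    omega
  · rw [πg, hB, hw, gY_eq, List.length_append, List.length_cons]
    omega
  · intro p h1 h2
    obtain ⟨i, rfl⟩ : ∃ i, p = i + 1 := ⟨p - 1, by omega⟩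
    have h3 : i < X.length := by omega
    refine ⟨X[i], iT ?_, gX_mem (List.getElem_mem h3)⟩
    rw [hw, List.getElem?_append_left h3, List.getElem?_eq_getElem h3]
  · exact get_mid wB (u := 0) rfl (by omega)
  · exact get_mid (Z := GA.h :: B1) (Q := []) (by rw [List.append_nil]; exact wX) (u := 0) rfl
      (by omega)
  · intro x hx
    obtain ⟨Q, hQ⟩ := wgrp x hx
    rw [πg]
    exact get_mid hQ (u := 0) rfl (lgrp x 0)
  · intro x hx y hy
    obtain ⟨Q, hQ⟩ := wrow x hx y hy
    rw [πr x y (by omega)]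
    exact get_mid hQ (u := 0) rfl (lrow x y 0)
  · intro i hi p h1 h2
    obtain ⟨x, hx, h3 | ⟨y, hy, h3⟩⟩ := cases i hi
    · exfalso
      rw [h3, πg] at h1
      rw [h3] at h2
      have h4 := πr x 0 (by omega)
      rw [Nat.zero_add, hC0] at h4
      rw [h4] at h2
      omega
    · obtain ⟨Q, hQ⟩ := wrow x hx y hy
      have h4 := πr x (y + 1) (by omega)
      rw [h3, πr x y (by omega)] at h1
      have e5 : x * (K2 + 1) + (y + 1) + 1 = x * (K2 + 1) + (y + 1 + 1) := by omega
      rw [h3, e5, h4] at h2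
      have h5 := hC1 x y
      have h6 := rlen x y
      obtain ⟨i, rfl⟩ : ∃ i, p = B x + 1 + C x y + (i + 1) :=
        ⟨p - (B x + 1 + C x y + 1), by omega⟩
      have h7 : i < ((List.range L).flatMap (sg K2 s t G x y)).length := by omega
      refine ⟨((List.range L).flatMap (sg K2 s t G x y))[i], get_mid hQ (u := i + 1) ?_
        (lrow x y (i + 1)), ?_⟩
      · rw [rw', List.getElem?_cons_succ, List.getElem?_eq_getElem h7]
      · obtain ⟨l, -, h8⟩ := List.mem_flatMap.1 (List.getElem_mem h7)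
        exact gS_mem h8
  · intro x hx y hy l hl u hu
    obtain ⟨Q, hQ⟩ := wseg x hx y hy l hl
    exact get_mid hQ (gS_get.1 u hu) (lseg x y l u)
  · intro x hx y hy l hl
    obtain ⟨Q, hQ⟩ := wseg x hx y hy l hl
    exact get_mid hQ gS_get.2.1 (lseg x y l _)
  · intro x hx y hy l hl u hu
    obtain ⟨Q, hQ⟩ := wseg x hx y hy l hl
    refine get_mid hQ (gS_get.2.2 u hu) ?_
    rw [← lseg x y l]
    omega
  · intro x hx y hy l hl
    have hq : x * K2 + y < k' := by rw [hk']; exact idx hx hy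
    obtain ⟨q, hqe⟩ : ∃ q, q = x * K2 + y := ⟨_, rfl⟩
    rw [← hqe] at hq
    simp only [← hqe]
    obtain ⟨P, Q, hPQ⟩ := bd_split (s := s) (t := t) (F := F) hq hl
    have lb : (bd k' L s t F).length = P.length + (s q l + t q l + 2 + Q.length) := by
      rw [hPQ]
      simp only [List.length_append, gE_length]
    have we : w = (X1 ++ (GA.s :: P)) ++ (gE (s q l) (t q l) (F q l) ++
        (Q ++ (X2 ++ gY K1 K2 L s t G))) := by
      rw [wB, hPQ]
      simp only [List.append_assoc, List.cons_append]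
    have lp : (X1 ++ (GA.s :: P)).length = X1.length + 1 + P.length := by
      simp only [List.length_append, List.length_cons]
      omega
    obtain ⟨g1, g2, g3, g4⟩ := gE_get (i := s q l) (j := t q l) (β := F q l)
    refine ⟨X1.length + 1 + P.length + 1, by omega, by omega, ?_, ?_, ?_, ?_, ?_⟩
    · intro p h1 h2
      obtain ⟨i, rfl⟩ : ∃ i, p = X1.length + (i + 1) + 1 := ⟨p - (X1.length + 2), by omega⟩
      have h3 : i < (bd k' L s t F).length := by omega
      refine ⟨(bd k' L s t F)[i], get_mid wB (u := i + 1) ?_ (by omega),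
        bd_mem (List.getElem_mem h3)⟩
      rw [List.getElem?_cons_succ, List.getElem?_eq_getElem h3]
    · exact get_mid we g1 (by omega)
    · intro u hu
      exact get_mid we (g2 u hu) (by omega)
    · intro u hu
      exact get_mid we (g3 u hu) (by omega)
    · exact get_mid we g4 (by omega)
  · intro x hx y hy l hl
    exact h _ (by rw [hk']; exact idx hx hy) l hl

end WitB2Aux

theorem gm_complete {K1 K2 L N : ℕ} {s t : ℕ → ℕ → ℕ} (hP : PS (K1 * K2) L N s t)
    (hL : 1 ≤ L) (hK1 : 1 ≤ K1) (hK2 : 1 ≤ K2) (cv : Bool) (Fs : List (ℕ → ℕ → Bool))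
    (G : ℕ → ℕ → Bool) {F : ℕ → ℕ → Bool} (hF : F ∈ Fs)
    (h : ∀ q < K1 * K2, ∀ l < L, F q l = G q l) :
    gX (K1 * K2) L s t Fs ++ gY K1 K2 L s t G ∈ (gm N K1 K2).lang cv := by
  obtain ⟨l1, l2, rfl⟩ := List.append_of_mem hF
  obtain ⟨τ, A, H, π, σ, D⟩ := WitB2Aux.exists_dat (N := N) hP hL hK1 hK2 l1 l2 F G h
  exact WitB2Aux.acc D

end Pool.Agent.P0036f5f
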