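import Pool.Agent.Lib.P0036f5f.WitB1
import Pool.Agent.Lib.P0036f5f.WitB2
import Pool.Agent.Lib.P0036f5e.WitC

/-!
# F5: lower bound for deterministic machines

As `edet_lower` in `P0036f5e/WitC.lean` (helper97), with `gm_sound`, `gm_complete` and `uq_ph`.
-/

set_option autoImplicit false

namespace Pool.Agent.P0036f5f

open Relation Pool.Agent.P0036f5v2 Pool.Agent.P0036f5w Pool.Agent.P0036f5g Pool.Agent.P0036f5k
  Pool.Agent.P0036f5e Classical

open Pool.Agent.P0036f5e.WitCAux in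
theorem gdet_lower {K1 K2 L N : ℕ} {s t : ℕ → ℕ → ℕ} (hP : PS (K1 * K2) L N s t)
    (hU : Uq (K1 * K2) L s t) (hL : 1 ≤ L) (hK1 : 1 ≤ K1) (hK2 : 1 ≤ K2) (D : LA GA)
    (hD : D.toMach.Det) (cv : Bool) (hLg : D.toMach.lang cv = (gm N K1 K2).lang cv) :
    2 ^ (K1 * K2 * L) ≤ D.toMach.size ^ 2 := by
  have fQ := D.finQ
  have fW := D.finW
  have hmem : ∀ (X : Finset (Fin (K1 * K2) × Fin L → Bool)) (g : Fin (K1 * K2) × Fin L → Bool),
      gX (K1 * K2) L s t (X.toList.map (mx (K1 * K2) L)) ++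
        gY K1 K2 L s t (mx (K1 * K2) L g) ∈ (gm N K1 K2).lang cv ↔ g ∈ X := by
    intro X g
    constructor
    · intro h
      obtain ⟨F, hF, hE⟩ := gm_sound hP hL hK2 cv _ _ h
      obtain ⟨f, hf, rfl⟩ := List.mem_map.1 hF
      have := mx_inj (K1 * K2) L _ _ (fun q hq => uq_ph hU hq (hE q hq))
      rw [← this]
      exact Finset.mem_toList.1 hf
    · intro h
      have hF : mx (K1 * K2) L g ∈ X.toList.map (mx (K1 * K2) L) :=
        List.mem_map.2 ⟨g, Finset.mem_toList.2 h, rfl⟩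
      exact gm_complete hP hL hK1 hK2 cv _ _ hF (fun _ _ _ _ => rfl)
  have h := D.toMach.card_le_of_residuals cv hD
    (ι := Finset (Fin (K1 * K2) × Fin L → Bool))
    (fun X => gX (K1 * K2) L s t (X.toList.map (mx (K1 * K2) L))) (by
      intro X Y hne
      obtain ⟨g, hg⟩ : ∃ g, ¬ (g ∈ X ↔ g ∈ Y) := by
        by_contra hcon
        push Not at hcon
        exact hne (Finset.ext hcon)
      refine ⟨gY K1 K2 L s t (mx (K1 * K2) L g), ?_⟩
      rw [hLg, hmem, hmem]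
      exact hg)
  have hcard : Nat.card (Finset (Fin (K1 * K2) × Fin L → Bool)) = 2 ^ 2 ^ (K1 * K2 * L) := by
    simp
  rw [hcard] at h
  set k := Nat.card D.Q with hk
  have hsz : k + 1 ≤ D.toMach.size := by
    unfold Mach.size
    omega
  have h1 : 2 ^ (k * k) * k + 1 ≤ 2 ^ (k * k + k + 1) := by
    have h2 : k ≤ 2 ^ k := Nat.lt_two_pow_self.le
    have h3 : 2 ^ (k * k + k + 1) = 2 ^ (k * k) * 2 ^ k + 2 ^ (k * k) * 2 ^ k := by ring
    have h4 : 2 ^ (k * k) * k ≤ 2 ^ (k * k) * 2 ^ k := Nat.mul_le_mul_left _ h2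
    have h5 : 1 ≤ 2 ^ (k * k) * 2 ^ k := Nat.mul_pos (by positivity) (by positivity)
    omega
  have h6 : 2 ^ (K1 * K2 * L) ≤ k * k + k + 1 :=
    (Nat.pow_le_pow_iff_right (by norm_num)).1 (h.trans h1)
  calc 2 ^ (K1 * K2 * L) ≤ k * k + k + 1 := h6
    _ ≤ (k + 1) ^ 2 := by nlinarith
    _ ≤ D.toMach.size ^ 2 := Nat.pow_le_pow_left hsz 2

end Pool.Agent.P0036f5f
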