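import Pool.Agent.Lib.P0036f5f.EDefs

/-!
# F2: the witness machine changes at most `K1 (K2 + 1) + 2` cells

As `P0036f5e/WitF.lean` (helper10).  In the third case (`g0 < H`, `g0` the cell marked with `ms`) the changed
cells `> H` are cells with the letter `g` marked with `mg` and cells with the letter `r` marked with `mr`,
all seen; no seen cell contains `inp g` or `inp r`.  Let the marked groups be `x_1 < … < x_m` (`mg`
cells); every `mr` cell is behind `x_1`; let `c_i` be the number of `mr` cells between `x_i` and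
`x_(i + 1)` (the last one: behind `x_m`).  Invariant: `c_i ≤ K2` for `i < m`, and
* in `lg j`, head at `p`: `c_m = 0`, `m ≤ K1 + 1`, `j` is the number of `mg` cells `> p`; so when `h` is
  reached `m = j`, and `j ≤ max K1 1 = K1`;
* in `lc j`, head at `p`: `m ≤ K1`, `c_m ≤ K2 + 1`, the cells between `x_m` and ... precisely `p ≥ x_m`, `j`
  is the number of `mr` cells `> p`; so when `x_m` is reached `c_m = j ≤ max K2 1 = K2`;
* in all other states: `m ≤ K1`, `c_m ≤ K2`; in `nr` and `rg j` moreover `c_m = 0`.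
The number of changed cells is `1 + m + ∑ c_i`: in `lg`: `≤ 1 + (K1 + 1) + K1 K2`; in `lc`:
`≤ 1 + K1 + K1 K2 + 1`; otherwise `≤ 1 + K1 + K1 K2`.  All are `≤ K1 (K2 + 1) + 2`.
Third part of `FewWrites`: a transition that changes the symbol it reads is used only for unmarked `s` in
`scan` and for unmarked `g`, `r` in `fr`, `nr`, `bk 0`; such a cell has not been seen.

In Lean: `M`, `C`, `T` (functions of `n`) are the number of `mg` in `(H, H + n]`, the number of `mr` behind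
the last `mg`, and the number of all marks; `T + (K2 + 1) ≤ M (K2 + 1) + 1 + C` is the bound for `T`.
-/

set_option autoImplicit false
set_option linter.constructorNameAsVariable false
set_option linter.unusedSimpArgs false

namespace Pool.Agent.P0036f5f

open Relation Pool.Agent.P0036f5v2 Pool.Agent.P0036f5w Pool.Agent.P0036f5g Pool.Agent.P0036f5k
  Classical

namespace WitFAux

/-- the initial tape -/
def itp (w : List GA) (j : ℕ) : Sym GA GW :=
  if j = 0 then Sym.lend else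
    match w[j - 1]? with
    | some a => Sym.inp a
    | none => Sym.rend

theorem init_eq (N K1 K2 : ℕ) (w : List GA) : (gm N K1 K2).initTape w = itp w := by
  funext j
  unfold Mach.initTape itp
  by_cases h0 : j = 0
  · rw [if_pos h0, if_pos h0]
  · rw [if_neg h0, if_neg h0]
    cases w[j - 1]? <;> rfl

theorem ini_inp {w : List GA} {j : ℕ} {a : GA} (h : itp w j = Sym.inp a) :
    1 ≤ j ∧ j ≤ w.length := by
  unfold itp at h
  by_cases h0 : j = 0
  · rw [if_pos h0] at h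
    exact absurd h (by simp)
  · rw [if_neg h0] at h
    by_cases h1 : j - 1 < w.length
    · omega
    · rw [List.getElem?_eq_none (by omega)] at h
      exact absurd h (by simp)

theorem ini_letter {w : List GA} {j : ℕ} (h1 : 1 ≤ j) (h2 : j ≤ w.length) :
    ∃ a, itp w j = Sym.inp a := by
  unfold itp
  rw [if_neg (by omega), List.getElem?_eq_getElem (by omega : j - 1 < w.length)]
  exact ⟨_, rfl⟩

theorem ini_wrk {w : List GA} {j : ℕ} {x : GW} : itp w j ≠ Sym.wrk x := by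
  unfold itp
  by_cases h0 : j = 0
  · rw [if_pos h0]; simp
  · rw [if_neg h0]
    by_cases h1 : j - 1 < w.length
    · rw [List.getElem?_eq_getElem h1]; simp
    · rw [List.getElem?_eq_none (by omega)]; simp

theorem ini_rend {w : List GA} {j : ℕ} (h : itp w j = Sym.rend) : w.length < j := by
  by_contra hc
  by_cases h0 : j = 0
  · unfold itp at h
    rw [if_pos h0] at h
    exact absurd h (by simp)
  · obtain ⟨a, ha⟩ := ini_letter (w := w) (j := j) (by omega) (by omega)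
    rw [ha] at h
    exact absurd h (by simp)

/-- number of `mg` in the cells `H + 1, …, H + n` -/
noncomputable def M (τ : ℕ → Sym GA GW) (H : ℕ) : ℕ → ℕ
  | 0 => 0
  | n + 1 => M τ H n + (if τ (H + n + 1) = Sym.wrk GW.mg then 1 else 0)

/-- number of `mr` in the cells `H + 1, …, H + n` behind the last `mg` -/
noncomputable def C (τ : ℕ → Sym GA GW) (H : ℕ) : ℕ → ℕ
  | 0 => 0
  | n + 1 => if τ (H + n + 1) = Sym.wrk GW.mg then 0
      else C τ H n + (if τ (H + n + 1) = Sym.wrk GW.mr then 1 else 0)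

/-- number of marks in the cells `H + 1, …, H + n` -/
noncomputable def T (τ : ℕ → Sym GA GW) (H : ℕ) : ℕ → ℕ
  | 0 => 0
  | n + 1 => T τ H n +
      (if τ (H + n + 1) = Sym.wrk GW.mg ∨ τ (H + n + 1) = Sym.wrk GW.mr then 1 else 0)

theorem cnt_mg {τ : ℕ → Sym GA GW} {H n : ℕ} (h : τ (H + n + 1) = Sym.wrk GW.mg) :
    M τ H (n + 1) = M τ H n + 1 ∧ C τ H (n + 1) = 0 ∧ T τ H (n + 1) = T τ H n + 1 := by
  refine ⟨?_, ?_, ?_⟩
  · rw [M, if_pos h]
  · rw [C, if_pos h]
  · rw [T, if_pos (Or.inl h)]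

theorem cnt_mr {τ : ℕ → Sym GA GW} {H n : ℕ} (h : τ (H + n + 1) = Sym.wrk GW.mr) :
    M τ H (n + 1) = M τ H n ∧ C τ H (n + 1) = C τ H n + 1 ∧ T τ H (n + 1) = T τ H n + 1 := by
  have h1 : τ (H + n + 1) ≠ Sym.wrk GW.mg := by
    rw [h]
    simp
  refine ⟨?_, ?_, ?_⟩
  · rw [M, if_neg h1, Nat.add_zero]
  · rw [C, if_neg h1, if_pos h]
  · rw [T, if_pos (Or.inr h)]

theorem cnt_ne {τ : ℕ → Sym GA GW} {H n : ℕ} (h1 : τ (H + n + 1) ≠ Sym.wrk GW.mg)
    (h2 : τ (H + n + 1) ≠ Sym.wrk GW.mr) :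
    M τ H (n + 1) = M τ H n ∧ C τ H (n + 1) = C τ H n ∧ T τ H (n + 1) = T τ H n := by
  refine ⟨?_, ?_, ?_⟩
  · rw [M, if_neg h1, Nat.add_zero]
  · rw [C, if_neg h1, if_neg h2, Nat.add_zero]
  · rw [T, if_neg (by rintro (h | h) <;> contradiction), Nat.add_zero]

theorem cnt_inp {τ : ℕ → Sym GA GW} {H n : ℕ} {a : GA} (h : τ (H + n + 1) = Sym.inp a) :
    M τ H (n + 1) = M τ H n ∧ C τ H (n + 1) = C τ H n ∧ T τ H (n + 1) = T τ H n := by
  refine cnt_ne ?_ ?_ <;> rw [h] <;> simp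

theorem cnt_congr {τ τ' : ℕ → Sym GA GW} {H : ℕ} (n : ℕ)
    (h : ∀ j, H < j → j ≤ H + n → τ' j = τ j) :
    M τ' H n = M τ H n ∧ C τ' H n = C τ H n ∧ T τ' H n = T τ H n := by
  induction n with
  | zero => exact ⟨rfl, rfl, rfl⟩
  | succ n ih =>
    obtain ⟨e1, e2, e3⟩ := ih fun j h1 h2 => h j h1 (by omega)
    have e := h (H + n + 1) (by omega) (by omega)
    refine ⟨?_, ?_, ?_⟩
    · rw [M, M, e1, e]
    · rw [C, C, e2, e]
    · rw [T, T, e3, e]

/-- the counters with a mark written in the next cell -/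
theorem cnt_upd (τ : ℕ → Sym GA GW) (H n : ℕ) (y : GW) :
    M (Function.update τ (H + n + 1) (Sym.wrk y)) H n = M τ H n ∧
      C (Function.update τ (H + n + 1) (Sym.wrk y)) H n = C τ H n ∧
      T (Function.update τ (H + n + 1) (Sym.wrk y)) H n = T τ H n :=
  cnt_congr n fun j _ h2 => Function.update_of_ne (by omega) _ _

/-- the counters in the ordinary states -/
def W (K1 K2 : ℕ) (τ : ℕ → Sym GA GW) (H n : ℕ) : Prop :=
  1 ≤ M τ H n ∧ M τ H n ≤ K1 ∧ C τ H n ≤ K2 ∧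
    T τ H n + (K2 + 1) ≤ M τ H n * (K2 + 1) + 1 + C τ H n

theorem W.next {K1 K2 : ℕ} {τ : ℕ → Sym GA GW} {H n : ℕ} (h : W K1 K2 τ H n) {a : GA}
    (ha : τ (H + n + 1) = Sym.inp a) : W K1 K2 τ H (n + 1) := by
  obtain ⟨e1, e2, e3⟩ := cnt_inp ha
  unfold W
  rw [e1, e2, e3]
  exact h

theorem W.bound {K1 K2 : ℕ} {τ : ℕ → Sym GA GW} {H n : ℕ} (h : W K1 K2 τ H n) :
    T τ H n ≤ K1 * (K2 + 1) + 1 := by
  obtain ⟨_, h2, h3, h4⟩ := h
  have h5 : M τ H n * (K2 + 1) ≤ K1 * (K2 + 1) := Nat.mul_le_mul_right _ h2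
  omega

/-- the form of the tape after the separator `h` was seen -/
structure Bas (w : List GA) (τ : ℕ → Sym GA GW) (S : Set ℕ) (g H n : ℕ) : Prop where
  gH : g < H
  ms : τ g = Sym.wrk GW.ms
  blk : ∀ j, g < j → j < H → ∃ x : GA, τ j = Sym.inp x ∧ x.blk = true
  hh : τ H = Sym.inp GA.h
  mrk : ∀ j, H < j → j ≤ H + n →
    (τ j = Sym.wrk GW.mg ∨ τ j = Sym.wrk GW.mr) ∨ ∃ x : GA, τ j = Sym.inp x ∧ x.row = true
  out : ∀ j, j ≠ g → τ j = itp w j ∨
    (H < j ∧ j ≤ H + n ∧ (τ j = Sym.wrk GW.mg ∨ τ j = Sym.wrk GW.mr))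
  sn : ∀ j ∈ S, j ≤ H + n ∨ w.length < j

theorem Bas.next {w : List GA} {τ : ℕ → Sym GA GW} {S : Set ℕ} {g H n p : ℕ}
    (hB : Bas w τ S g H n) (hp : p ≤ H + n ∨ w.length < p) :
    Bas w τ (insert p S) g H n := by
  refine ⟨hB.gH, hB.ms, hB.blk, hB.hh, hB.mrk, hB.out, fun j hj => ?_⟩
  rcases hj with rfl | hj
  · exact hp
  · exact hB.sn j hj

theorem Bas.row {w : List GA} {τ : ℕ → Sym GA GW} {S : Set ℕ} {g H n : ℕ}
    (hB : Bas w τ S g H n) (hx : ∃ x : GA, τ (H + n + 1) = Sym.inp x ∧ x.row = true) :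
    Bas w τ (insert (H + n + 1) S) g H (n + 1) := by
  refine ⟨hB.gH, hB.ms, hB.blk, hB.hh, fun j h1 h2 => ?_, fun j h1 => ?_, fun j hj => ?_⟩
  · by_cases hj : j = H + n + 1
    · subst hj
      exact Or.inr hx
    · exact hB.mrk j h1 (by omega)
  · rcases hB.out j h1 with h | ⟨h2, h3, h4⟩
    · exact Or.inl h
    · exact Or.inr ⟨h2, by omega, h4⟩
  · rcases hj with rfl | hj
    · left; omega
    · rcases hB.sn j hj with h | h
      · left; omega
      · right; exact h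

theorem Bas.mark {w : List GA} {τ : ℕ → Sym GA GW} {S : Set ℕ} {g H n : ℕ}
    (hB : Bas w τ S g H n) {y : GW} (hy : y = GW.mg ∨ y = GW.mr) :
    Bas w (Function.update τ (H + n + 1) (Sym.wrk y)) (insert (H + n + 1) S) g H
      (n + 1) := by
  have hgH := hB.gH
  have hy' : Function.update τ (H + n + 1) (Sym.wrk y) (H + n + 1) = Sym.wrk GW.mg ∨
      Function.update τ (H + n + 1) (Sym.wrk y) (H + n + 1) = Sym.wrk GW.mr := by
    rw [Function.update_self]
    rcases hy with rfl | rfl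
    · exact Or.inl rfl
    · exact Or.inr rfl
  refine ⟨hB.gH, ?_, ?_, ?_, ?_, ?_, ?_⟩
  · rw [Function.update_of_ne (by omega)]
    exact hB.ms
  · intro j h1 h2
    rw [Function.update_of_ne (by omega)]
    exact hB.blk j h1 h2
  · rw [Function.update_of_ne (by omega)]
    exact hB.hh
  · intro j h1 h2
    by_cases hj : j = H + n + 1
    · subst hj
      exact Or.inl hy'
    · rw [Function.update_of_ne hj]
      exact hB.mrk j h1 (by omega)
  · intro j h1
    by_cases hj : j = H + n + 1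
    · subst hj
      exact Or.inr ⟨by omega, by omega, hy'⟩
    · rw [Function.update_of_ne hj]
      rcases hB.out j h1 with h | ⟨h2, h3, h4⟩
      · exact Or.inl h
      · exact Or.inr ⟨h2, by omega, h4⟩
  · intro j hj
    rcases hj with rfl | hj
    · left; omega
    · rcases hB.sn j hj with h | h
      · left; omega
      · right; exact h

/-- a mark `mg` or `mr` is in `(H, H + n]` -/
theorem Bas.le_of_m {w : List GA} {τ : ℕ → Sym GA GW} {S : Set ℕ} {g H n p : ℕ}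
    (hB : Bas w τ S g H n) {y : GW} (h : τ p = Sym.wrk y) (hy : y ≠ GW.ms) :
    H < p ∧ p ≤ H + n := by
  have hg : p ≠ g := by
    rintro rfl
    rw [hB.ms] at h
    simp only [Sym.wrk.injEq] at h
    exact hy h.symm
  rcases hB.out p hg with h1 | ⟨h1, h2, _⟩
  · rw [h1] at h
    exact absurd h ini_wrk
  · exact ⟨h1, h2⟩

theorem Bas.rend {w : List GA} {τ : ℕ → Sym GA GW} {S : Set ℕ} {g H n p : ℕ}
    (hB : Bas w τ S g H n) (h : τ p = Sym.rend) : w.length < p := by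
  have hg : p ≠ g := by
    rintro rfl
    rw [hB.ms] at h
    exact absurd h (by simp)
  rcases hB.out p hg with h1 | ⟨_, _, h1 | h1⟩
  · rw [h1] at h
    exact ini_rend h
  · rw [h1] at h
    exact absurd h (by simp)
  · rw [h1] at h
    exact absurd h (by simp)

/-- an unmarked letter `g` or `r` is not yet seen -/
theorem Bas.fresh {w : List GA} {τ : ℕ → Sym GA GW} {S : Set ℕ} {g H n p : ℕ}
    (hB : Bas w τ S g H n) {a : GA} (h : τ p = Sym.inp a) (ha : a.row = false) (h1 : H < p)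
    (h2 : p ≤ H + n + 1) :
    p = H + n + 1 ∧ 1 ≤ p ∧ p ≤ w.length ∧ p ∉ S := by
  have hgH := hB.gH
  have h3 : p = H + n + 1 := by
    by_contra hc
    rcases hB.mrk p h1 (by omega) with (hx | hx) | ⟨x, hx, hx'⟩
    · rw [hx] at h
      exact absurd h (by simp)
    · rw [hx] at h
      exact absurd h (by simp)
    · rw [hx] at h
      simp only [Sym.inp.injEq] at h
      rw [h, ha] at hx'
      exact absurd hx' (by simp)
  have h4 : itp w p = Sym.inp a := by
    rcases hB.out p (by omega) with h4 | ⟨_, _, h4 | h4⟩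
    · rw [← h4]
      exact h
    · rw [h4] at h
      exact absurd h (by simp)
    · rw [h4] at h
      exact absurd h (by simp)
  obtain ⟨h5, h6⟩ := ini_inp h4
  refine ⟨h3, h5, h6, fun hs => ?_⟩
  rcases hB.sn p hs with h7 | h7 <;> omega

/-- the letter `h` in `[H, H + n]` is the separator -/
theorem Bas.eqH {w : List GA} {τ : ℕ → Sym GA GW} {S : Set ℕ} {g H n p : ℕ}
    (hB : Bas w τ S g H n) (h : τ p = Sym.inp GA.h) (h1 : H ≤ p) (h2 : p ≤ H + n) :
    p = H := by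
  by_contra hc
  rcases hB.mrk p (by omega) h2 with (hx | hx) | ⟨x, hx, hx'⟩
  · rw [hx] at h
    exact absurd h (by simp)
  · rw [hx] at h
    exact absurd h (by simp)
  · rw [hx] at h
    simp only [Sym.inp.injEq] at h
    rw [h] at hx'
    exact absurd hx' (by simp [GA.row])

/-- what is true in the states after the separator `h` was seen -/
def St2 (K1 K2 : ℕ) (τ : ℕ → Sym GA GW) (g H n p : ℕ) : GQ → Prop
  | .scan => False
  | .mid => False
  | .fr => n = 0 ∧ p = H + 1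
  | .fin => T τ H n ≤ K1 * (K2 + 1) + 1
  | .nr => H < p ∧ p ≤ H + n + 1 ∧ W K1 K2 τ H n
  | .lg j => (1 ≤ M τ H n ∧ M τ H n ≤ K1 + 1 ∧ C τ H n = 0 ∧
      T τ H n + (K2 + 1) ≤ M τ H n * (K2 + 1) + 1) ∧
      j ≤ K1 ∧ ∃ k, p = H + k ∧ k ≤ n ∧ j + M τ H k = M τ H n
  | .rg _ => H < p ∧ p ≤ H + n + 1 ∧ W K1 K2 τ H n
  | .lc j => (1 ≤ M τ H n ∧ M τ H n ≤ K1 ∧ C τ H n ≤ K2 + 1 ∧
      T τ H n + (K2 + 1) ≤ M τ H n * (K2 + 1) + 1 + C τ H n) ∧
      j ≤ K2 ∧ ∃ k, p = H + k ∧ k ≤ n ∧ M τ H k = M τ H n ∧ j + C τ H k = C τ H n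
  | .rc _ => H < p ∧ p ≤ H + n + 1 ∧ W K1 K2 τ H n
  | .ra _ => H < p ∧ p ≤ H + n + 1 ∧ W K1 K2 τ H n
  | .gl _ _ => H ≤ p ∧ p ≤ H + n ∧ W K1 K2 τ H n
  | .lf _ _ => g ≤ p ∧ p < H ∧ W K1 K2 τ H n
  | .se _ _ => g < p ∧ p ≤ H ∧ W K1 K2 τ H n
  | .ca _ _ => g < p ∧ p ≤ H ∧ W K1 K2 τ H n
  | .cb _ _ => g < p ∧ p ≤ H ∧ W K1 K2 τ H n
  | .rt _ => g < p ∧ p ≤ H ∧ W K1 K2 τ H n
  | .rh _ => H < p ∧ p ≤ H + n + 1 ∧ W K1 K2 τ H n
  | .bk _ => H < p ∧ p ≤ H + n + 1 ∧ W K1 K2 τ H n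

theorem St2.bound {K1 K2 : ℕ} {τ : ℕ → Sym GA GW} {g H n p : ℕ} {q : GQ}
    (h : St2 K1 K2 τ g H n p q) : T τ H n ≤ K1 * (K2 + 1) + 1 := by
  rcases q with _ | _ | _ | _ | _ | j | j | j | j | _ | _ | _ | _ | _ | _ | _ | _ | _
  · exact absurd h id
  · exact absurd h id
  · obtain ⟨rfl, _⟩ := h
    exact Nat.zero_le _
  · exact h
  · exact h.2.2.bound
  · obtain ⟨⟨_, h2, _, h4⟩, _⟩ := h
    have h5 : M τ H n * (K2 + 1) ≤ (K1 + 1) * (K2 + 1) := Nat.mul_le_mul_right _ h2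
    rw [Nat.add_mul, Nat.one_mul] at h5
    omega
  · exact h.2.2.bound
  · obtain ⟨⟨_, h2, h3, h4⟩, _⟩ := h
    have h5 : M τ H n * (K2 + 1) ≤ K1 * (K2 + 1) := Nat.mul_le_mul_right _ h2
    omega
  all_goals
    exact h.2.2.bound

/-- the head after a move -/
abbrev mv (d : Bool) (p : ℕ) : ℕ := if d = true then p + 1 else p - 1

/-- a move that does not change the tape -/
def QC (K1 K2 : ℕ) (w : List GA) (τ : ℕ → Sym GA GW) (g H n p : ℕ) (q' : GQ) (x : GA ⊕ GW)
    (d : Bool) : Prop :=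
  (Sym.ofW x = τ p ∨ w.length < p) ∧ St2 K1 K2 τ g H n (mv d p) q' ∧
    (p ≤ H + n ∨ w.length < p)

/-- a move that does not change the tape, in the next cell -/
def NC (K1 K2 : ℕ) (τ : ℕ → Sym GA GW) (g H n p : ℕ) (q' : GQ) (x : GA ⊕ GW)
    (d : Bool) : Prop :=
  p = H + n + 1 ∧ Sym.ofW x = τ p ∧ (∃ y : GA, τ p = Sym.inp y ∧ y.row = true) ∧
    St2 K1 K2 τ g H (n + 1) (mv d p) q'

/-- a move that marks the next cell -/
def MC (K1 K2 : ℕ) (w : List GA) (τ : ℕ → Sym GA GW) (S : Set ℕ) (g H n p : ℕ) (q' : GQ)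
    (x : GA ⊕ GW) (d : Bool) : Prop :=
  ∃ y : GW, (y = GW.mg ∨ y = GW.mr) ∧
    p = H + n + 1 ∧ (1 ≤ p ∧ p ≤ w.length ∧ p ∉ S) ∧ x = Sum.inr y ∧
    St2 K1 K2 (Function.update τ (H + n + 1) (Sym.wrk y)) g H (n + 1) (mv d p) q'

/-- the three kinds of moves -/
def AC (K1 K2 : ℕ) (w : List GA) (τ : ℕ → Sym GA GW) (S : Set ℕ) (g H n p : ℕ) (q' : GQ)
    (x : GA ⊕ GW) (d : Bool) : Prop :=
  QC K1 K2 w τ g H n p q' x d ∨ NC K1 K2 τ g H n p q' x d ∨ MC K1 K2 w τ S g H n p q' x d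

section

variable {N K1 K2 : ℕ} {w : List GA} {τ : ℕ → Sym GA GW} {S : Set ℕ} {g H n p : ℕ}
  {q' : GQ} {x : GA ⊕ GW} {d : Bool}

theorem Bas.neH (hB : Bas w τ S g H n) (h : τ p ≠ Sym.inp GA.h) : p ≠ H := by
  rintro rfl
  exact h hB.hh

/-- a row letter in `(H, H + n + 1]` -/
theorem row_move {a : GA} (_ : H < p) (h2 : p ≤ H + n + 1) (hR : W K1 K2 τ H n)
    (hs : τ p = Sym.inp a) (ha : a.row = true) (hx : Sym.ofW x = τ p)
    (hq : ∀ n', p ≤ H + n' → (p ≤ H + n + 1) → W K1 K2 τ H n' →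
      St2 K1 K2 τ g H n' (mv d p) q') :
    AC K1 K2 w τ S g H n p q' x d := by
  by_cases hp : p ≤ H + n
  · exact Or.inl ⟨Or.inl hx, hq n hp h2 hR, Or.inl hp⟩
  · have hp' : p = H + n + 1 := by omega
    refine Or.inr (Or.inl ⟨hp', hx, ⟨a, hs, ha⟩, hq (n + 1) (by omega) h2 ?_⟩)
    exact hR.next (by rw [← hp']; exact hs)

/-- marking the letter `g` -/
theorem mark_g (hB : Bas w τ S g H n) (hK1 : 1 ≤ K1)
    (hs : τ p = Sym.inp GA.g) (h1 : H < p) (h2 : p ≤ H + n + 1)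
    (hM : M τ H n ≤ K1) (hT : T τ H n + 1 ≤ M τ H n * (K2 + 1) + 1) :
    AC K1 K2 w τ S g H n p (.lg 1) (.inr GW.mg) false := by
  obtain ⟨h4, h5⟩ := hB.fresh hs rfl h1 h2
  have hm : Function.update τ (H + n + 1) (Sym.wrk GW.mg) (H + n + 1) = Sym.wrk GW.mg :=
    Function.update_self _ _ _
  obtain ⟨e1, e2, e3⟩ := cnt_mg hm
  obtain ⟨f1, f2, f3⟩ := cnt_upd τ H n GW.mg
  refine Or.inr (Or.inr ⟨GW.mg, Or.inl rfl, h4, h5, rfl, ⟨?_, ?_, e2, ?_⟩, hK1, n, ?_,
    by omega, ?_⟩)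
  · rw [e1]
    omega
  · rw [e1, f1]
    omega
  · rw [e1, e3, f1, f3, Nat.add_mul, Nat.one_mul]
    omega
  · simp [mv]
    omega
  · rw [e1]
    omega

/-- marking the letter `r` -/
theorem mark_r (hB : Bas w τ S g H n) (hK2 : 1 ≤ K2)
    (hs : τ p = Sym.inp GA.r) (h1 : H < p) (h2 : p ≤ H + n + 1) (hW : W K1 K2 τ H n) :
    AC K1 K2 w τ S g H n p (.lc 1) (.inr GW.mr) false := by
  obtain ⟨h4, h5⟩ := hB.fresh hs rfl h1 h2
  have hm : Function.update τ (H + n + 1) (Sym.wrk GW.mr) (H + n + 1) = Sym.wrk GW.mr :=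
    Function.update_self _ _ _
  obtain ⟨e1, e2, e3⟩ := cnt_mr hm
  obtain ⟨f1, f2, f3⟩ := cnt_upd τ H n GW.mr
  obtain ⟨w1, w2, w3, w4⟩ := hW
  refine Or.inr (Or.inr ⟨GW.mr, Or.inr rfl, h4, h5, rfl, ⟨?_, ?_, ?_, ?_⟩, hK2, n, ?_,
    by omega, ?_, ?_⟩)
  · rw [e1, f1]
    omega
  · rw [e1, f1]
    omega
  · rw [e2, f2]
    omega
  · rw [e1, e2, e3, f1, f2, f3]
    omega
  · simp [mv]
    omega
  · rw [e1]
  · rw [e2]
    omega

theorem W.hT (hW : W K1 K2 τ H n) : T τ H n + 1 ≤ M τ H n * (K2 + 1) + 1 := by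
  obtain ⟨w1, w2, w3, w4⟩ := hW
  omega

theorem a_fr (hB : Bas w τ S g H n) (hK1 : 1 ≤ K1) (h : St2 K1 K2 τ g H n p .fr)
    (hx : gtr1 N K1 K2 .fr (τ p) = some (q', x, d)) : AC K1 K2 w τ S g H n p q' x d := by
  obtain ⟨rfl, rfl⟩ := h
  rcases hs : τ (H + 1) with a | y | _ | _
  · rw [hs] at hx
    rcases a with _ | _ | _ | _ | _ | _ | _ | _ <;>
      simp only [gtr1, reduceCtorEq, Option.some.injEq, Prod.mk.injEq] at hx
    obtain ⟨rfl, rfl, rfl⟩ := hx
    exact mark_g hB hK1 hs (by omega) (by omega) (Nat.zero_le _)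
      (Nat.add_le_add_right (Nat.zero_le _) 1)
  · rw [hs] at hx
    rcases y with _ | _ | _ <;> simp only [gtr1, reduceCtorEq] at hx
  · rw [hs] at hx
    simp only [gtr1, reduceCtorEq] at hx
  · rw [hs] at hx
    simp only [gtr1, reduceCtorEq] at hx

theorem a_nr (hB : Bas w τ S g H n) (hK2 : 1 ≤ K2) (h : St2 K1 K2 τ g H n p .nr)
    (hx : gtr1 N K1 K2 .nr (τ p) = some (q', x, d)) : AC K1 K2 w τ S g H n p q' x d := by
  obtain ⟨h1, h2, h3⟩ := h
  rcases hs : τ p with a | y | _ | _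
  · rw [hs] at hx
    rcases a with _ | _ | _ | _ | _ | _ | _ | _ <;>
      simp only [gtr1, reduceCtorEq, Option.some.injEq, Prod.mk.injEq] at hx
    obtain ⟨rfl, rfl, rfl⟩ := hx
    exact mark_r hB hK2 hs h1 h2 h3
  · rw [hs] at hx
    rcases y with _ | _ | _ <;> simp only [gtr1, reduceCtorEq] at hx
  · rw [hs] at hx
    simp only [gtr1, reduceCtorEq] at hx
  · rw [hs] at hx
    simp only [gtr1, reduceCtorEq] at hx

theorem a_lg (hB : Bas w τ S g H n) {j : ℕ} (h : St2 K1 K2 τ g H n p (.lg j))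
    (hx : gtr1 N K1 K2 (.lg j) (τ p) = some (q', x, d)) : AC K1 K2 w τ S g H n p q' x d := by
  obtain ⟨h1, h2, k, rfl, h3, h4⟩ := h
  rcases hs : τ (H + k) with a | y | _ | _
  · rw [hs] at hx
    simp only [gtr1] at hx
    split_ifs at hx with hb hh
    · have hne := hB.neH (p := H + k) (by
        rw [hs]
        intro hc
        simp only [Sym.inp.injEq] at hc
        rw [hc] at hb
        exact absurd hb (by simp [GA.row]))
      obtain ⟨k, rfl⟩ : ∃ k', k = k' + 1 := ⟨k - 1, by omega⟩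
      simp only [Option.some.injEq, Prod.mk.injEq] at hx
      obtain ⟨rfl, rfl, rfl⟩ := hx
      refine Or.inl ⟨Or.inl hs.symm, ⟨h1, h2, k, ?_, by omega, ?_⟩, by omega⟩
      · simp [mv]
      · rw [← h4, (cnt_inp (n := k) hs).1]
    · rw [hh] at hs
      have hp := hB.eqH hs (by omega) (by omega)
      have hk : k = 0 := by omega
      subst hk
      simp only [Option.some.injEq, Prod.mk.injEq] at hx
      obtain ⟨rfl, rfl, rfl⟩ := hx
      obtain ⟨w1, w2, w3, w4⟩ := h1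
      have h5 : M τ H 0 = 0 := rfl
      refine Or.inl ⟨Or.inl (by rw [hh]; exact hs.symm), ⟨?_, ?_, ?_, ?_, ?_, ?_⟩, by omega⟩
      · simp [mv]
      · simp [mv]
      · exact w1
      · omega
      · omega
      · omega
  · have hne := hB.neH (p := H + k) (by rw [hs]; simp)
    obtain ⟨k, rfl⟩ : ∃ k', k = k' + 1 := ⟨k - 1, by
      rcases k with _ | k
      · exact absurd rfl hne
      · omega⟩
    rw [hs] at hx
    rcases y with _ | _ | _
    · simp only [gtr1, reduceCtorEq] at hx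
    · simp only [gtr1] at hx
      split_ifs at hx with hj
      simp only [Option.some.injEq, Prod.mk.injEq] at hx
      obtain ⟨rfl, rfl, rfl⟩ := hx
      refine Or.inl ⟨Or.inl hs.symm, ⟨h1, hj, k, ?_, by omega, ?_⟩, by omega⟩
      · simp [mv]
      · rw [← h4, (cnt_mg (n := k) hs).1]
        omega
    · simp only [gtr1, Option.some.injEq, Prod.mk.injEq] at hx
      obtain ⟨rfl, rfl, rfl⟩ := hx
      refine Or.inl ⟨Or.inl hs.symm, ⟨h1, h2, k, ?_, by omega, ?_⟩, by omega⟩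
      · simp [mv]
      · rw [← h4, (cnt_mr (n := k) hs).1]
  · rw [hs] at hx
    simp only [gtr1, reduceCtorEq] at hx
  · rw [hs] at hx
    simp only [gtr1, reduceCtorEq] at hx

theorem a_lc (hB : Bas w τ S g H n) {j : ℕ} (h : St2 K1 K2 τ g H n p (.lc j))
    (hx : gtr1 N K1 K2 (.lc j) (τ p) = some (q', x, d)) : AC K1 K2 w τ S g H n p q' x d := by
  obtain ⟨h1, h2, k, rfl, h3, hM, h4⟩ := h
  rcases hs : τ (H + k) with a | y | _ | _
  · rw [hs] at hx
    simp only [gtr1] at hx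
    split_ifs at hx with hb
    have hne := hB.neH (p := H + k) (by
      rw [hs]
      intro hc
      simp only [Sym.inp.injEq] at hc
      rw [hc] at hb
      exact absurd hb (by simp [GA.row]))
    obtain ⟨k, rfl⟩ : ∃ k', k = k' + 1 := ⟨k - 1, by omega⟩
    simp only [Option.some.injEq, Prod.mk.injEq] at hx
    obtain ⟨rfl, rfl, rfl⟩ := hx
    obtain ⟨e1, e2, _⟩ := cnt_inp (n := k) hs
    refine Or.inl ⟨Or.inl hs.symm, ⟨h1, h2, k, ?_, by omega, ?_, ?_⟩, by omega⟩
    · simp [mv]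
    · rw [← hM, e1]
    · rw [← h4, e2]
  · have hne := hB.neH (p := H + k) (by rw [hs]; simp)
    obtain ⟨k, rfl⟩ : ∃ k', k = k' + 1 := ⟨k - 1, by
      rcases k with _ | k
      · exact absurd rfl hne
      · omega⟩
    rw [hs] at hx
    rcases y with _ | _ | _
    · simp only [gtr1, reduceCtorEq] at hx
    · simp only [gtr1, Option.some.injEq, Prod.mk.injEq] at hx
      obtain ⟨rfl, rfl, rfl⟩ := hx
      obtain ⟨e1, e2, _⟩ := cnt_mg (n := k) hs
      obtain ⟨w1, w2, w3, w4⟩ := h1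
      refine Or.inl ⟨Or.inl hs.symm, ⟨?_, ?_, w1, w2, ?_, w4⟩, by omega⟩
      · show H < H + (k + 1) + 1
        omega
      · show H + (k + 1) + 1 ≤ H + n + 1
        omega
      · rw [← h4, e2]
        omega
    · simp only [gtr1] at hx
      split_ifs at hx with hj
      simp only [Option.some.injEq, Prod.mk.injEq] at hx
      obtain ⟨rfl, rfl, rfl⟩ := hx
      obtain ⟨e1, e2, _⟩ := cnt_mr (n := k) hs
      refine Or.inl ⟨Or.inl hs.symm, ⟨h1, hj, k, ?_, by omega, ?_, ?_⟩, by omega⟩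
      · simp [mv]
      · rw [← hM, e1]
      · rw [← h4, e2]
        omega
  · rw [hs] at hx
    simp only [gtr1, reduceCtorEq] at hx
  · rw [hs] at hx
    simp only [gtr1, reduceCtorEq] at hx

theorem a_rg (hB : Bas w τ S g H n) {j : ℕ} (h : St2 K1 K2 τ g H n p (.rg j))
    (hx : gtr1 N K1 K2 (.rg j) (τ p) = some (q', x, d)) : AC K1 K2 w τ S g H n p q' x d := by
  obtain ⟨h1, h2, h3⟩ := h
  rcases hs : τ p with a | y | _ | _
  · have hx' : (if a.row = true then some (GQ.rg j, (Sum.inl a : GA ⊕ GW), true) else none) =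
        some (q', x, d) := by
      rw [← hx, hs]
      rcases j with _ | _ | j <;> rfl
    split_ifs at hx' with hb
    simp only [Option.some.injEq, Prod.mk.injEq] at hx'
    obtain ⟨rfl, rfl, rfl⟩ := hx'
    refine row_move h1 h2 h3 hs hb hs.symm fun n' h4 _ h5 => ⟨?_, ?_, h5⟩ <;> simp [mv] <;> omega
  · rw [hs] at hx
    rcases y with _ | _ | _
    · rcases j with _ | _ | j <;> simp only [gtr1, reduceCtorEq] at hx
    · have hp := hB.le_of_m hs (by simp)
      rcases j with _ | _ | j <;>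
        simp only [gtr1, reduceCtorEq, Option.some.injEq, Prod.mk.injEq] at hx
      · obtain ⟨rfl, rfl, rfl⟩ := hx
        refine Or.inl ⟨Or.inl hs.symm, ⟨?_, ?_, h3⟩, by omega⟩ <;> simp [mv] <;> omega
      · obtain ⟨rfl, rfl, rfl⟩ := hx
        refine Or.inl ⟨Or.inl hs.symm, ⟨?_, ?_, h3⟩, by omega⟩ <;> simp [mv] <;> omega
    · have hp := hB.le_of_m hs (by simp)
      have hx' : some (GQ.rg j, (Sum.inr GW.mr : GA ⊕ GW), true) = some (q', x, d) := by
        rw [← hx]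
        rcases j with _ | _ | j <;> rfl
      simp only [Option.some.injEq, Prod.mk.injEq] at hx'
      obtain ⟨rfl, rfl, rfl⟩ := hx'
      refine Or.inl ⟨Or.inl hs.symm, ⟨?_, ?_, h3⟩, by omega⟩ <;> simp [mv] <;> omega
  · rw [hs] at hx
    rcases j with _ | _ | j <;> simp only [gtr1, reduceCtorEq] at hx
  · rw [hs] at hx
    rcases j with _ | _ | j <;> simp only [gtr1, reduceCtorEq] at hx

theorem a_rc (hB : Bas w τ S g H n) {j : ℕ} (h : St2 K1 K2 τ g H n p (.rc j))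
    (hx : gtr1 N K1 K2 (.rc j) (τ p) = some (q', x, d)) : AC K1 K2 w τ S g H n p q' x d := by
  obtain ⟨h1, h2, h3⟩ := h
  rcases hs : τ p with a | y | _ | _
  · have hx' : (if a.row = true then some (GQ.rc j, (Sum.inl a : GA ⊕ GW), true) else none) =
        some (q', x, d) := by
      rw [← hx, hs]
      rcases j with _ | _ | j <;> rfl
    split_ifs at hx' with hb
    simp only [Option.some.injEq, Prod.mk.injEq] at hx'
    obtain ⟨rfl, rfl, rfl⟩ := hx'
    refine row_move h1 h2 h3 hs hb hs.symm fun n' h4 _ h5 => ⟨?_, ?_, h5⟩ <;> simp [mv] <;> omega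
  · rw [hs] at hx
    rcases y with _ | _ | _
    · rcases j with _ | _ | j <;> simp only [gtr1, reduceCtorEq] at hx
    · rcases j with _ | _ | j <;> simp only [gtr1, reduceCtorEq] at hx
    · have hp := hB.le_of_m hs (by simp)
      rcases j with _ | _ | j <;>
        simp only [gtr1, reduceCtorEq, Option.some.injEq, Prod.mk.injEq] at hx
      · obtain ⟨rfl, rfl, rfl⟩ := hx
        refine Or.inl ⟨Or.inl hs.symm, ⟨?_, ?_, h3⟩, by omega⟩ <;> simp [mv] <;> omega
      · obtain ⟨rfl, rfl, rfl⟩ := hx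
        refine Or.inl ⟨Or.inl hs.symm, ⟨?_, ?_, h3⟩, by omega⟩ <;> simp [mv] <;> omega
  · rw [hs] at hx
    rcases j with _ | _ | j <;> simp only [gtr1, reduceCtorEq] at hx
  · rw [hs] at hx
    rcases j with _ | _ | j <;> simp only [gtr1, reduceCtorEq] at hx

theorem a_ra {i : ℕ} (h : St2 K1 K2 τ g H n p (.ra i))
    (hx : gtr1 N K1 K2 (.ra i) (τ p) = some (q', x, d)) : AC K1 K2 w τ S g H n p q' x d := by
  obtain ⟨h1, h2, h3⟩ := h
  rcases hs : τ p with a | y | _ | _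
  · rw [hs] at hx
    rcases a with _ | _ | _ | _ | β | _ | _ | _ <;>
      simp only [gtr1, reduceCtorEq, Option.some.injEq, Prod.mk.injEq] at hx
    · split_ifs at hx with hi
      simp only [Option.some.injEq, Prod.mk.injEq] at hx
      obtain ⟨rfl, rfl, rfl⟩ := hx
      refine row_move h1 h2 h3 hs rfl hs.symm fun n' h4 _ h5 => ⟨?_, ?_, h5⟩ <;>
        simp [mv] <;> omega
    · obtain ⟨rfl, rfl, rfl⟩ := hx
      refine row_move h1 h2 h3 hs rfl hs.symm fun n' h4 _ h5 => ⟨?_, ?_, h5⟩ <;>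
        simp [mv] <;> omega
  · rw [hs] at hx
    rcases y with _ | _ | _ <;> simp only [gtr1, reduceCtorEq] at hx
  · rw [hs] at hx
    simp only [gtr1, reduceCtorEq] at hx
  · rw [hs] at hx
    simp only [gtr1, reduceCtorEq] at hx

theorem a_gl (hB : Bas w τ S g H n) {β : Bool} {i : ℕ} (h : St2 K1 K2 τ g H n p (.gl β i))
    (hx : gtr1 N K1 K2 (.gl β i) (τ p) = some (q', x, d)) : AC K1 K2 w τ S g H n p q' x d := by
  obtain ⟨h1, h2, h3⟩ := h
  have hgH := hB.gH
  rcases hs : τ p with a | y | _ | _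
  · rw [hs] at hx
    simp only [gtr1] at hx
    split_ifs at hx with hb hh
    · have hne := hB.neH (p := p) (by
        rw [hs]
        intro hc
        simp only [Sym.inp.injEq] at hc
        rw [hc] at hb
        exact absurd hb (by simp [GA.row]))
      simp only [Option.some.injEq, Prod.mk.injEq] at hx
      obtain ⟨rfl, rfl, rfl⟩ := hx
      refine Or.inl ⟨Or.inl hs.symm, ⟨?_, ?_, h3⟩, by omega⟩ <;> simp [mv] <;> omega
    · rw [hh] at hs
      have hp := hB.eqH hs h1 h2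
      simp only [Option.some.injEq, Prod.mk.injEq] at hx
      obtain ⟨rfl, rfl, rfl⟩ := hx
      refine Or.inl ⟨Or.inl (by rw [hh]; exact hs.symm), ⟨?_, ?_, h3⟩, by omega⟩ <;>
        simp [mv] <;> omega
  · rw [hs] at hx
    rcases y with _ | _ | _ <;>
      simp only [gtr1, reduceCtorEq, Option.some.injEq, Prod.mk.injEq] at hx
    all_goals
      have hp := hB.le_of_m hs (by simp)
      obtain ⟨rfl, rfl, rfl⟩ := hx
      refine Or.inl ⟨Or.inl hs.symm, ⟨?_, ?_, h3⟩, by omega⟩ <;> simp [mv] <;> omega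
  · rw [hs] at hx
    simp only [gtr1, reduceCtorEq] at hx
  · rw [hs] at hx
    simp only [gtr1, reduceCtorEq] at hx

theorem a_lf (hB : Bas w τ S g H n) {β : Bool} {i : ℕ} (h : St2 K1 K2 τ g H n p (.lf β i))
    (hx : gtr1 N K1 K2 (.lf β i) (τ p) = some (q', x, d)) : AC K1 K2 w τ S g H n p q' x d := by
  obtain ⟨h1, h2, h3⟩ := h
  have hgH := hB.gH
  rcases hs : τ p with a | y | _ | _
  · have hne : p ≠ g := by
      rintro rfl
      rw [hB.ms] at hs
      exact absurd hs (by simp)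
    rw [hs] at hx
    simp only [gtr1] at hx
    split_ifs at hx
    simp only [Option.some.injEq, Prod.mk.injEq] at hx
    obtain ⟨rfl, rfl, rfl⟩ := hx
    refine Or.inl ⟨Or.inl hs.symm, ⟨?_, ?_, h3⟩, by omega⟩ <;> simp [mv] <;> omega
  · rw [hs] at hx
    rcases y with _ | _ | _ <;>
      simp only [gtr1, reduceCtorEq, Option.some.injEq, Prod.mk.injEq] at hx
    obtain ⟨rfl, rfl, rfl⟩ := hx
    refine Or.inl ⟨Or.inl hs.symm, ⟨?_, ?_, h3⟩, by omega⟩ <;> simp [mv] <;> omega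
  · rw [hs] at hx
    simp only [gtr1, reduceCtorEq] at hx
  · rw [hs] at hx
    simp only [gtr1, reduceCtorEq] at hx

theorem a_se (hB : Bas w τ S g H n) {β : Bool} {i : ℕ} (h : St2 K1 K2 τ g H n p (.se β i))
    (hx : gtr1 N K1 K2 (.se β i) (τ p) = some (q', x, d) ∨
      gtr2 (.se β i) (τ p) = some (q', x, d)) : AC K1 K2 w τ S g H n p q' x d := by
  obtain ⟨h1, h2, h3⟩ := h
  have hgH := hB.gH
  have hne := hB.neH (p := p)
  rcases hs : τ p with a | y | _ | _
  · rw [hs] at hx hne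
    rcases a with _ | _ | _ | _ | _ | _ | _ | _ <;>
      simp only [gtr1, gtr2, GA.row, reduceCtorEq, Option.some.injEq, Prod.mk.injEq, or_false,
        or_self, ne_eq, not_false_eq_true, forall_const, Sym.inp.injEq, if_true, if_false,
        Bool.false_eq_true] at hx hne
    · rcases hx with hx | hx <;>
      · obtain ⟨rfl, rfl, rfl⟩ := hx
        refine Or.inl ⟨Or.inl hs.symm, ⟨?_, ?_, h3⟩, by omega⟩ <;> simp [mv] <;> omega
    all_goals
      obtain ⟨rfl, rfl, rfl⟩ := hx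
      refine Or.inl ⟨Or.inl hs.symm, ⟨?_, ?_, h3⟩, by omega⟩ <;> simp [mv] <;> omega
  · rw [hs] at hx
    rcases y with _ | _ | _ <;> simp only [gtr1, gtr2, reduceCtorEq, or_self] at hx
  · rw [hs] at hx
    simp only [gtr1, gtr2, reduceCtorEq, or_self] at hx
  · rw [hs] at hx
    simp only [gtr1, gtr2, reduceCtorEq, or_self] at hx

theorem a_ca (hB : Bas w τ S g H n) {β : Bool} {i : ℕ} (h : St2 K1 K2 τ g H n p (.ca β i))
    (hx : gtr1 N K1 K2 (.ca β i) (τ p) = some (q', x, d)) : AC K1 K2 w τ S g H n p q' x d := by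
  obtain ⟨h1, h2, h3⟩ := h
  have hgH := hB.gH
  have hne := hB.neH (p := p)
  rcases hs : τ p with a | y | _ | _
  · rw [hs] at hx hne
    rcases i with _ | i <;> rcases a with _ | _ | _ | _ | _ | _ | _ | _ <;>
      simp only [gtr1, reduceCtorEq, Option.some.injEq, Prod.mk.injEq, or_false, or_self,
        ne_eq, not_false_eq_true, forall_const, Sym.inp.injEq] at hx hne
    · obtain ⟨rfl, rfl, rfl⟩ := hx
      refine Or.inl ⟨Or.inl hs.symm, ⟨?_, ?_, h3⟩, by omega⟩ <;> simp [mv] <;> omega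
    · obtain ⟨rfl, rfl, rfl⟩ := hx
      refine Or.inl ⟨Or.inl hs.symm, ⟨?_, ?_, h3⟩, by omega⟩ <;> simp [mv] <;> omega
  · rw [hs] at hx
    rcases i with _ | i <;> rcases y with _ | _ | _ <;>
      simp only [gtr1, reduceCtorEq] at hx
  · rw [hs] at hx
    rcases i with _ | i <;> simp only [gtr1, reduceCtorEq] at hx
  · rw [hs] at hx
    rcases i with _ | i <;> simp only [gtr1, reduceCtorEq] at hx

theorem a_cb (hB : Bas w τ S g H n) {β : Bool} {j : ℕ} (h : St2 K1 K2 τ g H n p (.cb β j))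
    (hx : gtr1 N K1 K2 (.cb β j) (τ p) = some (q', x, d)) : AC K1 K2 w τ S g H n p q' x d := by
  obtain ⟨h1, h2, h3⟩ := h
  have hgH := hB.gH
  have hne := hB.neH (p := p)
  rcases hs : τ p with a | y | _ | _
  · rw [hs] at hx hne
    rcases a with _ | _ | _ | _ | _ | _ | _ | _ <;>
      simp only [gtr1, reduceCtorEq, Option.some.injEq, Prod.mk.injEq, or_false, or_self,
        ne_eq, not_false_eq_true, forall_const, Sym.inp.injEq] at hx hne
    · split_ifs at hx with hi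
      simp only [Option.some.injEq, Prod.mk.injEq] at hx
      obtain ⟨rfl, rfl, rfl⟩ := hx
      refine Or.inl ⟨Or.inl hs.symm, ⟨?_, ?_, h3⟩, by omega⟩ <;> simp [mv] <;> omega
    · split_ifs at hx with hi
      simp only [Option.some.injEq, Prod.mk.injEq] at hx
      obtain ⟨rfl, rfl, rfl⟩ := hx
      refine Or.inl ⟨Or.inl hs.symm, ⟨?_, ?_, h3⟩, by omega⟩ <;> simp [mv] <;> omega
  · rw [hs] at hx
    rcases y with _ | _ | _ <;> simp only [gtr1, reduceCtorEq] at hx
  · rw [hs] at hx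
    simp only [gtr1, reduceCtorEq] at hx
  · rw [hs] at hx
    simp only [gtr1, reduceCtorEq] at hx

theorem a_rt (hB : Bas w τ S g H n) {j : ℕ} (h : St2 K1 K2 τ g H n p (.rt j))
    (hx : gtr1 N K1 K2 (.rt j) (τ p) = some (q', x, d)) : AC K1 K2 w τ S g H n p q' x d := by
  obtain ⟨h1, h2, h3⟩ := h
  have hgH := hB.gH
  rcases hs : τ p with a | y | _ | _
  · rw [hs] at hx
    simp only [gtr1] at hx
    split_ifs at hx with hb hh
    · have hne : p ≠ H := hB.neH (by
        rw [hs]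
        intro hc
        simp only [Sym.inp.injEq] at hc
        rw [hc] at hb
        exact absurd hb (by simp [GA.blk]))
      simp only [Option.some.injEq, Prod.mk.injEq] at hx
      obtain ⟨rfl, rfl, rfl⟩ := hx
      refine Or.inl ⟨Or.inl hs.symm, ⟨?_, ?_, h3⟩, by omega⟩ <;> simp [mv] <;> omega
    · have hpH : p = H := by
        by_contra hc
        obtain ⟨z, hz, hz'⟩ := hB.blk p h1 (by omega)
        rw [hs] at hz
        simp only [Sym.inp.injEq] at hz
        rw [← hz] at hz'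
        exact hb hz'
      simp only [Option.some.injEq, Prod.mk.injEq] at hx
      obtain ⟨rfl, rfl, rfl⟩ := hx
      refine Or.inl ⟨Or.inl hs.symm, ⟨?_, ?_, h3⟩, by omega⟩ <;> simp [mv] <;> omega
  · rw [hs] at hx
    rcases y with _ | _ | _ <;> simp only [gtr1, reduceCtorEq] at hx
  · rw [hs] at hx
    simp only [gtr1, reduceCtorEq] at hx
  · rw [hs] at hx
    simp only [gtr1, reduceCtorEq] at hx

theorem a_rh (hB : Bas w τ S g H n) {j : ℕ} (h : St2 K1 K2 τ g H n p (.rh j))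
    (hx : gtr1 N K1 K2 (.rh j) (τ p) = some (q', x, d) ∨
      gtr2 (.rh j) (τ p) = some (q', x, d)) : AC K1 K2 w τ S g H n p q' x d := by
  obtain ⟨h1, h2, h3⟩ := h
  rcases hs : τ p with a | y | _ | _
  · rw [hs] at hx
    rcases a with _ | _ | _ | _ | β | _ | _ | _ <;>
      simp only [gtr1, gtr2, GA.row, reduceCtorEq, Option.some.injEq, Prod.mk.injEq, or_false,
        or_self, if_true, if_false, Bool.false_eq_true] at hx
    · obtain ⟨rfl, rfl, rfl⟩ := hx
      refine row_move h1 h2 h3 hs rfl hs.symm fun n' h4 _ h5 => ⟨?_, ?_, h5⟩ <;>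
        simp [mv] <;> omega
    · obtain ⟨rfl, rfl, rfl⟩ := hx
      refine row_move h1 h2 h3 hs rfl hs.symm fun n' h4 _ h5 => ⟨?_, ?_, h5⟩ <;>
        simp [mv] <;> omega
    · rcases hx with hx | hx <;>
      · obtain ⟨rfl, rfl, rfl⟩ := hx
        refine row_move h1 h2 h3 hs rfl hs.symm fun n' h4 _ h5 => ⟨?_, ?_, h5⟩ <;>
          simp [mv] <;> omega
  · rw [hs] at hx
    rcases y with _ | _ | _ <;>
      simp only [gtr1, gtr2, reduceCtorEq, or_self, or_false, Option.some.injEq,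
        Prod.mk.injEq] at hx
    all_goals
      have hp := hB.le_of_m hs (by simp)
      obtain ⟨rfl, rfl, rfl⟩ := hx
      refine Or.inl ⟨Or.inl hs.symm, ⟨?_, ?_, h3⟩, by omega⟩ <;> simp [mv] <;> omega
  · rw [hs] at hx
    simp only [gtr1, gtr2, reduceCtorEq, or_self] at hx
  · rw [hs] at hx
    simp only [gtr1, gtr2, reduceCtorEq, or_self] at hx

theorem a_bk (hB : Bas w τ S g H n) (hK1 : 1 ≤ K1) (hK2 : 1 ≤ K2) {j : ℕ} (h : St2 K1 K2 τ g H n p (.bk j))
    (hx : gtr1 N K1 K2 (.bk j) (τ p) = some (q', x, d)) : AC K1 K2 w τ S g H n p q' x d := by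
  have hbd := h.bound
  obtain ⟨h1, h2, h3⟩ := h
  rcases hs : τ p with a | y | _ | _
  · rw [hs] at hx
    rcases j with _ | j <;> rcases a with _ | _ | _ | _ | _ | _ | _ | _ <;>
      simp only [gtr1, reduceCtorEq, Option.some.injEq, Prod.mk.injEq] at hx
    · obtain ⟨rfl, rfl, rfl⟩ := hx
      refine row_move h1 h2 h3 hs rfl hs.symm fun n' h4 _ h5 => ⟨?_, ?_, h5⟩ <;>
        simp [mv] <;> omega
    · obtain ⟨rfl, rfl, rfl⟩ := hx
      exact mark_g hB hK1 hs h1 h2 h3.2.1 h3.hT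
    · obtain ⟨rfl, rfl, rfl⟩ := hx
      exact mark_r hB hK2 hs h1 h2 h3
    · obtain ⟨rfl, rfl, rfl⟩ := hx
      refine row_move h1 h2 h3 hs rfl hs.symm fun n' h4 _ h5 => ⟨?_, ?_, h5⟩ <;>
        simp [mv] <;> omega
  · rw [hs] at hx
    rcases j with _ | j <;> rcases y with _ | _ | _ <;> simp only [gtr1, reduceCtorEq] at hx
  · rw [hs] at hx
    rcases j with _ | j <;> simp only [gtr1, reduceCtorEq] at hx
  · have hp := hB.rend hs
    rw [hs] at hx
    rcases j with _ | j <;>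
      simp only [gtr1, reduceCtorEq, Option.some.injEq, Prod.mk.injEq] at hx
    obtain ⟨rfl, rfl, rfl⟩ := hx
    exact Or.inl ⟨Or.inr hp, hbd, Or.inr hp⟩

/-- a move in the second phase -/
theorem move2 (hK1 : 1 ≤ K1) (hK2 : 1 ≤ K2) (hB : Bas w τ S g H n) {q : GQ} (h : St2 K1 K2 τ g H n p q)
    (hx : gtr1 N K1 K2 q (τ p) = some (q', x, d) ∨ gtr2 q (τ p) = some (q', x, d)) :
    AC K1 K2 w τ S g H n p q' x d := by
  have h2 : ∀ {q : GQ}, q ≠ .scan → (∀ β j, q ≠ .se β j) → (∀ j, q ≠ .rh j) →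
      gtr2 q (τ p) ≠ some (q', x, d) := by
    intro q hq1 hq2 hq3 hc
    rcases q with _ | _ | _ | _ | _ | _ | _ | _ | _ | _ | _ | _ | ⟨β, j⟩ | _ | _ | _ | j | _
    · exact hq1 rfl
    all_goals try (exact absurd rfl (hq2 _ _))
    all_goals try (exact absurd rfl (hq3 _))
    all_goals (simp only [gtr2, reduceCtorEq] at hc)
  by_cases hse : ∃ β j, q = .se β j
  · obtain ⟨β, j, rfl⟩ := hse
    exact a_se hB h hx
  by_cases hrh : ∃ j, q = .rh j
  · obtain ⟨j, rfl⟩ := hrh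
    exact a_rh hB h hx
  have hsc : q ≠ .scan := by
    rintro rfl
    exact h
  have hx1 : gtr1 N K1 K2 q (τ p) = some (q', x, d) := by
    rcases hx with hx | hx
    · exact hx
    · exact absurd hx (h2 hsc (fun β j hc => hse ⟨β, j, hc⟩) fun j hc => hrh ⟨j, hc⟩)
  rcases q with _ | _ | _ | _ | _ | _ | _ | _ | _ | _ | _ | _ | ⟨β, j⟩ | _ | _ | _ | j | _
  · exact absurd rfl hsc
  · exact absurd h id
  · exact a_fr hB hK1 h hx1
  · exfalso
    rcases hs : τ p with a | y | _ | _ <;> rw [hs] at hx1 <;>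
      simp only [gtr1, reduceCtorEq] at hx1
  · exact a_nr hB hK2 h hx1
  · exact a_lg hB h hx1
  · exact a_rg hB h hx1
  · exact a_lc hB h hx1
  · exact a_rc hB h hx1
  · exact a_ra h hx1
  · exact a_gl hB h hx1
  · exact a_lf hB h hx1
  · exact absurd ⟨β, j, rfl⟩ hse
  · exact a_ca hB h hx1
  · exact a_cb hB h hx1
  · exact a_rt hB h hx1
  · exact absurd ⟨j, rfl⟩ hrh
  · exact a_bk hB hK1 hK2 h hx1

end

/-- what is true during a computation -/
def Inv (N K1 K2 : ℕ) (w : List GA) (c : (gm N K1 K2).Cfg) : Prop :=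
  (c.st = GQ.scan ∧ c.tape = itp w ∧ ∀ j ∈ c.seen, j < c.pos) ∨
  (c.st = GQ.mid ∧ (∀ j ∈ c.seen, j < c.pos) ∧ ∃ g, g < c.pos ∧ c.tape g = Sym.wrk GW.ms ∧
    (∀ j, j ≠ g → c.tape j = itp w j) ∧
    ∀ j, g < j → j < c.pos → ∃ x : GA, c.tape j = Sym.inp x ∧ x.blk = true) ∨
  ∃ g H n, Bas w c.tape c.seen g H n ∧ St2 K1 K2 c.tape g H n c.pos c.st

theorem inv_step {N K1 K2 : ℕ} (hK1 : 1 ≤ K1) (hK2 : 1 ≤ K2) {cv : Bool} {w : List GA}
    {c c' : (gm N K1 K2).Cfg} (hi : Inv N K1 K2 w c) (hs : (gm N K1 K2).Step cv w.length c c') :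
    Inv N K1 K2 w c' := by
  obtain ⟨_, x, d, hx, _, hpos, hw, hnw, hseen⟩ := hs
  have hx' : gtr1 N K1 K2 c.st (c.tape c.pos) = some (c'.st, x, d) ∨
      gtr2 c.st (c.tape c.pos) = some (c'.st, x, d) := hx
  clear hx
  have hq : (Sym.ofW x = c.tape c.pos ∨ w.length < c.pos) → c'.tape = c.tape := by
    intro hq
    by_cases hc : 1 ≤ c.pos ∧ c.pos ≤ w.length ∧ c.pos ∉ c.seen
    · rcases hq with hq | hq
      · rw [hw hc, hq]
        exact Function.update_eq_self _ _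
      · omega
    · exact (hnw hc).1
  have hsn : (∀ j ∈ c.seen, j < c.pos) → d = true → ∀ j ∈ c'.seen, j < c'.pos := by
    intro h1 hd j hj
    rw [hpos, if_pos hd]
    rw [hseen] at hj
    rcases hj with rfl | hj
    · exact Nat.lt_succ_self _
    · exact Nat.lt_succ_of_lt (h1 j hj)
  rcases hi with ⟨h1, h2, h3⟩ | ⟨h1, h2, g, hg, h3, h4, h5⟩ | ⟨g, H, n, hB, hS⟩
  · -- first phase
    rw [h1] at hx'
    rcases hs : c.tape c.pos with a | y | _ | _
    · have h4 : itp w c.pos = Sym.inp a := by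
        rw [← h2]
        exact hs
      obtain ⟨h5, h6⟩ := ini_inp h4
      have h7 : c.pos ∉ c.seen := fun h => absurd (h3 _ h) (lt_irrefl _)
      have hw' := hw ⟨h5, h6, h7⟩
      rw [hs] at hx'
      rcases hx' with hx' | hx'
      · simp only [gtr1] at hx'
        split_ifs at hx'
        simp only [Option.some.injEq, Prod.mk.injEq] at hx'
        obtain ⟨h8, rfl, rfl⟩ := hx'
        refine Or.inl ⟨h8.symm, ?_, hsn h3 rfl⟩
        rw [hq (Or.inl hs.symm)]
        exact h2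
      · rcases a with _ | _ | _ | _ | _ | _ | _ | _ <;>
          simp only [gtr2, reduceCtorEq, Option.some.injEq, Prod.mk.injEq] at hx'
        obtain ⟨h8, rfl, rfl⟩ := hx'
        refine Or.inr (Or.inl ⟨h8.symm, hsn h3 rfl, c.pos, ?_, ?_, ?_, ?_⟩)
        · rw [hpos, if_pos rfl]
          exact Nat.lt_succ_self _
        · rw [hw']
          exact Function.update_self _ _ _
        · intro j hj
          rw [hw', Function.update_of_ne hj, h2]
        · intro j hj hj'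
          rw [hpos, if_pos rfl] at hj'
          omega
    · rw [h2] at hs
      exact absurd hs ini_wrk
    · rw [hs] at hx'
      simp only [gtr1, gtr2, reduceCtorEq, or_self] at hx'
    · rw [hs] at hx'
      simp only [gtr1, gtr2, reduceCtorEq, or_self] at hx'
  · -- second phase
    rw [h1] at hx'
    rcases hs : c.tape c.pos with a | y | _ | _
    · rw [hs] at hx'
      simp only [gtr1, gtr2, reduceCtorEq, or_false] at hx'
      split_ifs at hx' with hb hh
      · simp only [Option.some.injEq, Prod.mk.injEq] at hx'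
        obtain ⟨h8, rfl, rfl⟩ := hx'
        have hT := hq (Or.inl hs.symm)
        refine Or.inr (Or.inl ⟨h8.symm, hsn h2 rfl, g, ?_, ?_, ?_, ?_⟩)
        · rw [hpos, if_pos rfl]
          exact Nat.lt_succ_of_lt hg
        · rw [hT]
          exact h3
        · rw [hT]
          exact h4
        · intro j hj hj'
          rw [hT]
          rw [hpos, if_pos rfl] at hj'
          by_cases hjp : j = c.pos
          · subst hjp
            exact ⟨a, hs, hb⟩
          · exact h5 j hj (by omega)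
      · simp only [Option.some.injEq, Prod.mk.injEq] at hx'
        obtain ⟨h8, rfl, rfl⟩ := hx'
        have hT := hq (Or.inl hs.symm)
        refine Or.inr (Or.inr ⟨g, c.pos, 0, ?_, ?_⟩)
        · rw [hT]
          refine ⟨hg, h3, h5, ?_, fun j h6 h7 => absurd h6 (by omega),
            fun j h6 => Or.inl (h4 j h6), ?_⟩
          · rw [hs, hh]
          · intro j hj
            rw [hseen] at hj
            rcases hj with rfl | hj
            · left; omega
            · left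
              have := h2 j hj
              omega
        · rw [← h8, hT, hpos, if_pos rfl]
          exact ⟨rfl, rfl⟩
    · have hpg : c.pos = g := by
        by_contra hc
        rw [h4 _ hc] at hs
        exact ini_wrk hs
      omega
    · rw [hs] at hx'
      simp only [gtr1, gtr2, reduceCtorEq, or_self] at hx'
    · rw [hs] at hx'
      simp only [gtr1, gtr2, reduceCtorEq, or_self] at hx'
  · -- third phase
    rcases move2 hK1 hK2 hB hS hx' with ⟨h1, h2, h3⟩ | ⟨h1, h2, h3, h4⟩ | ⟨y, hy, h1, h2, rfl, h3⟩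
    · refine Or.inr (Or.inr ⟨g, H, n, ?_, ?_⟩)
      · rw [hq h1, hseen]
        exact hB.next h3
      · rw [hq h1, hpos]
        exact h2
    · refine Or.inr (Or.inr ⟨g, H, n + 1, ?_, ?_⟩)
      · rw [hq (Or.inl h2), hseen, h1]
        rw [h1] at h3
        exact hB.row h3
      · rw [hq (Or.inl h2), hpos]
        exact h4
    · refine Or.inr (Or.inr ⟨g, H, n + 1, ?_, ?_⟩)
      · rw [hw h2, hseen, h1]
        exact hB.mark hy
      · rw [hw h2, hpos, h1]
        rw [h1] at h3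
        exact h3

theorem inv_reach {N K1 K2 : ℕ} (hK1 : 1 ≤ K1) (hK2 : 1 ≤ K2) {cv : Bool} {w : List GA}
    {c : (gm N K1 K2).Cfg} (h : Reach (gm N K1 K2) cv w c) : Inv N K1 K2 w c := by
  induction h with
  | refl => exact Or.inl ⟨rfl, init_eq N K1 K2 w, fun j hj => absurd hj (Set.notMem_empty j)⟩
  | tail _ hbc ih => exact inv_step hK1 hK2 ih hbc

theorem card_mr (τ : ℕ → Sym GA GW) (H n : ℕ) :
    {j | H < j ∧ j ≤ H + n ∧ (τ j = Sym.wrk GW.mg ∨ τ j = Sym.wrk GW.mr)}.Finite ∧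
      {j | H < j ∧ j ≤ H + n ∧ (τ j = Sym.wrk GW.mg ∨ τ j = Sym.wrk GW.mr)}.ncard ≤
        T τ H n := by
  induction n with
  | zero =>
    have h : {j | H < j ∧ j ≤ H + 0 ∧ (τ j = Sym.wrk GW.mg ∨ τ j = Sym.wrk GW.mr)} = ∅ := by
      ext j
      simp only [Set.mem_ofPred_eq, Set.mem_empty_iff_false, iff_false]
      rintro ⟨h1, h2, -⟩
      omega
    rw [h]
    exact ⟨Set.finite_empty, by simp⟩
  | succ n ih =>
    by_cases hm : τ (H + n + 1) = Sym.wrk GW.mg ∨ τ (H + n + 1) = Sym.wrk GW.mr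
    · have hsub : {j | H < j ∧ j ≤ H + (n + 1) ∧ (τ j = Sym.wrk GW.mg ∨ τ j = Sym.wrk GW.mr)} ⊆
          insert (H + n + 1)
            {j | H < j ∧ j ≤ H + n ∧ (τ j = Sym.wrk GW.mg ∨ τ j = Sym.wrk GW.mr)} := by
        rintro j ⟨h1, h2, h3⟩
        by_cases hj : j = H + n + 1
        · exact Or.inl hj
        · exact Or.inr ⟨h1, by omega, h3⟩
      refine ⟨(ih.1.insert _).subset hsub, ?_⟩
      refine (Set.ncard_le_ncard hsub (ih.1.insert _)).trans ?_
      refine (Set.ncard_insert_le _ _).trans ?_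
      have hT : T τ H (n + 1) = T τ H n + 1 := by rw [T, if_pos hm]
      rw [hT]
      exact Nat.add_le_add_right ih.2 1
    · have hsub : {j | H < j ∧ j ≤ H + (n + 1) ∧ (τ j = Sym.wrk GW.mg ∨ τ j = Sym.wrk GW.mr)} ⊆
          {j | H < j ∧ j ≤ H + n ∧ (τ j = Sym.wrk GW.mg ∨ τ j = Sym.wrk GW.mr)} := by
        rintro j ⟨h1, h2, h3⟩
        by_cases hj : j = H + n + 1
        · subst hj
          exact absurd h3 hm
        · exact ⟨h1, by omega, h3⟩
      refine ⟨ih.1.subset hsub, ?_⟩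
      have hT : T τ H (n + 1) = T τ H n := by rw [T, if_neg hm, Nat.add_zero]
      rw [hT]
      exact (Set.ncard_le_ncard hsub ih.1).trans ih.2

theorem card_le {w : List GA} {τ : ℕ → Sym GA GW} {g H n : ℕ}
    (h : ∀ j, j ≠ g → τ j = itp w j ∨
      (H < j ∧ j ≤ H + n ∧ (τ j = Sym.wrk GW.mg ∨ τ j = Sym.wrk GW.mr))) :
    {j | τ j ≠ itp w j}.Finite ∧ {j | τ j ≠ itp w j}.ncard ≤ T τ H n + 1 := by
  obtain ⟨h1, h2⟩ := card_mr τ H n
  have hsub : {j | τ j ≠ itp w j} ⊆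
      insert g {j | H < j ∧ j ≤ H + n ∧ (τ j = Sym.wrk GW.mg ∨ τ j = Sym.wrk GW.mr)} := by
    intro j hj
    by_cases hg : j = g
    · exact Or.inl hg
    · rcases h j hg with h3 | h3
      · exact absurd h3 hj
      · exact Or.inr h3
  refine ⟨(h1.insert _).subset hsub, (Set.ncard_le_ncard hsub (h1.insert _)).trans ?_⟩
  refine (Set.ncard_insert_le _ _).trans ?_
  exact Nat.add_le_add_right h2 1

theorem few_third {N K1 K2 : ℕ} (hK1 : 1 ≤ K1) (hK2 : 1 ≤ K2) {w : List GA} {c : (gm N K1 K2).Cfg}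
    (hi : Inv N K1 K2 w c) (h1 : c.pos ∈ c.seen) (h3 : c.pos ≤ w.length)
    {q : GQ} {x : GA ⊕ GW} {d : Bool}
    (hx : gtr1 N K1 K2 c.st (c.tape c.pos) = some (q, x, d) ∨
      gtr2 c.st (c.tape c.pos) = some (q, x, d)) : Sym.ofW x = c.tape c.pos := by
  rcases hi with ⟨_, _, h4⟩ | ⟨_, h4, _⟩ | ⟨g, H, n, hB, hS⟩
  · exact absurd (h4 _ h1) (lt_irrefl _)
  · exact absurd (h4 _ h1) (lt_irrefl _)
  · rcases move2 hK1 hK2 hB hS hx with ⟨h5 | h5, _, _⟩ | ⟨_, h5, _⟩ | ⟨_, _, _, h5, _⟩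
    · exact h5
    · omega
    · exact h5
    · exact absurd h1 h5.2.2

end WitFAux

open WitFAux in
theorem gm_few (N K1 K2 : ℕ) (hK1 : 1 ≤ K1) (hK2 : 1 ≤ K2) (cv : Bool) (k : ℕ)
    (hk : K1 * (K2 + 1) + 2 ≤ k) : FewWrites (gm N K1 K2) cv k := by
  intro w c hr
  have hi := inv_reach hK1 hK2 hr
  rw [init_eq N K1 K2 w]
  have hb : ∃ g H n, (∀ j, j ≠ g → c.tape j = itp w j ∨
      (H < j ∧ j ≤ H + n ∧ (c.tape j = Sym.wrk GW.mg ∨ c.tape j = Sym.wrk GW.mr))) ∧
      T c.tape H n ≤ K1 * (K2 + 1) + 1 := by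
    rcases hi with ⟨_, h, _⟩ | ⟨_, _, g, _, _, h, _⟩ | ⟨g, H, n, hB, hS⟩
    · exact ⟨0, 0, 0, fun j _ => Or.inl (congrFun h j), Nat.zero_le _⟩
    · exact ⟨g, 0, 0, fun j hj => Or.inl (h j hj), Nat.zero_le _⟩
    · exact ⟨g, H, n, hB.out, hS.bound⟩
  obtain ⟨g, H, n, h1, h2⟩ := hb
  obtain ⟨h3, h4⟩ := card_le h1
  exact ⟨h3, by omega, fun h5 _ h6 q x d hx _ => few_third hK1 hK2 hi h5 h6 hx⟩

end Pool.Agent.P0036f5f
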