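import Pool.Agent.Lib.P0036f5d.Main
import Pool.Agent.Lib.P0036f5f.WitA
import Pool.Agent.Lib.P0036f5f.WitF
import Pool.Agent.Lib.P0036f5f.WitC
import Pool.Agent.Lib.P0036f5f.NumF

/-!
# The cost of determinising 1-limited automata that change at most `k` cells, for every `k`
-/

set_option autoImplicit false

namespace Pool.Agent.P0036f5f

open Relation Pool.Agent.P0036f5v2 Pool.Agent.P0036f5w Pool.Agent.P0036f5g Pool.Agent.P0036f5k
  Pool.Agent.P0036f5b Pool.Agent.P0036f5d Pool.Agent.P0036f5e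

theorem finite_GA : Finite GA := by
  refine Finite.of_injective (β := Fin 7 ⊕ Bool)
    (fun y => match y with
      | .s => Sum.inl 0
      | .c => Sum.inl 1
      | .a => Sum.inl 2
      | .b => Sum.inl 3
      | .d β => Sum.inr β
      | .h => Sum.inl 4
      | .g => Sum.inl 5
      | .r => Sum.inl 6) ?_
  rintro (_ | _ | _ | _ | _ | _ | _ | _) (_ | _ | _ | _ | _ | _ | _ | _) h <;> simp_all

/-- lower bound from a path system -/
theorem lower_path {cv : Bool} {k n L D e d : ℕ} (hn : 4 ≤ n) (hL : 1 ≤ L) (hD : 1 ≤ D)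
    (he : 1 ≤ e) (hsz : 5000 * (NE L D e + D ^ e + XE L D e * D ^ e) ≤ n)
    (hk : D ^ e * (XE L D e * D ^ e + 1) + 2 ≤ k)
    (hd : IsGreatest (costsFor (fun _ M => FewWrites M cv k) cv n) d) :
    2 ^ (KE L D e * L / 2) ≤ d := by
  have fGA := finite_GA
  have hb : 1 ≤ D ^ e := Nat.one_le_pow _ _ hD
  have hX : 1 ≤ XE L D e := by
    have h1 : 0 < D ^ e := hb
    have h2 : 0 < L * (e * D ^ 2) * D ^ e := by positivity
    exact h2
  have hXb : 1 ≤ XE L D e * D ^ e := Nat.mul_pos hX hb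
  have hN : 1 ≤ NE L D e := by
    unfold NE
    exact Nat.mul_pos (Nat.mul_pos hL (by omega)) (by positivity)
  obtain ⟨s, t, hP, hU⟩ := exists_ps L D e hL hD he
  obtain ⟨M, hLg, hs, hF⟩ := gexists_small (NE L D e) (D ^ e) (XE L D e * D ^ e) hN hb hXb
  obtain ⟨x, hx, Dt, hDt, hL', hsize⟩ := exists_costFew M cv (k := k) (n := n) hn
    (hF cv k (gm_few (NE L D e) (D ^ e) (XE L D e * D ^ e) hb hXb cv k hk)) (by omega)
  have h2 := gdet_lower (K1 := D ^ e) (K2 := XE L D e * D ^ e) hP hU hL hb hXb Dt hDt cv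
    (by rw [hL', hLg cv])
  rw [hsize] at h2
  have h3 : 2 ^ (KE L D e * L / 2) ≤ x := by
    have h4 : (2 ^ (KE L D e * L / 2)) ^ 2 ≤ x ^ 2 := by
      rw [← pow_mul]
      refine le_trans (Nat.pow_le_pow_right (by norm_num) ?_) h2
      show KE L D e * L / 2 * 2 ≤ KE L D e * L
      omega
    exact (Nat.pow_le_pow_iff_left (by norm_num)).1 h4
  exact h3.trans (hd.2 hx)

/-- the exponent of the lower bound -/
def GF (n k : ℕ) : ℕ :=
  Nat.sqrt (Nat.sqrt (n ^ 3 * (min k (Nat.sqrt (n ^ 3))) ^ 2)) /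
    2 ^ (9 * Nat.sqrt (Nat.log 2 n) + 80)

theorem GF_small {n k : ℕ} (h : n < 2 ^ 128 ∨ (min k (Nat.sqrt (n ^ 3))) ^ 2 < 2 ^ 64 * n) :
    GF n k ≤ n / 2000 := by
  set k' := min k (Nat.sqrt (n ^ 3)) with hk'
  have hk : k' ^ 2 ≤ n ^ 3 := by
    have h1 : k' ≤ Nat.sqrt (n ^ 3) := min_le_right _ _
    exact (Nat.pow_le_pow_left h1 2).trans (Nat.sqrt_le' _)
  set S := Nat.sqrt (Nat.sqrt (n ^ 3 * k' ^ 2)) with hS
  have h1 : S ^ 4 ≤ n ^ 3 * k' ^ 2 := by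
    have h2 : S * S ≤ Nat.sqrt (n ^ 3 * k' ^ 2) := Nat.sqrt_le _
    have h3 : Nat.sqrt (n ^ 3 * k' ^ 2) * Nat.sqrt (n ^ 3 * k' ^ 2) ≤ n ^ 3 * k' ^ 2 :=
      Nat.sqrt_le _
    calc S ^ 4 = (S * S) * (S * S) := by ring
      _ ≤ _ := (Nat.mul_le_mul h2 h2).trans h3
  have h2 : S ≤ n * 2 ^ 64 := by
    have h3 : n ^ 3 * k' ^ 2 ≤ (n * 2 ^ 64) ^ 4 := by
      rcases h with h | h
      · calc n ^ 3 * k' ^ 2 ≤ n ^ 3 * n ^ 3 := Nat.mul_le_mul_left _ hk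
          _ = n ^ 4 * (n * n) := by ring
          _ ≤ n ^ 4 * (2 ^ 128 * 2 ^ 128) := Nat.mul_le_mul_left _ (Nat.mul_le_mul h.le h.le)
          _ = (n * 2 ^ 64) ^ 4 := by ring
      · calc n ^ 3 * k' ^ 2 ≤ n ^ 3 * (2 ^ 64 * n) := Nat.mul_le_mul_left _ h.le
          _ = n ^ 4 * 2 ^ 64 := by ring
          _ ≤ n ^ 4 * 2 ^ 256 := Nat.mul_le_mul_left _ (by norm_num)
          _ = (n * 2 ^ 64) ^ 4 := by ring
    exact (Nat.pow_le_pow_iff_left (by norm_num)).1 (h1.trans h3)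
  unfold GF
  rw [← hk', ← hS]
  calc S / 2 ^ (9 * Nat.sqrt (Nat.log 2 n) + 80) ≤ S / 2 ^ 80 :=
        Nat.div_le_div_left (Nat.pow_le_pow_right (by norm_num) (by omega)) (by positivity)
    _ ≤ (n * 2 ^ 64) / 2 ^ 80 := Nat.div_le_div_right h2
    _ ≤ n / 2000 := by omega

/-- The cost of determinising 1-limited automata that change at most `k` cells. -/
theorem main_every (cv : Bool) (k n : ℕ) (hn : 4 ≤ n) :
    ∃ d, IsGreatest (costsFor (fun _ M => FewWrites M cv k) cv n) d ∧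
      d ≤ 2 ^ (300 * (k + 1) ^ 2 * n) ∧
      d ≤ 2 ^ (30000 * (Nat.log 2 n + 1) * (Nat.log 2 (k + 1) + 1) *
        min (n + k * Nat.sqrt n) (k + n * (Nat.sqrt k + 1))) ∧
      d ≤ 2 ^ (1000 * n ^ 2 * (Nat.log 2 (k + 1) + 1)) ∧
      (1 ≤ k → 2 ^ (n / 2000) ≤ d) ∧
      (1 ≤ k → 2 ^ (Nat.sqrt (Nat.sqrt (n ^ 3 * (min k (Nat.sqrt (n ^ 3))) ^ 2)) /
        2 ^ (9 * Nat.sqrt (Nat.log 2 n) + 80)) ≤ d) ∧
      2 ^ (min k (n ^ 2) / 1000000000) ≤ d := by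
  obtain ⟨d, hd, h1, h2, h3, h4⟩ := main_all cv k n hn
  refine ⟨d, hd, h1, costsSm_le hn hd.1, h2, h3, ?_, h4⟩
  intro hk
  show 2 ^ GF n k ≤ d
  by_cases h : n < 2 ^ 128 ∨ (min k (Nat.sqrt (n ^ 3))) ^ 2 < 2 ^ 64 * n
  · exact (Nat.pow_le_pow_right (by norm_num) (GF_small h)).trans (h3 hk)
  · push Not at h
    have h5 : (min k (Nat.sqrt (n ^ 3))) ^ 2 ≤ n ^ 3 :=
      (Nat.pow_le_pow_left (min_le_right _ _) 2).trans (Nat.sqrt_le' _)
    obtain ⟨L, D, e, g1, g2, g3, g4, g5, g6⟩ := num_lowerF h.1 h5 h.2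
    refine (Nat.pow_le_pow_right (by norm_num) (le_trans ?_ g6)).trans
      (lower_path hn g1 g2 g3 g4 (g5.trans (min_le_left _ _)) hd)
    exact Nat.div_le_div_left (Nat.pow_le_pow_right (by norm_num) (by omega)) (by positivity)

end Pool.Agent.P0036f5f
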