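import Pool.Agent.Lib.P0036f5f.EDefs

/-!
# F3: accepted test words are correct

As `P0036f5e/WitB1.lean` (helper24), with `K1` groups of `K2` rows: the row `q = x K2 + y` is the row `y` of
the group `x`.  The input is `w = gX (K1 K2) L s t Fs ++ gY K1 K2 L s t G`.  After the block of `F` has been
marked, the tape is the input with the `s` of this block, the `g` cells of the groups `0, …, x` and the
`r` cells of the rows `0, …, m - 1` marked, where `x K2 ≤ m ≤ (x + 1) K2` (`m` = number of marked rows;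
`m = x K2` only in the states `lg`, `rg`, `nr`).  In the phase `q = m - 1` all rows `q' < q` have been
passed (`Ph (K1 K2) s t F G q' L q'`); in the states `lg`, `rg`, `nr` (and `fr`, `m = 0`) all rows `q' < m` have
been passed.  `lg j` / `rg j`: counting the marked groups as `lc`, `rc` of part E count rows; `rg`
reaches the last marked group and `nr` the fresh row behind it.  `lc j`, `rc j`: counting the marked rows
of the last group (`lc` turns at the last marked `g`), `rc` reaches the last marked row in the state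
`ra 0`.  The other states are as in part E; `rh` passes marked `g` and `r`, but not unmarked ones, so the
rows it can enter are `≤ q`.  `bk 0` at an unmarked `g` or `r` or at the right end-marker: the row `q` has
been passed (`p1 = q`, `l + 1 = L`), for `g`: `q + 1 = (x + 1) K2`.
The positions in the test are described by the functions `E q` (the cell behind the row `q - 1`: the cell
`g` of a group, the cell `r` of the row `q` or the right end-marker), `R q` (the cell `r` of the row `q`) and
`S q l` (the first cell of the segment `(q, l)`).  The marks are described by the frontier `P`: all cells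
`g` and `r` before `P` have been marked, and `P` is the next such cell or the right end-marker.
-/

set_option autoImplicit false

namespace Pool.Agent.P0036f5f

open Relation Pool.Agent.P0036f5v2 Pool.Agent.P0036f5w Pool.Agent.P0036f5g Pool.Agent.P0036f5k
  Pool.Agent.P0036f5e Classical

namespace WitB1Aux

/-- an entry of the marked block at the position `e` -/
def Ent (k' L : ℕ) (s t : ℕ → ℕ → ℕ) (F : ℕ → ℕ → Bool) (Z : ℕ) (T : ℕ → Sym GA GW)
    (e r l : ℕ) : Prop :=
  r < k' ∧ l < L ∧ (∀ u < s r l, T (e + 1 + u) = .inp .a) ∧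
    (∀ u < t r l, T (e + 1 + s r l + u) = .inp .b) ∧
    T (e + 1 + s r l + t r l) = .inp (.d (F r l)) ∧ e + 1 + s r l + t r l < Z

/-- what is needed about the initial tape; `Z` is the position after the block -/
structure TF (k' K2 L A H Z : ℕ) (s t : ℕ → ℕ → ℕ) (F G : ℕ → ℕ → Bool) (E R : ℕ → ℕ)
    (S : ℕ → ℕ → ℕ) (T : ℕ → Sym GA GW) : Prop where
  hK : 1 ≤ K2
  hk : K2 ∣ k'
  hA : 1 ≤ A
  hAZ : A < Z
  hZH : Z ≤ H
  T0 : T 0 = .lend
  fH : T H = .inp .h
  E0 : E 0 = H + 1
  Rg : ∀ q, K2 ∣ q → R q = E q + 1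
  Rn : ∀ q, ¬ K2 ∣ q → R q = E q
  S0 : ∀ q < k', S q 0 = R q + 1
  SL : ∀ q < k', S q L = E (q + 1)
  SS : ∀ q < k', ∀ l < L, S q (l + 1) = S q l + s q l + 1 + t q l
  fg : ∀ q < k', K2 ∣ q → T (E q) = .inp .g
  fr : ∀ q < k', T (R q) = .inp .r
  fa : ∀ q < k', ∀ l < L, ∀ u < s q l, T (S q l + u) = .inp .a
  fd : ∀ q < k', ∀ l < L, T (S q l + s q l) = .inp (.d (G q l))
  fb : ∀ q < k', ∀ l < L, ∀ u < t q l, T (S q l + s q l + 1 + u) = .inp .b
  fe : T (E k') = .rend
  fk : ∀ p, 1 ≤ p → p < H → ∃ x, T p = .inp x ∧ x.blk = true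
  fZ : T Z = .inp .s ∨ T Z = .inp .h
  fc : ∀ p, A < p → p < Z → T p = .inp .c → ∃ r l, Ent k' L s t F Z T p r l

/-- the mark of a cell -/
def mkc : Sym GA GW → Sym GA GW
  | .inp .g => .wrk .mg
  | .inp .r => .wrk .mr
  | y => y

/-- the tape with the frontier `P` -/
noncomputable def TK (A : ℕ) (T : ℕ → Sym GA GW) (P p : ℕ) : Sym GA GW :=
  if p = A then .wrk .ms else if p < P then mkc (T p) else T p

/-- the group `i` of the test, `0` is the cell `h` -/
def Grp (K2 H : ℕ) (E : ℕ → ℕ) : ℕ → ℕ → Prop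
  | 0, p => p = H
  | i + 1, p => E (i * K2) ≤ p ∧ p < E ((i + 1) * K2)

/-- the row `i` of a group that starts with the row `b`, `0` is the cell `g` -/
def Row (E R : ℕ → ℕ) (b : ℕ) : ℕ → ℕ → Prop
  | 0, p => p = E b
  | i + 1, p => R (b + i) ≤ p ∧ p < E (b + i + 1)

/-- all rows before the row `q` have been passed -/
def Dn (k' L : ℕ) (s t : ℕ → ℕ → ℕ) (F G : ℕ → ℕ → Bool) (q : ℕ) : Prop :=
  ∀ x < q, Ph k' s t F G x L x

/-- the machine is in the row `p` before the segment `l` -/
def Dat (k' L : ℕ) (s t : ℕ → ℕ → ℕ) (F G : ℕ → ℕ → Bool) (E : ℕ → ℕ) (P p l : ℕ) : Prop :=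
  ∃ q, P = E (q + 1) ∧ q < k' ∧ p ≤ q ∧ l < L ∧ Ph k' s t F G q l p ∧ Dn k' L s t F G q

/-- the state part of the invariant -/
def St (k' K2 L A H Z : ℕ) (s t : ℕ → ℕ → ℕ) (F G : ℕ → ℕ → Bool) (E R : ℕ → ℕ)
    (S : ℕ → ℕ → ℕ) (T : ℕ → Sym GA GW) (P : ℕ) : GQ → ℕ → Prop
  | .scan, _ => False
  | .mid, p => P = E 0 ∧ A < p ∧ p ≤ H
  | .fr, p => P = E 0 ∧ p = H + 1
  | .fin, _ => ∀ q < k', Ph k' s t F G q L q
  | .nr, p => ∃ x, P = E (x * K2) + 1 ∧ x * K2 < k' ∧ Dn k' L s t F G (x * K2) ∧ p = P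
  | .lg j, p => ∃ x i, P = E (x * K2) + 1 ∧ x * K2 < k' ∧ Dn k' L s t F G (x * K2) ∧
      i + j = x + 1 ∧ 1 ≤ j ∧ Grp K2 H E i p
  | .rg j, p => ∃ x i p', p = p' + 1 ∧ P = E (x * K2) + 1 ∧ x * K2 < k' ∧
      Dn k' L s t F G (x * K2) ∧ i + j = x + 1 ∧ 1 ≤ j ∧ Grp K2 H E i p'
  | .lc j, p => ∃ x y i, y < K2 ∧ x * K2 + y < k' ∧ P = E (x * K2 + y + 1) ∧
      Dn k' L s t F G (x * K2 + y) ∧ i + j = y + 1 ∧ 1 ≤ j ∧ Row E R (x * K2) i p
  | .rc j, p => ∃ x y i p', p = p' + 1 ∧ y < K2 ∧ x * K2 + y < k' ∧ P = E (x * K2 + y + 1) ∧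
      Dn k' L s t F G (x * K2 + y) ∧ i + j = y + 1 ∧ 1 ≤ j ∧ Row E R (x * K2) i p'
  | .ra i, p => ∃ q' l, Dat k' L s t F G E P q' l ∧ i ≤ s q' l ∧ p = S q' l + i
  | .gl β i, p => ∃ q' l, Dat k' L s t F G E P q' l ∧ i = s q' l ∧ β = G q' l ∧ H ≤ p ∧ p < P
  | .lf β i, p => ∃ q' l, Dat k' L s t F G E P q' l ∧ i = s q' l ∧ β = G q' l ∧ A ≤ p ∧ p < H
  | .se β i, p => ∃ q' l, Dat k' L s t F G E P q' l ∧ i = s q' l ∧ β = G q' l ∧ A < p ∧ p ≤ Z
  | .ca β i, p => ∃ q' l e r l1 u, Dat k' L s t F G E P q' l ∧ β = G q' l ∧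
      Ent k' L s t F Z T e r l1 ∧ A < e ∧ i + u = s q' l ∧ u ≤ s r l1 ∧ p = e + 1 + u
  | .cb β j, p => ∃ q' l e r, Dat k' L s t F G E P q' l ∧ β = G q' l ∧
      Ent k' L s t F Z T e r l ∧ A < e ∧ s r l = s q' l ∧ 1 ≤ j ∧ j ≤ t r l ∧
      p = e + 1 + s r l + j
  | .rt j, p => ∃ q' l r, Dat k' L s t F G E P q' l ∧ r < k' ∧ s r l = s q' l ∧
      F r l = G q' l ∧ j = t r l ∧ A < p ∧ p ≤ H
  | .rh j, p => ∃ q' l r, Dat k' L s t F G E P q' l ∧ r < k' ∧ s r l = s q' l ∧
      F r l = G q' l ∧ j = t r l ∧ H < p ∧ p ≤ P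
  | .bk j, p => ∃ q' l r p1 l1 v, Dat k' L s t F G E P q' l ∧ r < k' ∧ s r l = s q' l ∧
      F r l = G q' l ∧ p1 < k' ∧ E (p1 + 1) ≤ P ∧ l1 < L ∧ v ≤ t p1 l1 ∧ j + v = t r l ∧
      p = S p1 l1 + s p1 l1 + 1 + v

section

variable {k' K2 L A H Z N M1 M2 P : ℕ} {s t : ℕ → ℕ → ℕ} {F G : ℕ → ℕ → Bool} {E R : ℕ → ℕ}
  {S : ℕ → ℕ → ℕ} {T : ℕ → Sym GA GW}

theorem TF.smono (h : TF k' K2 L A H Z s t F G E R S T) {q : ℕ} (hq : q < k') :
    ∀ l ≤ L, R q + 1 ≤ S q l := by
  intro l
  induction l with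
  | zero => intro _; rw [h.S0 q hq]
  | succ l ih => intro hl; have := ih (by omega); rw [h.SS q hq l (by omega)]; omega

theorem TF.smono' (h : TF k' K2 L A H Z s t F G E R S T) {q : ℕ} (hq : q < k') {l : ℕ}
    (hl : l ≤ L) : S q l ≤ E (q + 1) := by
  rw [← h.SL q hq]
  have key : ∀ n l, l + n = L → S q l ≤ S q L := by
    intro n
    induction n with
    | zero => intro l h1; rw [← h1]; rfl
    | succ n ih =>
      intro l h1
      have h2 := ih (l + 1) (by omega)
      rw [h.SS q hq l (by omega)] at h2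
      omega
  exact key (L - l) l (by omega)

theorem TF.rE (h : TF k' K2 L A H Z s t F G E R S T) (q : ℕ) : E q ≤ R q ∧ R q ≤ E q + 1 := by
  by_cases hd : K2 ∣ q
  · have := h.Rg q hd; omega
  · have := h.Rn q hd; omega

theorem TF.rmono (h : TF k' K2 L A H Z s t F G E R S T) {q : ℕ} (hq : q < k') :
    R q < E (q + 1) := by
  have h1 := h.smono hq L le_rfl
  rw [h.SL q hq] at h1
  omega

theorem TF.emono (h : TF k' K2 L A H Z s t F G E R S T) {q : ℕ} (hq : q < k') :
    E q < E (q + 1) := by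
  have h1 := h.rmono hq
  have h2 := h.rE q
  omega

theorem TF.ele (h : TF k' K2 L A H Z s t F G E R S T) {q q' : ℕ} (h1 : q ≤ q') (h2 : q' ≤ k') :
    E q ≤ E q' := by
  induction q' with
  | zero => rw [Nat.le_zero.1 h1]
  | succ n ih =>
    rcases Nat.lt_or_ge n q with h3 | h3
    · have : q = n + 1 := by omega
      rw [this]
    · exact (ih h3 (by omega)).trans (h.emono (by omega)).le

theorem TF.elt (h : TF k' K2 L A H Z s t F G E R S T) {q q' : ℕ} (h1 : q < q') (h2 : q' ≤ k') :
    E q < E q' :=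
  lt_of_lt_of_le (h.emono (by omega)) (h.ele h1 h2)

/-- a row before the frontier -/
theorem TF.rlt (h : TF k' K2 L A H Z s t F G E R S T) {q q' : ℕ} (h1 : q < q') (h2 : q' ≤ k') :
    R q < E q' :=
  lt_of_lt_of_le (h.rmono (by omega)) (h.ele h1 h2)

theorem TF.hE (h : TF k' K2 L A H Z s t F G E R S T) {q : ℕ} (h1 : q ≤ k') : H < E q := by
  have := h.ele (Nat.zero_le q) h1
  rw [h.E0] at this
  omega

theorem TF.hAH (h : TF k' K2 L A H Z s t F G E R S T) : A < H := by
  have := h.hAZ
  have := h.hZH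
  omega

/-- the row of a position -/
theorem TF.cell (h : TF k' K2 L A H Z s t F G E R S T) {p : ℕ} (hp : H < p) :
    ∀ n ≤ k', p < E n → ∃ q < n, E q ≤ p ∧ p < E (q + 1) := by
  intro n
  induction n with
  | zero => intro _ h1; rw [h.E0] at h1; omega
  | succ n ih =>
    intro hn h1
    rcases Nat.lt_or_ge p (E n) with h2 | h2
    · obtain ⟨q, h3, h4⟩ := ih (by omega) h2
      exact ⟨q, by omega, h4⟩
    · exact ⟨n, by omega, h2, h1⟩

/-- the segment of a position -/
theorem TF.seg (h : TF k' K2 L A H Z s t F G E R S T) {q p : ℕ} (hq : q < k') (hp : R q < p) :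
    ∀ n ≤ L, p < S q n → ∃ l < n, S q l ≤ p ∧ p < S q (l + 1) := by
  intro n
  induction n with
  | zero => intro _ h1; rw [h.S0 q hq] at h1; omega
  | succ n ih =>
    intro hn h1
    rcases Nat.lt_or_ge p (S q n) with h2 | h2
    · obtain ⟨l, h3, h4⟩ := ih (by omega) h2
      exact ⟨l, by omega, h4⟩
    · exact ⟨n, by omega, h2, h1⟩

/-- the letters inside the rows -/
theorem TF.letter (h : TF k' K2 L A H Z s t F G E R S T) {q p : ℕ} (hq : q < k') (hp : R q < p)
    (hp' : p < E (q + 1)) : ∃ l < L, T p = .inp .a ∨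
      (p = S q l + s q l ∧ T p = .inp (.d (G q l))) ∨ T p = .inp .b := by
  rw [← h.SL q hq] at hp'
  obtain ⟨l, hl, h1, h2⟩ := h.seg hq hp L le_rfl hp'
  rw [h.SS q hq l hl] at h2
  refine ⟨l, hl, ?_⟩
  rcases Nat.lt_trichotomy p (S q l + s q l) with h3 | h3 | h3
  · left
    have h4 := h.fa q hq l hl (p - S q l) (by omega)
    rw [Nat.add_sub_cancel' h1] at h4
    exact h4
  · right; left
    exact ⟨h3, by rw [h3]; exact h.fd q hq l hl⟩
  · right; right
    have h4 := h.fb q hq l hl (p - (S q l + s q l + 1)) (by omega)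
    rw [Nat.add_sub_cancel' (by omega)] at h4
    exact h4

theorem TF.rowl (h : TF k' K2 L A H Z s t F G E R S T) {q p : ℕ} (hq : q < k') (hp : R q < p)
    (hp' : p < E (q + 1)) : ∃ y, T p = .inp y ∧ y.row = true := by
  obtain ⟨l, _, h1 | ⟨_, h1⟩ | h1⟩ := h.letter hq hp hp'
  · exact ⟨_, h1, rfl⟩
  · exact ⟨_, h1, rfl⟩
  · exact ⟨_, h1, rfl⟩

/-- a cell of the row `q` or of the letter `g` before it -/
theorem TF.kind (h : TF k' K2 L A H Z s t F G E R S T) {q p : ℕ} (hp : E q ≤ p)
    (hp' : p < E (q + 1)) : (K2 ∣ q ∧ p = E q) ∨ p = R q ∨ (R q < p ∧ p < E (q + 1)) := by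
  by_cases hd : K2 ∣ q
  · have := h.Rg q hd; omega
  · have := h.Rn q hd; omega

theorem mkc_row {y : GA} (hy : y.row = true) : mkc (.inp y) = .inp y := by
  cases y <;> simp [GA.row] at hy <;> rfl

theorem mkc_blk {y : GA} (hy : y.blk = true) : mkc (.inp y) = .inp y := by
  cases y <;> simp [GA.blk] at hy <;> rfl

theorem tk_A : TK A T P A = .wrk .ms := by simp [TK]

theorem TF.tk_low (h : TF k' K2 L A H Z s t F G E R S T) {p : ℕ} (h1 : p ≠ A)
    (h2 : p ≤ H) : TK A T P p = T p := by
  unfold TK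
  rw [if_neg h1]
  have h3 : mkc (T p) = T p := by
    rcases Nat.eq_zero_or_pos p with h4 | h4
    · rw [h4, h.T0]; rfl
    · rcases Nat.eq_or_lt_of_le h2 with h5 | h5
      · rw [h5, h.fH]; rfl
      · obtain ⟨y, hy, hb⟩ := h.fk p h4 h5
        rw [hy, mkc_blk hb]
  split_ifs
  · exact h3
  · rfl

theorem TF.tk_g (h : TF k' K2 L A H Z s t F G E R S T) {q : ℕ} (hq : q < k') (hd : K2 ∣ q)
    (hP : E q < P) : TK A T P (E q) = .wrk .mg := by
  unfold TK
  have := h.hE (q := q) (by omega)
  have := h.hAH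
  rw [if_neg (by omega), if_pos hP, h.fg q hq hd]
  rfl

theorem TF.tk_r (h : TF k' K2 L A H Z s t F G E R S T) {q : ℕ} (hq : q < k')
    (hP : R q < P) : TK A T P (R q) = .wrk .mr := by
  unfold TK
  have := h.hE (q := q) (by omega)
  have := h.rE q
  have := h.hAH
  rw [if_neg (by omega), if_pos hP, h.fr q hq]
  rfl

theorem TF.tk_fresh (h : TF k' K2 L A H Z s t F G E R S T) (hP : H < P) :
    TK A T P P = T P := by
  unfold TK
  have := h.hAH
  rw [if_neg (by omega), if_neg (lt_irrefl _)]

theorem TF.tk_in (h : TF k' K2 L A H Z s t F G E R S T) {q p : ℕ} (hq : q < k')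
    (hp : R q < p) (hp' : p < E (q + 1)) : TK A T P p = T p := by
  unfold TK
  have := h.hE hq.le
  have := h.rE q
  have := h.hAH
  obtain ⟨y, hy, hb⟩ := h.rowl hq hp hp'
  rw [if_neg (by omega), hy, mkc_row hb]
  split_ifs <;> rfl

/-- what one step gives -/
def Out (k' K2 L A H Z : ℕ) (s t : ℕ → ℕ → ℕ) (F G : ℕ → ℕ → Bool) (E R : ℕ → ℕ)
    (S : ℕ → ℕ → ℕ) (T : ℕ → Sym GA GW) (P p : ℕ) (q' : GQ) (x : GA ⊕ GW) (d : Bool) : Prop :=
  ((Sym.ofW x = TK A T P p ∨ p = E k') ∧ (p < P ∨ p = E k') ∧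
      St k' K2 L A H Z s t F G E R S T P q' (if d = true then p + 1 else p - 1)) ∨
    (p = P ∧ H < P ∧ P < E k' ∧ Sym.ofW x = mkc (T P) ∧ ∃ P', P < P' ∧ P' ≤ E k' ∧
      (∀ i, P < i → i < P' → mkc (T i) = T i) ∧
      St k' K2 L A H Z s t F G E R S T P' q' (if d = true then p + 1 else p - 1))

theorem step_mid (h : TF k' K2 L A H Z s t F G E R S T) {p : ℕ} {q' : GQ} {x : GA ⊕ GW} {d : Bool}
    (hst : St k' K2 L A H Z s t F G E R S T P .mid p)
    (htr : gtr1 N M1 M2 .mid (TK A T P p) = some (q', x, d)) :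
    Out k' K2 L A H Z s t F G E R S T P p q' x d := by
  obtain ⟨h1, h2, h3⟩ := hst
  have e : TK A T P p = T p := h.tk_low (by omega) h3
  have hE := h.E0
  left
  rcases Nat.lt_or_ge p H with hp | hp
  · obtain ⟨y, hy, hb⟩ := h.fk p (by omega) hp
    rw [e, hy] at htr
    simp only [gtr1, if_pos hb, Option.some.injEq, Prod.mk.injEq] at htr
    obtain ⟨rfl, rfl, rfl⟩ := htr
    refine ⟨Or.inl (by rw [e, hy]; rfl), by omega, ?_⟩
    simp only [St, if_true]
    exact ⟨h1, by omega, by omega⟩
  · have hpe : p = H := by omega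
    subst hpe
    rw [e, h.fH] at htr
    simp only [gtr1, GA.blk, Bool.false_eq_true, if_false, if_true, Option.some.injEq,
      Prod.mk.injEq] at htr
    obtain ⟨rfl, rfl, rfl⟩ := htr
    refine ⟨Or.inl (by rw [e, h.fH]; rfl), by omega, ?_⟩
    simp only [St, if_true]
    exact ⟨h1, trivial⟩

theorem step_fr (h : TF k' K2 L A H Z s t F G E R S T) {p : ℕ} {q' : GQ} {x : GA ⊕ GW} {d : Bool}
    (hst : St k' K2 L A H Z s t F G E R S T P .fr p)
    (htr : gtr1 N M1 M2 .fr (TK A T P p) = some (q', x, d)) :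
    Out k' K2 L A H Z s t F G E R S T P p q' x d := by
  obtain ⟨h1, h2⟩ := hst
  rw [← h.E0, ← h1] at h2
  subst h2
  have hE0 := h.E0
  have e : TK A T p p = T p := h.tk_fresh (by omega)
  rcases Nat.eq_zero_or_pos k' with hk | hk
  · exfalso
    have h3 := h.fe
    rw [hk, ← h1] at h3
    rw [e, h3] at htr
    simp [gtr1] at htr
  · have h3 := h.fg 0 hk (Dvd.intro 0 rfl)
    rw [← h1] at h3
    rw [e, h3] at htr
    simp only [gtr1, Option.some.injEq, Prod.mk.injEq] at htr
    obtain ⟨rfl, rfl, rfl⟩ := htr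
    have hlt := h.elt hk le_rfl
    right
    refine ⟨rfl, by omega, by omega, by rw [h3]; rfl, p + 1, by omega, by omega, ?_, ?_⟩
    · intro i hi1 hi2; omega
    · simp only [St, Bool.false_eq_true, if_false]
      refine ⟨0, 0, by rw [Nat.zero_mul, h1], by omega, ?_, rfl, le_rfl, ?_⟩
      · intro x hx
        rw [Nat.zero_mul] at hx
        exact absurd hx (Nat.not_lt_zero _)
      · simp only [Grp]
        omega

/-- the groups before the frontier -/
theorem TF.gstep (h : TF k' K2 L A H Z s t F G E R S T) {z p : ℕ} (hz : (z + 1) * K2 ≤ k')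
    (h1 : E (z * K2) < p) (h2 : p < E ((z + 1) * K2)) :
    ∃ q, q < (z + 1) * K2 ∧ (p = R q ∨ (R q < p ∧ p < E (q + 1))) := by
  have hK := h.hK
  have hz0 : z * K2 ≤ k' := le_trans (Nat.mul_le_mul_right _ (Nat.le_succ z)) hz
  have h0 := h.hE hz0
  obtain ⟨q, q1, q2, q3⟩ := h.cell (p := p) (by omega) _ hz h2
  refine ⟨q, q1, ?_⟩
  rcases h.kind q2 q3 with ⟨⟨c, hc⟩, h4⟩ | h4 | h4
  · exfalso
    subst hc
    have h5 : z * K2 < K2 * c := by
      by_contra hcon
      have := h.ele (q := K2 * c) (q' := z * K2) (by omega) hz0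
      omega
    rw [Nat.mul_comm K2 c] at h5 q1
    have h6 : z < c := Nat.lt_of_mul_lt_mul_right h5
    have h7 : c < z + 1 := Nat.lt_of_mul_lt_mul_right q1
    omega
  · exact Or.inl h4
  · exact Or.inr h4

theorem step_lg (h : TF k' K2 L A H Z s t F G E R S T) {p j : ℕ} {q' : GQ} {x : GA ⊕ GW} {d : Bool}
    (hst : St k' K2 L A H Z s t F G E R S T P (.lg j) p)
    (htr : gtr1 N M1 M2 (.lg j) (TK A T P p) = some (q', x, d)) :
    Out k' K2 L A H Z s t F G E R S T P p q' x d := by
  obtain ⟨X, i, h1, h2, h3, h4, h5, h6⟩ := hst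
  have hK := h.hK
  have hEX := h.hE h2.le
  left
  cases i with
  | zero =>
    have hpe : p = H := h6
    subst hpe
    have e : TK A T P p = T p := h.tk_low (by have := h.hAH; omega) le_rfl
    rw [e, h.fH] at htr
    simp only [gtr1, GA.row, Bool.false_eq_true, if_false, if_true, Option.some.injEq,
      Prod.mk.injEq] at htr
    obtain ⟨rfl, rfl, rfl⟩ := htr
    refine ⟨Or.inl (by rw [e, h.fH]; rfl), Or.inl (by omega), ?_⟩
    simp only [St, if_true]
    exact ⟨X, 0, p, rfl, h1, h2, h3, h4, h5, rfl⟩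
  | succ z =>
    obtain ⟨h6, h7⟩ := h6
    have hzX : (z + 1) * K2 ≤ X * K2 := Nat.mul_le_mul_right _ (by omega)
    have hzk : z * K2 < k' := lt_of_lt_of_le (by rw [Nat.add_mul]; omega) (hzX.trans h2.le)
    have hm : E ((z + 1) * K2) ≤ E (X * K2) := h.ele hzX h2.le
    rcases Nat.eq_or_lt_of_le h6 with h8 | h8
    · have e := h.tk_g (P := P) hzk (Dvd.intro_left z rfl) (by omega)
      rw [← h8, e] at htr
      simp only [gtr1] at htr
      split_ifs at htr with hj
      simp only [Option.some.injEq, Prod.mk.injEq] at htr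
      obtain ⟨rfl, rfl, rfl⟩ := htr
      refine ⟨Or.inl (by rw [← h8, e]; rfl), Or.inl (by omega), ?_⟩
      simp only [St, Bool.false_eq_true, if_false]
      refine ⟨X, z, h1, h2, h3, by omega, by omega, ?_⟩
      cases z with
      | zero => simp only [Grp]; rw [Nat.zero_mul, h.E0] at h8; omega
      | succ z =>
        simp only [Grp]
        have := h.elt (q := z * K2) (q' := (z + 1) * K2) (by rw [Nat.add_mul]; omega) hzk.le
        omega
    · obtain ⟨q, q1, q2⟩ := h.gstep (by omega) h8 h7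
      have hq : q < k' := by omega
      rcases q2 with q2 | ⟨q2, q3⟩
      · have hr := h.rlt (q := q) (q' := X * K2) (by omega) h2.le
        have e := h.tk_r (P := P) hq (by omega)
        rw [q2, e] at htr
        simp only [gtr1, Option.some.injEq, Prod.mk.injEq] at htr
        obtain ⟨rfl, rfl, rfl⟩ := htr
        refine ⟨Or.inl (by rw [q2, e]; rfl), Or.inl (by omega), ?_⟩
        simp only [St, Bool.false_eq_true, if_false]
        refine ⟨X, z + 1, h1, h2, h3, h4, h5, ?_⟩
        simp only [Grp]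
        omega
      · have e := h.tk_in (P := P) hq q2 q3
        obtain ⟨y, hy, hb⟩ := h.rowl hq q2 q3
        rw [e, hy] at htr
        simp only [gtr1, if_pos hb, Option.some.injEq, Prod.mk.injEq] at htr
        obtain ⟨rfl, rfl, rfl⟩ := htr
        refine ⟨Or.inl (by rw [e, hy]; rfl), Or.inl (by omega), ?_⟩
        simp only [St, Bool.false_eq_true, if_false]
        refine ⟨X, z + 1, h1, h2, h3, h4, h5, ?_⟩
        simp only [Grp]
        omega

theorem step_rg (h : TF k' K2 L A H Z s t F G E R S T) {p j : ℕ} {q' : GQ}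
    {x : GA ⊕ GW} {d : Bool}
    (hst : St k' K2 L A H Z s t F G E R S T P (.rg j) p)
    (htr : gtr1 N M1 M2 (.rg j) (TK A T P p) = some (q', x, d)) :
    Out k' K2 L A H Z s t F G E R S T P p q' x d := by
  obtain ⟨X, i, p', rfl, h1, h2, h3, h4, h5, h6⟩ := hst
  have hK := h.hK
  left
  have hiX : i * K2 ≤ X * K2 := Nat.mul_le_mul_right _ (by omega)
  have hi : E (i * K2) ≤ E (X * K2) := h.ele hiX h2.le
  have h0 : (p' + 1 = E (i * K2)) ∨ (∃ i', i = i' + 1 ∧ E (i' * K2) < p' + 1 ∧
      p' + 1 < E (i * K2)) := by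
    cases i with
    | zero =>
      have : p' = H := h6
      have := h.E0
      left; rw [Nat.zero_mul]; omega
    | succ i =>
      obtain ⟨h6, h7⟩ := h6
      by_cases hc : p' + 1 = E ((i + 1) * K2)
      · left; exact hc
      · right; exact ⟨i, rfl, by omega, by omega⟩
  rcases h0 with h0 | ⟨i', rfl, h7, h8⟩
  · have e := h.tk_g (q := i * K2) (P := P) (by omega) (Dvd.intro_left i rfl) (by omega)
    rw [h0, e] at htr
    obtain ⟨j', rfl⟩ : ∃ j', j = j' + 1 := ⟨j - 1, by omega⟩
    cases j' with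
    | zero =>
      simp only [gtr1, Option.some.injEq, Prod.mk.injEq] at htr
      obtain ⟨rfl, rfl, rfl⟩ := htr
      have hiX' : i = X := by omega
      subst hiX'
      refine ⟨Or.inl (by rw [h0, e]; rfl), Or.inl (by omega), ?_⟩
      simp only [St, if_true]
      exact ⟨i, h1, h2, h3, by omega⟩
    | succ j' =>
      simp only [gtr1, Option.some.injEq, Prod.mk.injEq] at htr
      obtain ⟨rfl, rfl, rfl⟩ := htr
      refine ⟨Or.inl (by rw [h0, e]; rfl), Or.inl (by omega), ?_⟩
      simp only [St, if_true]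
      refine ⟨X, i + 1, p' + 1, rfl, h1, h2, h3, by omega, by omega, ?_⟩
      simp only [Grp]
      have h9 : (i + 1) * K2 ≤ X * K2 := Nat.mul_le_mul_right _ (by omega)
      have := h.elt (q := i * K2) (q' := (i + 1) * K2) (by rw [Nat.add_mul]; omega) (by omega)
      omega
  · obtain ⟨q, q1, q2⟩ := h.gstep (by omega) h7 h8
    have hq : q < k' := by omega
    rcases q2 with q2 | ⟨q2, q3⟩
    · have hr := h.rlt (q := q) (q' := X * K2) (by omega) h2.le
      have e := h.tk_r (P := P) hq (by omega)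
      rw [q2, e] at htr
      simp only [gtr1, Option.some.injEq, Prod.mk.injEq] at htr
      obtain ⟨rfl, rfl, rfl⟩ := htr
      refine ⟨Or.inl (by rw [q2, e]; rfl), Or.inl (by omega), ?_⟩
      simp only [St, if_true]
      refine ⟨X, i' + 1, p' + 1, rfl, h1, h2, h3, h4, h5, ?_⟩
      simp only [Grp]
      omega
    · have e := h.tk_in (P := P) hq q2 q3
      obtain ⟨y, hy, hb⟩ := h.rowl hq q2 q3
      rw [e, hy] at htr
      simp only [gtr1, if_pos hb, Option.some.injEq, Prod.mk.injEq] at htr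
      obtain ⟨rfl, rfl, rfl⟩ := htr
      refine ⟨Or.inl (by rw [e, hy]; rfl), Or.inl (by omega), ?_⟩
      simp only [St, if_true]
      refine ⟨X, i' + 1, p' + 1, rfl, h1, h2, h3, h4, h5, ?_⟩
      simp only [Grp]
      omega

/-- the next cell after a fresh row has been marked -/
theorem TF.next_r (h : TF k' K2 L A H Z s t F G E R S T) {q : ℕ} (hq : q < k') :
    R q < E (q + 1) ∧ E (q + 1) ≤ E k' ∧ ∀ i, R q < i → i < E (q + 1) → mkc (T i) = T i := by
  refine ⟨h.rmono hq, h.ele hq le_rfl, ?_⟩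
  intro i h1 h2
  obtain ⟨y, hy, hb⟩ := h.rowl hq h1 h2
  rw [hy, mkc_row hb]

theorem step_nr (h : TF k' K2 L A H Z s t F G E R S T) {p : ℕ} {q' : GQ} {x : GA ⊕ GW} {d : Bool}
    (hst : St k' K2 L A H Z s t F G E R S T P .nr p)
    (htr : gtr1 N M1 M2 .nr (TK A T P p) = some (q', x, d)) :
    Out k' K2 L A H Z s t F G E R S T P p q' x d := by
  obtain ⟨X, h1, h2, h3, h4⟩ := hst
  have hK := h.hK
  have hEX := h.hE h2.le
  have hR := h.Rg (X * K2) (Dvd.intro_left X rfl)
  rw [← h1] at hR
  have e : TK A T P p = .inp .r := by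
    rw [h4, h.tk_fresh (by omega), ← hR]
    exact h.fr _ h2
  rw [e] at htr
  simp only [gtr1, Option.some.injEq, Prod.mk.injEq] at htr
  obtain ⟨rfl, rfl, rfl⟩ := htr
  obtain ⟨n1, n2, n3⟩ := h.next_r h2
  rw [hR] at n1 n3
  right
  refine ⟨h4, by omega, by omega, ?_, E (X * K2 + 1), n1, n2, n3, ?_⟩
  · have h5 := h.fr _ h2
    rw [hR] at h5
    rw [h5]; rfl
  · simp only [St, Bool.false_eq_true, if_false]
    refine ⟨X, 0, 0, by omega, by omega, rfl, by simpa using h3, rfl, le_rfl, ?_⟩
    simp only [Row]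
    omega

theorem not_dvd_mid {K2 X z : ℕ} (h1 : 0 < z) (h2 : z < K2) : ¬ K2 ∣ X * K2 + z := by
  intro hd
  have h3 : K2 ∣ z := (Nat.dvd_add_right (Dvd.intro_left X rfl)).1 hd
  exact absurd (Nat.le_of_dvd h1 h3) (by omega)

theorem step_lc (h : TF k' K2 L A H Z s t F G E R S T) {p j : ℕ} {q' : GQ} {x : GA ⊕ GW} {d : Bool}
    (hst : St k' K2 L A H Z s t F G E R S T P (.lc j) p)
    (htr : gtr1 N M1 M2 (.lc j) (TK A T P p) = some (q', x, d)) :
    Out k' K2 L A H Z s t F G E R S T P p q' x d := by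
  obtain ⟨X, Y, i, h1, h2, h3, h4, h5, h6, h7⟩ := hst
  have hK := h.hK
  left
  cases i with
  | zero =>
    have hpe : p = E (X * K2) := h7
    have hlt := h.elt (q := X * K2) (q' := X * K2 + Y + 1) (by omega) (by omega)
    have e := h.tk_g (P := P) (q := X * K2) (by omega) (Dvd.intro_left X rfl) (by omega)
    rw [hpe, e] at htr
    simp only [gtr1, Option.some.injEq, Prod.mk.injEq] at htr
    obtain ⟨rfl, rfl, rfl⟩ := htr
    refine ⟨Or.inl (by rw [hpe, e]; rfl), Or.inl (by omega), ?_⟩
    simp only [St, if_true]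
    exact ⟨X, Y, 0, p, rfl, h1, h2, h3, h4, h5, h6, hpe⟩
  | succ z =>
    obtain ⟨h7, h8⟩ := h7
    have hm : E (X * K2 + z + 1) ≤ P := by rw [h3]; exact h.ele (by omega) (by omega)
    have hq : X * K2 + z < k' := by omega
    rcases Nat.eq_or_lt_of_le h7 with h9 | h9
    · have e := h.tk_r (P := P) hq (by omega)
      rw [← h9, e] at htr
      simp only [gtr1] at htr
      split_ifs at htr with hj
      simp only [Option.some.injEq, Prod.mk.injEq] at htr
      obtain ⟨rfl, rfl, rfl⟩ := htr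
      refine ⟨Or.inl (by rw [← h9, e]; rfl), Or.inl (by omega), ?_⟩
      simp only [St, Bool.false_eq_true, if_false]
      refine ⟨X, Y, z, h1, h2, h3, h4, by omega, by omega, ?_⟩
      cases z with
      | zero =>
        simp only [Row]
        have := h.Rg (X * K2 + 0) (Dvd.intro_left X rfl)
        rw [Nat.add_zero] at this h9
        omega
      | succ z =>
        simp only [Row]
        have h10 := h.Rn (X * K2 + (z + 1)) (not_dvd_mid (by omega) (by omega))
        have h11 := h.rmono (q := X * K2 + z) (by omega)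
        rw [← Nat.add_assoc] at h10 h9
        omega
    · have e := h.tk_in (P := P) hq h9 h8
      obtain ⟨y, hy, hb⟩ := h.rowl hq h9 h8
      rw [e, hy] at htr
      simp only [gtr1, if_pos hb, Option.some.injEq, Prod.mk.injEq] at htr
      obtain ⟨rfl, rfl, rfl⟩ := htr
      refine ⟨Or.inl (by rw [e, hy]; rfl), Or.inl (by omega), ?_⟩
      simp only [St, Bool.false_eq_true, if_false]
      refine ⟨X, Y, z + 1, h1, h2, h3, h4, h5, h6, ?_⟩
      simp only [Row]
      omega

theorem step_rc (h : TF k' K2 L A H Z s t F G E R S T) (hL : 1 ≤ L) {p j : ℕ} {q' : GQ}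
    {x : GA ⊕ GW} {d : Bool}
    (hst : St k' K2 L A H Z s t F G E R S T P (.rc j) p)
    (htr : gtr1 N M1 M2 (.rc j) (TK A T P p) = some (q', x, d)) :
    Out k' K2 L A H Z s t F G E R S T P p q' x d := by
  obtain ⟨X, Y, i, p', rfl, h1, h2, h3, h4, h5, h6, h7⟩ := hst
  have hK := h.hK
  left
  have hq : X * K2 + i < k' := by omega
  have hm : E (X * K2 + i + 1) ≤ P := by rw [h3]; exact h.ele (by omega) (by omega)
  have hR := h.rmono hq
  have h0 : (p' + 1 = R (X * K2 + i)) ∨ (∃ i', i = i' + 1 ∧ R (X * K2 + i') < p' + 1 ∧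
      p' + 1 < E (X * K2 + i' + 1)) := by
    cases i with
    | zero =>
      have h8 : p' = E (X * K2) := h7
      have h9 := h.Rg (X * K2) (Dvd.intro_left X rfl)
      left
      show p' + 1 = R (X * K2)
      omega
    | succ i =>
      obtain ⟨h7, h8⟩ := h7
      have h10 := h.Rn (X * K2 + (i + 1)) (not_dvd_mid (by omega) (by omega))
      rw [← Nat.add_assoc] at h10 ⊢
      by_cases hc : p' + 1 = E (X * K2 + i + 1)
      · left; omega
      · right; exact ⟨i, rfl, by omega, by omega⟩
  rcases h0 with h0 | ⟨i', rfl, h8, h9⟩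
  · have e := h.tk_r (P := P) hq (by omega)
    rw [h0, e] at htr
    obtain ⟨j', rfl⟩ : ∃ j', j = j' + 1 := ⟨j - 1, by omega⟩
    cases j' with
    | zero =>
      simp only [gtr1, Option.some.injEq, Prod.mk.injEq] at htr
      obtain ⟨rfl, rfl, rfl⟩ := htr
      have hiY : i = Y := by omega
      subst hiY
      refine ⟨Or.inl (by rw [h0, e]; rfl), Or.inl (by omega), ?_⟩
      simp only [St, if_true]
      refine ⟨X * K2 + i, 0, ⟨X * K2 + i, h3, by omega, le_rfl, by omega, rfl, h4⟩,
        Nat.zero_le _, ?_⟩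
      rw [h.S0 _ hq, h0]
    | succ j' =>
      simp only [gtr1, Option.some.injEq, Prod.mk.injEq] at htr
      obtain ⟨rfl, rfl, rfl⟩ := htr
      refine ⟨Or.inl (by rw [h0, e]; rfl), Or.inl (by omega), ?_⟩
      simp only [St, if_true]
      refine ⟨X, Y, i + 1, p' + 1, rfl, h1, h2, h3, h4, by omega, by omega, ?_⟩
      simp only [Row]
      omega
  · have hq' : X * K2 + i' < k' := by omega
    have e := h.tk_in (P := P) hq' h8 h9
    obtain ⟨y, hy, hb⟩ := h.rowl hq' h8 h9
    rw [e, hy] at htr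
    simp only [gtr1, if_pos hb, Option.some.injEq, Prod.mk.injEq] at htr
    obtain ⟨rfl, rfl, rfl⟩ := htr
    have hm' : E (X * K2 + i' + 1) ≤ P := by rw [h3]; exact h.ele (by omega) (by omega)
    refine ⟨Or.inl (by rw [e, hy]; rfl), Or.inl (by omega), ?_⟩
    simp only [St, if_true]
    refine ⟨X, Y, i' + 1, p' + 1, rfl, h1, h2, h3, h4, h5, h6, ?_⟩
    simp only [Row]
    omega

theorem step_ra (h : TF k' K2 L A H Z s t F G E R S T) {p i : ℕ} {q' : GQ}
    {x : GA ⊕ GW} {d : Bool}
    (hst : St k' K2 L A H Z s t F G E R S T P (.ra i) p)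
    (htr : gtr1 N M1 M2 (.ra i) (TK A T P p) = some (q', x, d)) :
    Out k' K2 L A H Z s t F G E R S T P p q' x d := by
  obtain ⟨r, l, hD, h1, h2⟩ := hst
  have hD' := hD
  obtain ⟨q, d1, d2, d3, d4, d5, d6⟩ := hD'
  left
  have hs := h.smono (q := r) (by omega) l (by omega)
  have hs' := h.smono' (q := r) (by omega) (l := l + 1) (by omega)
  rw [h.SS r (by omega) l d4] at hs'
  have hin : p < E (r + 1) := by omega
  have hm : E (r + 1) ≤ P := by rw [d1]; exact h.ele (by omega) (by omega)
  have hR := h.rE r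
  have e := h.tk_in (P := P) (by omega : r < k') (p := p) (by omega) hin
  rcases Nat.eq_or_lt_of_le h1 with h3 | h3
  · have h4 := h.fd r (by omega) l d4
    rw [← h3, ← h2] at h4
    rw [e, h4] at htr
    simp only [gtr1, Option.some.injEq, Prod.mk.injEq] at htr
    obtain ⟨rfl, rfl, rfl⟩ := htr
    refine ⟨Or.inl (by rw [e, h4]; rfl), Or.inl (by omega), ?_⟩
    simp only [St, Bool.false_eq_true, if_false]
    have := h.hE (q := r) (by omega)
    exact ⟨r, l, hD, h3, rfl, by omega, by omega⟩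
  · have h4 := h.fa r (by omega) l d4 i h3
    rw [← h2] at h4
    rw [e, h4] at htr
    simp only [gtr1] at htr
    split_ifs at htr with hN
    simp only [Option.some.injEq, Prod.mk.injEq] at htr
    obtain ⟨rfl, rfl, rfl⟩ := htr
    refine ⟨Or.inl (by rw [e, h4]; rfl), Or.inl (by omega), ?_⟩
    simp only [St, if_true]
    exact ⟨r, l, hD, h3, by omega⟩

theorem step_gl (h : TF k' K2 L A H Z s t F G E R S T) {p i : ℕ} {β : Bool} {q' : GQ}
    {x : GA ⊕ GW} {d : Bool}
    (hst : St k' K2 L A H Z s t F G E R S T P (.gl β i) p)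
    (htr : gtr1 N M1 M2 (.gl β i) (TK A T P p) = some (q', x, d)) :
    Out k' K2 L A H Z s t F G E R S T P p q' x d := by
  obtain ⟨r, l, hD, h1, h2, h3, h5⟩ := hst
  have hD' := hD
  obtain ⟨q, d1, d2, d3, d4, d5, d6⟩ := hD'
  have hP := h.hE (q := q + 1) (by omega)
  left
  rcases Nat.eq_or_lt_of_le h3 with h4 | h4
  · subst h4
    have e : TK A T P H = T H := h.tk_low (by have := h.hAH; omega) le_rfl
    rw [e, h.fH] at htr
    simp only [gtr1, GA.row, Bool.false_eq_true, if_false, if_true, Option.some.injEq,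
      Prod.mk.injEq] at htr
    obtain ⟨rfl, rfl, rfl⟩ := htr
    refine ⟨Or.inl (by rw [e, h.fH]; rfl), Or.inl h5, ?_⟩
    simp only [St, Bool.false_eq_true, if_false]
    have := h.hAH
    exact ⟨r, l, hD, h1, h2, by omega, by omega⟩
  · obtain ⟨n, n1, n2, n3⟩ := h.cell h4 (q + 1) (by omega) (by omega)
    have hn : n < k' := by omega
    rcases h.kind n2 n3 with ⟨hd, n4⟩ | n4 | ⟨n4, n5⟩
    · have e := h.tk_g (P := P) hn hd (by omega)
      rw [n4, e] at htr
      simp only [gtr1, Option.some.injEq, Prod.mk.injEq] at htr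
      obtain ⟨rfl, rfl, rfl⟩ := htr
      refine ⟨Or.inl (by rw [n4, e]; rfl), Or.inl h5, ?_⟩
      simp only [St, Bool.false_eq_true, if_false]
      exact ⟨r, l, hD, h1, h2, by omega, by omega⟩
    · have e := h.tk_r (P := P) hn (by omega)
      rw [n4, e] at htr
      simp only [gtr1, Option.some.injEq, Prod.mk.injEq] at htr
      obtain ⟨rfl, rfl, rfl⟩ := htr
      refine ⟨Or.inl (by rw [n4, e]; rfl), Or.inl h5, ?_⟩
      simp only [St, Bool.false_eq_true, if_false]
      exact ⟨r, l, hD, h1, h2, by omega, by omega⟩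
    · have e := h.tk_in (P := P) hn n4 n5
      obtain ⟨y, hy, hb⟩ := h.rowl hn n4 n5
      rw [e, hy] at htr
      simp only [gtr1, if_pos hb, Option.some.injEq, Prod.mk.injEq] at htr
      obtain ⟨rfl, rfl, rfl⟩ := htr
      refine ⟨Or.inl (by rw [e, hy]; rfl), Or.inl h5, ?_⟩
      simp only [St, Bool.false_eq_true, if_false]
      exact ⟨r, l, hD, h1, h2, by omega, by omega⟩

theorem step_lf (h : TF k' K2 L A H Z s t F G E R S T) {p i : ℕ} {β : Bool} {q' : GQ}
    {x : GA ⊕ GW} {d : Bool}
    (hst : St k' K2 L A H Z s t F G E R S T P (.lf β i) p)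
    (htr : gtr1 N M1 M2 (.lf β i) (TK A T P p) = some (q', x, d)) :
    Out k' K2 L A H Z s t F G E R S T P p q' x d := by
  obtain ⟨r, l, hD, h1, h2, h3, h4⟩ := hst
  have hD' := hD
  obtain ⟨q, d1, d2, d3, d4, d5, d6⟩ := hD'
  have hR := h.hE (q := q + 1) (by omega)
  have hA := h.hA
  left
  rcases Nat.eq_or_lt_of_le h3 with h5 | h5
  · subst h5
    rw [tk_A] at htr
    simp only [gtr1, Option.some.injEq, Prod.mk.injEq] at htr
    obtain ⟨rfl, rfl, rfl⟩ := htr
    refine ⟨Or.inl (by rw [tk_A]; rfl), Or.inl (by omega), ?_⟩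
    simp only [St, if_true]
    have := h.hAZ
    exact ⟨r, l, hD, h1, h2, by omega, by omega⟩
  · have e : TK A T P p = T p := h.tk_low (by omega) h4.le
    obtain ⟨y, hy, hb⟩ := h.fk p (by omega) h4
    rw [e, hy] at htr
    simp only [gtr1, if_pos hb, Option.some.injEq, Prod.mk.injEq] at htr
    obtain ⟨rfl, rfl, rfl⟩ := htr
    refine ⟨Or.inl (by rw [e, hy]; rfl), Or.inl (by omega), ?_⟩
    simp only [St, Bool.false_eq_true, if_false]
    exact ⟨r, l, hD, h1, h2, by omega, by omega⟩

theorem step_se (h : TF k' K2 L A H Z s t F G E R S T) {p i : ℕ} {β : Bool} {q' : GQ}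
    {x : GA ⊕ GW} {d : Bool}
    (hst : St k' K2 L A H Z s t F G E R S T P (.se β i) p)
    (htr : gtr1 N M1 M2 (.se β i) (TK A T P p) = some (q', x, d) ∨
      gtr2 (.se β i) (TK A T P p) = some (q', x, d)) :
    Out k' K2 L A H Z s t F G E R S T P p q' x d := by
  obtain ⟨r, l, hD, h1, h2, h3, h4⟩ := hst
  have hD' := hD
  obtain ⟨q, d1, d2, d3, d4, d5, d6⟩ := hD'
  have hR := h.hE (q := q + 1) (by omega)
  have hZH := h.hZH
  have e : TK A T P p = T p := h.tk_low (by omega) (by omega)
  left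
  rcases Nat.eq_or_lt_of_le h4 with h5 | h5
  · exfalso
    rw [e, h5] at htr
    rcases h.fZ with h6 | h6
    · rw [h6] at htr
      simp [gtr1, gtr2, GA.row] at htr
    · rw [h6] at htr
      simp [gtr1, gtr2, GA.row] at htr
  · obtain ⟨y, hy, hb⟩ := h.fk p (by omega) (by omega)
    by_cases hc : y = .c
    · subst hc
      rw [e, hy] at htr
      rcases htr with htr | htr
      · simp only [gtr1, Option.some.injEq, Prod.mk.injEq] at htr
        obtain ⟨rfl, rfl, rfl⟩ := htr
        refine ⟨Or.inl (by rw [e, hy]; rfl), Or.inl (by omega), ?_⟩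
        simp only [St, if_true]
        obtain ⟨r1, l1, hE⟩ := h.fc p h3 h5 hy
        exact ⟨r, l, p, r1, l1, 0, hD, h2, hE, h3, h1, Nat.zero_le _, rfl⟩
      · simp only [gtr2, Option.some.injEq, Prod.mk.injEq] at htr
        obtain ⟨rfl, rfl, rfl⟩ := htr
        refine ⟨Or.inl (by rw [e, hy]; rfl), Or.inl (by omega), ?_⟩
        simp only [St, if_true]
        exact ⟨r, l, hD, h1, h2, by omega, by omega⟩
    · rw [e, hy] at htr
      have h6 : q' = .se β i ∧ x = .inl y ∧ d = true := by
        cases y <;> simp [gtr1, gtr2, GA.row] at htr hc ⊢ <;>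
          exact ⟨htr.1.symm, htr.2.1.symm, htr.2.2⟩
      obtain ⟨rfl, rfl, rfl⟩ := h6
      refine ⟨Or.inl (by rw [e, hy]; rfl), Or.inl (by omega), ?_⟩
      simp only [St, if_true]
      exact ⟨r, l, hD, h1, h2, by omega, by omega⟩

theorem step_ca (h : TF k' K2 L A H Z s t F G E R S T) (hP : PS k' L N s t) {p i : ℕ} {β : Bool}
    {q' : GQ} {x : GA ⊕ GW} {d : Bool}
    (hst : St k' K2 L A H Z s t F G E R S T P (.ca β i) p)
    (htr : gtr1 N M1 M2 (.ca β i) (TK A T P p) = some (q', x, d)) :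
    Out k' K2 L A H Z s t F G E R S T P p q' x d := by
  obtain ⟨r, l, e, r1, l1, u, hD, h1, hE, h2, h3, h4, h5⟩ := hst
  have hD' := hD
  obtain ⟨q, d1, d2, d3, d4, d5, d6⟩ := hD'
  have hE' := hE
  obtain ⟨e1, e2, e3, e4, e5, e6⟩ := hE'
  have hR := h.hE (q := q + 1) (by omega)
  have hZH := h.hZH
  have e0 : TK A T P p = T p := h.tk_low (by omega) (by omega)
  left
  rcases Nat.eq_or_lt_of_le h4 with h6 | h6
  · have h7 := e4 0 (hP.t1 r1 e1 l1 e2).1
    rw [Nat.add_zero, ← h6, ← h5] at h7
    rw [e0, h7] at htr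
    cases i with
    | zero =>
      simp only [gtr1, Option.some.injEq, Prod.mk.injEq] at htr
      obtain ⟨rfl, rfl, rfl⟩ := htr
      refine ⟨Or.inl (by rw [e0, h7]; rfl), Or.inl (by omega), ?_⟩
      simp only [St, if_true]
      have h8 : s r1 l1 = s r l := by omega
      have h9 : l1 = l := hP.ls r1 e1 l1 e2 r (by omega) l d4 h8
      subst h9
      exact ⟨r, l1, e, r1, hD, h1, hE, h2, h8, le_rfl, (hP.t1 r1 e1 l1 e2).1, by omega⟩
    | succ i => simp [gtr1] at htr
  · have h7 := e3 u h6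
    rw [← h5] at h7
    rw [e0, h7] at htr
    cases i with
    | zero => simp [gtr1] at htr
    | succ i =>
      simp only [gtr1, Option.some.injEq, Prod.mk.injEq] at htr
      obtain ⟨rfl, rfl, rfl⟩ := htr
      refine ⟨Or.inl (by rw [e0, h7]; rfl), Or.inl (by omega), ?_⟩
      simp only [St, if_true]
      exact ⟨r, l, e, r1, l1, u + 1, hD, h1, hE, h2, by omega, h6, by omega⟩

theorem step_cb (h : TF k' K2 L A H Z s t F G E R S T) {p j : ℕ} {β : Bool}
    {q' : GQ} {x : GA ⊕ GW} {d : Bool}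
    (hst : St k' K2 L A H Z s t F G E R S T P (.cb β j) p)
    (htr : gtr1 N M1 M2 (.cb β j) (TK A T P p) = some (q', x, d)) :
    Out k' K2 L A H Z s t F G E R S T P p q' x d := by
  obtain ⟨r, l, e, r1, hD, h1, hE, h2, h3, h4, h5, h6⟩ := hst
  have hD' := hD
  obtain ⟨q, d1, d2, d3, d4, d5, d6⟩ := hD'
  have hE' := hE
  obtain ⟨e1, e2, e3, e4, e5, e6⟩ := hE'
  have hR := h.hE (q := q + 1) (by omega)
  have hZH := h.hZH
  have e0 : TK A T P p = T p := h.tk_low (by omega) (by omega)
  left
  rcases Nat.eq_or_lt_of_le h5 with h7 | h7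
  · have h8 := e5
    rw [← h7, ← h6] at h8
    rw [e0, h8] at htr
    simp only [gtr1] at htr
    split_ifs at htr with hb
    simp only [Option.some.injEq, Prod.mk.injEq] at htr
    obtain ⟨rfl, rfl, rfl⟩ := htr
    refine ⟨Or.inl (by rw [e0, h8]; rfl), Or.inl (by omega), ?_⟩
    simp only [St, if_true]
    exact ⟨r, l, r1, hD, e1, h3, hb.trans h1, h7, by omega, by omega⟩
  · have h8 := e4 j h7
    rw [← h6] at h8
    rw [e0, h8] at htr
    simp only [gtr1] at htr
    split_ifs at htr with hb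
    simp only [Option.some.injEq, Prod.mk.injEq] at htr
    obtain ⟨rfl, rfl, rfl⟩ := htr
    refine ⟨Or.inl (by rw [e0, h8]; rfl), Or.inl (by omega), ?_⟩
    simp only [St, if_true]
    exact ⟨r, l, e, r1, hD, h1, hE, h2, h3, by omega, h7, by omega⟩

theorem step_rt (h : TF k' K2 L A H Z s t F G E R S T) {p j : ℕ}
    {q' : GQ} {x : GA ⊕ GW} {d : Bool}
    (hst : St k' K2 L A H Z s t F G E R S T P (.rt j) p)
    (htr : gtr1 N M1 M2 (.rt j) (TK A T P p) = some (q', x, d)) :
    Out k' K2 L A H Z s t F G E R S T P p q' x d := by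
  obtain ⟨r, l, r1, hD, h1, h2, h3, h4, h5, h6⟩ := hst
  have hD' := hD
  obtain ⟨q, d1, d2, d3, d4, d5, d6⟩ := hD'
  have hR := h.hE (q := q + 1) (by omega)
  have e : TK A T P p = T p := h.tk_low (by omega) h6
  left
  rcases Nat.eq_or_lt_of_le h6 with h7 | h7
  · subst h7
    rw [e, h.fH] at htr
    simp only [gtr1, GA.blk, Bool.false_eq_true, if_false, if_true, Option.some.injEq,
      Prod.mk.injEq] at htr
    obtain ⟨rfl, rfl, rfl⟩ := htr
    refine ⟨Or.inl (by rw [e, h.fH]; rfl), Or.inl (by omega), ?_⟩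
    simp only [St, if_true]
    exact ⟨r, l, r1, hD, h1, h2, h3, h4, by omega, by omega⟩
  · obtain ⟨y, hy, hb⟩ := h.fk p (by omega) h7
    rw [e, hy] at htr
    simp only [gtr1, if_pos hb, Option.some.injEq, Prod.mk.injEq] at htr
    obtain ⟨rfl, rfl, rfl⟩ := htr
    refine ⟨Or.inl (by rw [e, hy]; rfl), Or.inl (by omega), ?_⟩
    simp only [St, if_true]
    exact ⟨r, l, r1, hD, h1, h2, h3, h4, by omega, by omega⟩

/-- the cell at the frontier -/
theorem TF.front (h : TF k' K2 L A H Z s t F G E R S T) {q : ℕ} (hq : q < k') :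
    T (E (q + 1)) = .rend ∧ q + 1 = k' ∨
      T (E (q + 1)) = .inp .g ∧ q + 1 < k' ∧ K2 ∣ q + 1 ∨
      T (E (q + 1)) = .inp .r ∧ q + 1 < k' ∧ ¬ K2 ∣ q + 1 := by
  rcases Nat.eq_or_lt_of_le (Nat.succ_le_of_lt hq) with h1 | h1
  · have h2 : q + 1 = k' := h1
    left
    exact ⟨by rw [h2]; exact h.fe, h2⟩
  · right
    by_cases hd : K2 ∣ q + 1
    · left
      exact ⟨h.fg _ h1 hd, h1, hd⟩
    · right
      have h2 := h.fr _ h1
      rw [h.Rn _ hd] at h2
      exact ⟨h2, h1, hd⟩

theorem step_rh (h : TF k' K2 L A H Z s t F G E R S T) {p j : ℕ}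
    {q' : GQ} {x : GA ⊕ GW} {d : Bool}
    (hst : St k' K2 L A H Z s t F G E R S T P (.rh j) p)
    (htr : gtr1 N M1 M2 (.rh j) (TK A T P p) = some (q', x, d) ∨
      gtr2 (.rh j) (TK A T P p) = some (q', x, d)) :
    Out k' K2 L A H Z s t F G E R S T P p q' x d := by
  obtain ⟨r, l, r1, hD, h1, h2, h3, h4, h5, h6⟩ := hst
  have hD' := hD
  obtain ⟨q, d1, d2, d3, d4, d5, d6⟩ := hD'
  have hPH := h.hE (q := q + 1) (by omega)
  left
  rcases Nat.eq_or_lt_of_le h6 with h7 | h7
  · exfalso
    rw [h7, h.tk_fresh (by omega), d1] at htr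
    rcases h.front d2 with ⟨h8, -⟩ | ⟨h8, -⟩ | ⟨h8, -⟩
    · rw [h8] at htr
      simp [gtr1, gtr2] at htr
    · rw [h8] at htr
      simp [gtr1, gtr2, GA.row] at htr
    · rw [h8] at htr
      simp [gtr1, gtr2, GA.row] at htr
  · obtain ⟨n, n1, n2, n3⟩ := h.cell h5 (q + 1) (by omega) (by omega)
    have hn : n < k' := by omega
    have hnP : E (n + 1) ≤ P := by rw [d1]; exact h.ele (by omega) (by omega)
    rcases h.kind n2 n3 with ⟨hd, n4⟩ | n4 | ⟨n4, n5⟩
    · have e := h.tk_g (P := P) hn hd (by omega)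
      rw [n4, e] at htr
      simp only [gtr1, gtr2, Option.some.injEq, Prod.mk.injEq, reduceCtorEq, or_false] at htr
      obtain ⟨rfl, rfl, rfl⟩ := htr
      refine ⟨Or.inl (by rw [n4, e]; rfl), Or.inl h7, ?_⟩
      simp only [St, if_true]
      exact ⟨r, l, r1, hD, h1, h2, h3, h4, by omega, by omega⟩
    · have e := h.tk_r (P := P) hn (by omega)
      rw [n4, e] at htr
      simp only [gtr1, gtr2, Option.some.injEq, Prod.mk.injEq, reduceCtorEq, or_false] at htr
      obtain ⟨rfl, rfl, rfl⟩ := htr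
      refine ⟨Or.inl (by rw [n4, e]; rfl), Or.inl h7, ?_⟩
      simp only [St, if_true]
      exact ⟨r, l, r1, hD, h1, h2, h3, h4, by omega, by omega⟩
    · have e := h.tk_in (P := P) hn n4 n5
      obtain ⟨y, hy, hb⟩ := h.rowl hn n4 n5
      rcases htr with htr | htr
      · rw [e, hy] at htr
        simp only [gtr1, if_pos hb, Option.some.injEq, Prod.mk.injEq] at htr
        obtain ⟨rfl, rfl, rfl⟩ := htr
        refine ⟨Or.inl (by rw [e, hy]; rfl), Or.inl h7, ?_⟩
        simp only [St, if_true]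
        exact ⟨r, l, r1, hD, h1, h2, h3, h4, by omega, by omega⟩
      · rw [e] at htr
        obtain ⟨l1, n6, n7 | ⟨n7, n8⟩ | n7⟩ := h.letter hn n4 n5
        · rw [n7] at htr; simp [gtr2] at htr
        · rw [n8] at htr
          simp only [gtr2, Option.some.injEq, Prod.mk.injEq] at htr
          obtain ⟨rfl, rfl, rfl⟩ := htr
          refine ⟨Or.inl (by rw [e, n8]; rfl), Or.inl h7, ?_⟩
          simp only [St, if_true]
          exact ⟨r, l, r1, n, l1, 0, hD, h1, h2, h3, hn, hnP, n6, Nat.zero_le _, h4,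
            by omega⟩
        · rw [n7] at htr; simp [gtr2] at htr

theorem step_bk (h : TF k' K2 L A H Z s t F G E R S T) (hP : PS k' L N s t) {p j : ℕ}
    {q' : GQ} {x : GA ⊕ GW} {d : Bool}
    (hst : St k' K2 L A H Z s t F G E R S T P (.bk j) p)
    (htr : gtr1 N M1 M2 (.bk j) (TK A T P p) = some (q', x, d)) :
    Out k' K2 L A H Z s t F G E R S T P p q' x d := by
  obtain ⟨r, l, r1, p1, l1, v, hD, h1, h2, h3, hp1, hpP, h5, h6, h7, h8⟩ := hst
  have hD' := hD
  obtain ⟨q, d1, d2, d3, d4, d5, d6⟩ := hD'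
  have hK := h.hK
  have hPH := h.hE (q := q + 1) (by omega)
  have hp1q : p1 ≤ q := by
    by_contra hc
    have := h.elt (q := q + 1) (q' := p1 + 1) (by omega) (by omega)
    omega
  have hs := h.smono hp1 l1 (by omega)
  have hs' := h.smono' hp1 (l := l1 + 1) (by omega)
  rw [h.SS p1 hp1 l1 h5] at hs'
  have hrE := h.rE p1
  rcases Nat.eq_or_lt_of_le h6 with h9 | h9
  · -- behind the last letter `b`
    have hpe : p = S p1 (l1 + 1) := by rw [h.SS p1 hp1 l1 h5]; omega
    -- what is known for `j = 0`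
    have key : j = 0 → l1 = l ∧ Ph k' s t F G q (l + 1) p1 := by
      intro hj
      have h10 : t r1 l = t p1 l1 := by omega
      have h11 : l = l1 := hP.lt r1 h1 l d4 p1 hp1 l1 h5 h10
      subst h11
      exact ⟨rfl, by omega, r, r1, d5, h1, h2, h10, h3⟩
    rcases Nat.lt_or_ge (l1 + 1) L with h10 | h10
    · left
      have h11 := h.fa p1 hp1 (l1 + 1) h10 0 (hP.s1 p1 hp1 (l1 + 1) h10).1
      rw [Nat.add_zero, ← hpe] at h11
      have h12 := h.smono' hp1 (l := l1 + 1 + 1) (by omega)
      rw [h.SS p1 hp1 (l1 + 1) h10, ← hpe] at h12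
      have e := h.tk_in (P := P) hp1 (p := p) (by omega) (by omega)
      rw [e, h11] at htr
      cases j with
      | zero =>
        obtain ⟨rfl, hk⟩ := key rfl
        simp only [gtr1, Option.some.injEq, Prod.mk.injEq] at htr
        obtain ⟨rfl, rfl, rfl⟩ := htr
        refine ⟨Or.inl (by rw [e, h11]; rfl), Or.inl (by omega), ?_⟩
        simp only [St, if_true]
        refine ⟨p1, l1 + 1, ⟨q, d1, d2, by omega, h10, hk, d6⟩,
          (hP.s1 p1 hp1 (l1 + 1) h10).1, by omega⟩
      | succ j => simp [gtr1] at htr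
    · have hL : l1 + 1 = L := by omega
      rw [hL, h.SL p1 hp1] at hpe
      rcases Nat.lt_or_ge p1 q with h11 | h11
      · exfalso
        have h12 := h.elt (q := p1 + 1) (q' := q + 1) (by omega) (by omega)
        have h13 : p1 + 1 < k' := by omega
        rcases h.front hp1 with ⟨-, h14⟩ | ⟨-, -, h14⟩ | ⟨-, -, h14⟩
        · omega
        · rw [hpe, h.tk_g (P := P) h13 h14 (by omega)] at htr
          cases j <;> simp [gtr1] at htr
        · have h15 := h.Rn _ h14
          rw [hpe, ← h15, h.tk_r (P := P) h13 (by omega)] at htr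
          cases j <;> simp [gtr1] at htr
      · have hq : p1 = q := by omega
        subst hq
        have hdn : j = 0 → Dn k' L s t F G (p1 + 1) := by
          intro hj y hy
          rcases Nat.lt_or_ge y p1 with h12 | h12
          · exact d6 y h12
          · have : y = p1 := by omega
            subst this
            obtain ⟨e1, e2⟩ := key hj
            rw [← e1, hL] at e2
            exact e2
        have hpP' : p = P := by rw [hpe, d1]
        have e : TK A T P p = T (E (p1 + 1)) := by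
          rw [hpP', h.tk_fresh (by omega), d1]
        have hek := h.ele (q := p1 + 1) (q' := k') (by omega) le_rfl
        rcases h.front hp1 with ⟨h13, h14⟩ | ⟨h13, h14, h15⟩ | ⟨h13, h14, h15⟩
        · left
          rw [e, h13] at htr
          cases j with
          | zero =>
            simp only [gtr1, Option.some.injEq, Prod.mk.injEq] at htr
            obtain ⟨rfl, rfl, rfl⟩ := htr
            have hpk : p = E k' := by rw [hpe, h14]
            refine ⟨Or.inr hpk, Or.inr hpk, ?_⟩
            simp only [St]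
            intro y hy
            exact hdn rfl y (by omega)
          | succ j => simp [gtr1] at htr
        · right
          rw [e, h13] at htr
          cases j with
          | zero =>
            simp only [gtr1, Option.some.injEq, Prod.mk.injEq] at htr
            obtain ⟨rfl, rfl, rfl⟩ := htr
            have hlt := h.elt (q := p1 + 1) (q' := k') h14 le_rfl
            refine ⟨hpP', by omega, by omega, by rw [d1, h13]; rfl, P + 1, by omega, by omega,
              fun i hi1 hi2 => absurd hi2 (by omega), ?_⟩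
            simp only [St, Bool.false_eq_true, if_false]
            obtain ⟨c, hc⟩ := h15
            rw [Nat.mul_comm] at hc
            obtain ⟨z, rfl⟩ : ∃ z, c = z + 1 := by
              cases c with
              | zero => rw [Nat.zero_mul] at hc; omega
              | succ z => exact ⟨z, rfl⟩
            refine ⟨z + 1, z + 1, by rw [← hc, d1], by omega, ?_, rfl, le_rfl, ?_⟩
            · rw [← hc]; exact hdn rfl
            · simp only [Grp]
              have h16 := h.elt (q := z * K2) (q' := (z + 1) * K2)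
                (by rw [Nat.add_mul]; omega) (by omega)
              rw [← hc, ← d1] at h16 ⊢
              omega
          | succ j => simp [gtr1] at htr
        · right
          rw [e, h13] at htr
          cases j with
          | zero =>
            simp only [gtr1, Option.some.injEq, Prod.mk.injEq] at htr
            obtain ⟨rfl, rfl, rfl⟩ := htr
            have hlt := h.elt (q := p1 + 1) (q' := k') h14 le_rfl
            obtain ⟨m1, m2, m3⟩ := h.next_r h14
            rw [h.Rn _ h15, ← d1] at m1 m3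
            refine ⟨hpP', by omega, by omega, by rw [d1, h13]; rfl, E (p1 + 1 + 1), m1, m2, m3, ?_⟩
            simp only [St, Bool.false_eq_true, if_false]
            have h16 := Nat.div_add_mod (p1 + 1) K2
            have h17 := Nat.mod_lt (p1 + 1) (by omega : 0 < K2)
            have h18 : (p1 + 1) % K2 ≠ 0 := fun hc => h15 (Nat.dvd_of_mod_eq_zero hc)
            rw [Nat.mul_comm] at h16
            obtain ⟨z, hz⟩ : ∃ z, (p1 + 1) % K2 = z + 1 := ⟨(p1 + 1) % K2 - 1, by omega⟩
            rw [hz] at h16 h17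
            refine ⟨(p1 + 1) / K2, z + 1, z + 1, h17, by rw [h16]; exact h14, by rw [h16], ?_, rfl,
              le_rfl, ?_⟩
            · rw [h16]; exact hdn rfl
            · simp only [Row]
              have h19 : (p1 + 1) / K2 * K2 + z = p1 := by omega
              rw [h19]
              have := h.rmono hp1
              omega
          | succ j => simp [gtr1] at htr
  · left
    have h10 := h.fb p1 hp1 l1 h5 v h9
    rw [← h8] at h10
    have e := h.tk_in (P := P) hp1 (p := p) (by omega) (by omega)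
    rw [e, h10] at htr
    cases j with
    | zero => simp [gtr1] at htr
    | succ j =>
      simp only [gtr1, Option.some.injEq, Prod.mk.injEq] at htr
      obtain ⟨rfl, rfl, rfl⟩ := htr
      refine ⟨Or.inl (by rw [e, h10]; rfl), Or.inl (by omega), ?_⟩
      simp only [St, if_true]
      exact ⟨r, l, r1, p1, l1, v + 1, hD, h1, h2, h3, hp1, hpP, h5, h9, by omega, by omega⟩

theorem st_step (h : TF k' K2 L A H Z s t F G E R S T) (hP : PS k' L N s t) (hL : 1 ≤ L)
    {q q' : GQ} {p : ℕ} {x : GA ⊕ GW} {d : Bool}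
    (hst : St k' K2 L A H Z s t F G E R S T P q p)
    (htr : gtr1 N M1 M2 q (TK A T P p) = some (q', x, d) ∨
      gtr2 q (TK A T P p) = some (q', x, d)) :
    Out k' K2 L A H Z s t F G E R S T P p q' x d := by
  cases q with
  | scan => exact hst.elim
  | mid => exact step_mid h hst (htr.resolve_right (by simp [gtr2]))
  | fr => exact step_fr h hst (htr.resolve_right (by simp [gtr2]))
  | fin =>
    exfalso
    rcases htr with htr | htr
    · simp [gtr1] at htr
    · simp [gtr2] at htr
  | nr => exact step_nr h hst (htr.resolve_right (by simp [gtr2]))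
  | lg j => exact step_lg h hst (htr.resolve_right (by simp [gtr2]))
  | rg j => exact step_rg h hst (htr.resolve_right (by simp [gtr2]))
  | lc j => exact step_lc h hst (htr.resolve_right (by simp [gtr2]))
  | rc j => exact step_rc h hL hst (htr.resolve_right (by simp [gtr2]))
  | ra i => exact step_ra h hst (htr.resolve_right (by simp [gtr2]))
  | gl β i => exact step_gl h hst (htr.resolve_right (by simp [gtr2]))
  | lf β i => exact step_lf h hst (htr.resolve_right (by simp [gtr2]))
  | se β i => exact step_se h hst htr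
  | ca β i => exact step_ca h hP hst (htr.resolve_right (by simp [gtr2]))
  | cb β j => exact step_cb h hst (htr.resolve_right (by simp [gtr2]))
  | rt j => exact step_rt h hst (htr.resolve_right (by simp [gtr2]))
  | rh j => exact step_rh h hst htr
  | bk j => exact step_bk h hP hst (htr.resolve_right (by simp [gtr2]))

/-- the new tape after the marking at the frontier -/
theorem TF.tk_update (h : TF k' K2 L A H Z s t F G E R S T) (hP : H < P) {P' : ℕ} (hP' : P < P')
    (hi : ∀ i, P < i → i < P' → mkc (T i) = T i) :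
    Function.update (TK A T P) P (mkc (T P)) = TK A T P' := by
  funext i
  have := h.hAH
  by_cases h1 : i = P
  · subst h1
    rw [Function.update_self]
    unfold TK
    rw [if_neg (by omega), if_pos hP']
  · rw [Function.update_of_ne h1]
    unfold TK
    by_cases h2 : i = A
    · rw [if_pos h2, if_pos h2]
    · rw [if_neg h2, if_neg h2]
      by_cases h3 : i < P
      · rw [if_pos h3, if_pos (by omega)]
      · rw [if_neg h3]
        by_cases h4 : i < P'
        · rw [if_pos h4, hi i (by omega) h4]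
        · rw [if_neg h4]


end

/-! ### The test words -/

/-- the block of a flattened list that contains a given index -/
theorem flat_split {α β : Type} (f : α → List β) : ∀ (l : List α) (k : ℕ),
    k < (l.flatMap f).length → ∃ l1 x l2, l = l1 ++ x :: l2 ∧ (l1.flatMap f).length ≤ k ∧
      k < (l1.flatMap f).length + (f x).length := by
  intro l
  induction l with
  | nil => intro k hk; simp at hk
  | cons a l ih =>
    intro k hk
    rcases Nat.lt_or_ge k (f a).length with h1 | h1
    · exact ⟨[], a, l, rfl, by simp, by simpa using h1⟩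
    · have h2 : k - (f a).length < (l.flatMap f).length := by
        rw [List.flatMap_cons, List.length_append] at hk
        omega
      obtain ⟨l1, x, l2, e, h3, h4⟩ := ih _ h2
      refine ⟨a :: l1, x, l2, by rw [e]; rfl, ?_, ?_⟩
      · rw [List.flatMap_cons, List.length_append]; omega
      · rw [List.flatMap_cons, List.length_append]; omega

/-- the start of the part `n` of a list of lists -/
def off {β : Type} (f : ℕ → List β) (n : ℕ) : ℕ := ((List.range n).flatMap f).length

theorem off_zero {β : Type} (f : ℕ → List β) : off f 0 = 0 := rfl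

theorem off_succ {β : Type} (f : ℕ → List β) (n : ℕ) : off f (n + 1) = off f n + (f n).length := by
  simp [off, List.range_succ, List.flatMap_append]

theorem off_get {β : Type} (f : ℕ → List β) {n M : ℕ} (hn : n < M) {u : ℕ}
    (hu : u < (f n).length) : ((List.range M).flatMap f)[off f n + u]? = (f n)[u]? := by
  induction M with
  | zero => exact absurd hn (Nat.not_lt_zero _)
  | succ M ih =>
    rw [List.range_succ, List.flatMap_append, List.flatMap_singleton]
    rcases Nat.lt_succ_iff_lt_or_eq.1 hn with h1 | h1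
    · have h2 : off f n + u < ((List.range M).flatMap f).length := by
        by_contra h3
        have h4 := ih h1
        rw [List.getElem?_eq_none (by omega), List.getElem?_eq_getElem hu] at h4
        cases h4
      rw [List.getElem?_append_left h2]
      exact ih h1
    · subst h1
      rw [List.getElem?_append_right (by unfold off; omega)]
      congr 1
      unfold off
      omega

/-- the entries of a block -/
def body (k' L : ℕ) (s t : ℕ → ℕ → ℕ) (F : ℕ → ℕ → Bool) : List GA :=
  (List.range k').flatMap fun q => (List.range L).flatMap fun l => gE (s q l) (t q l) (F q l)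

theorem gB_eq (k' L : ℕ) (s t : ℕ → ℕ → ℕ) (F : ℕ → ℕ → Bool) :
    gB k' L s t F = GA.s :: body k' L s t F := rfl

theorem gE_length (i j : ℕ) (β : Bool) : (gE i j β).length = i + j + 2 := by
  simp [gE]
  omega

theorem gE_mem {i j : ℕ} {β : Bool} {x : GA} (h : x ∈ gE i j β) :
    x.blk = true ∧ x ≠ .s := by
  simp only [gE, List.mem_cons, List.mem_append, List.mem_replicate, List.not_mem_nil,
    or_false] at h
  rcases h with rfl | ⟨-, rfl⟩ | ⟨-, rfl⟩ | rfl <;> simp [GA.blk]

theorem body_mem {k' L : ℕ} {s t : ℕ → ℕ → ℕ} {F : ℕ → ℕ → Bool} {x : GA}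
    (h : x ∈ body k' L s t F) : x.blk = true ∧ x ≠ .s := by
  simp only [body, List.mem_flatMap, List.mem_range] at h
  obtain ⟨j, -, i, -, h⟩ := h
  exact gE_mem h

theorem gX_mem {k' L : ℕ} {s t : ℕ → ℕ → ℕ} {Fs : List (ℕ → ℕ → Bool)} {x : GA}
    (h : x ∈ gX k' L s t Fs) : x.blk = true := by
  simp only [gX, List.mem_flatMap] at h
  obtain ⟨F, -, h⟩ := h
  rw [gB_eq, List.mem_cons] at h
  rcases h with rfl | h
  · rfl
  · exact (body_mem h).1

theorem gY_mem {K1 K2 L : ℕ} {s t : ℕ → ℕ → ℕ} {G : ℕ → ℕ → Bool} {x : GA}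
    (h : x ∈ gY K1 K2 L s t G) : x ≠ .s := by
  simp only [gY, gS, List.mem_cons, List.mem_flatMap, List.mem_range, List.mem_append,
    List.mem_replicate] at h
  rcases h with rfl | ⟨j, -, rfl | ⟨y, -, rfl | ⟨i, -, ⟨-, rfl⟩ | rfl | ⟨-, rfl⟩⟩⟩⟩ <;> simp

theorem gE_c {i j k : ℕ} {β : Bool} (h : (gE i j β)[k]? = some GA.c) : k = 0 := by
  cases k with
  | zero => rfl
  | succ k =>
    exfalso
    rw [gE, List.getElem?_cons_succ] at h
    have h1 := List.mem_of_getElem? h
    simp only [List.mem_append, List.mem_replicate, List.mem_singleton] at h1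
    rcases h1 with ⟨-, h1⟩ | ⟨-, h1⟩ | h1 <;> cases h1

theorem gE_get {i j : ℕ} {β : Bool} :
    (∀ u < i, (gE i j β)[1 + u]? = some .a) ∧ (∀ u < j, (gE i j β)[1 + i + u]? = some .b) ∧
      (gE i j β)[1 + i + j]? = some (.d β) := by
  have e : ∀ u, (gE i j β)[u + 1]? =
      (List.replicate i GA.a ++ (List.replicate j GA.b ++ [GA.d β]))[u]? := by
    intro u
    rw [gE, List.getElem?_cons_succ]
  refine ⟨?_, ?_, ?_⟩
  · intro u hu
    rw [Nat.add_comm, e, List.getElem?_append_left (by simpa using hu),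
      List.getElem?_replicate, if_pos hu]
  · intro u hu
    have e1 : 1 + i + u = (i + u) + 1 := by ring
    rw [e1, e, List.getElem?_append_right (by simp), List.length_replicate,
      Nat.add_sub_cancel_left, List.getElem?_append_left (by simpa using hu),
      List.getElem?_replicate, if_pos hu]
  · have e1 : 1 + i + j = (i + j) + 1 := by ring
    rw [e1, e, List.getElem?_append_right (by simp), List.length_replicate,
      Nat.add_sub_cancel_left, List.getElem?_append_right (by simp), List.length_replicate,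
      Nat.sub_self]
    rfl

theorem gS_length (i j : ℕ) (β : Bool) : (gS i j β).length = i + 1 + j := by
  simp [gS]
  omega

theorem gS_get {i j : ℕ} {β : Bool} :
    (∀ u < i, (gS i j β)[u]? = some .a) ∧ (gS i j β)[i]? = some (.d β) ∧
      (∀ u < j, (gS i j β)[i + 1 + u]? = some .b) := by
  unfold gS
  refine ⟨?_, ?_, ?_⟩
  · intro u hu
    rw [List.getElem?_append_left (by simpa using hu), List.getElem?_replicate, if_pos hu]
  · rw [List.getElem?_append_right (by simp), List.length_replicate, Nat.sub_self]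
    rfl
  · intro u hu
    rw [List.getElem?_append_right (by simp; omega), List.length_replicate]
    have e1 : i + 1 + u - i = u + 1 := by omega
    rw [e1, List.getElem?_cons_succ, List.getElem?_replicate, if_pos hu]

/-- every `c` of a block starts an entry -/
theorem body_c {k' L : ℕ} {s t : ℕ → ℕ → ℕ} {F : ℕ → ℕ → Bool} {k : ℕ}
    (h : (body k' L s t F)[k]? = some GA.c) :
    ∃ r l P Q, r < k' ∧ l < L ∧ body k' L s t F = P ++ (gE (s r l) (t r l) (F r l) ++ Q) ∧
      P.length = k := by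
  have hk : k < (body k' L s t F).length := by
    by_contra hc
    rw [List.getElem?_eq_none (by omega)] at h
    cases h
  obtain ⟨l1, r, l2, e1, h1, h2⟩ := flat_split _ _ _ hk
  have hr : r < k' := by
    have : r ∈ List.range k' := by rw [e1]; simp
    exact List.mem_range.1 this
  have e2 : body k' L s t F = (l1.flatMap fun q => (List.range L).flatMap fun l =>
      gE (s q l) (t q l) (F q l)) ++ (((List.range L).flatMap fun l =>
        gE (s r l) (t r l) (F r l)) ++
        (l2.flatMap fun q => (List.range L).flatMap fun l => gE (s q l) (t q l) (F q l))) := by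
    rw [body, e1, List.flatMap_append, List.flatMap_cons]
  set P1 := l1.flatMap fun q => (List.range L).flatMap fun l => gE (s q l) (t q l) (F q l)
  set Q1 := l2.flatMap fun q => (List.range L).flatMap fun l => gE (s q l) (t q l) (F q l)
  have h3 : k - P1.length < ((List.range L).flatMap fun l =>
      gE (s r l) (t r l) (F r l)).length := by omega
  obtain ⟨l3, l, l4, e3, h4, h5⟩ := flat_split _ _ _ h3
  have hl : l < L := by
    have : l ∈ List.range L := by rw [e3]; simp
    exact List.mem_range.1 this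
  have e4 : ((List.range L).flatMap fun l => gE (s r l) (t r l) (F r l)) =
      (l3.flatMap fun l => gE (s r l) (t r l) (F r l)) ++ (gE (s r l) (t r l) (F r l) ++
        (l4.flatMap fun l => gE (s r l) (t r l) (F r l))) := by
    rw [e3, List.flatMap_append, List.flatMap_cons]
  set P2 := l3.flatMap fun l => gE (s r l) (t r l) (F r l)
  set Q2 := l4.flatMap fun l => gE (s r l) (t r l) (F r l)
  have e5 : body k' L s t F = (P1 ++ P2) ++ (gE (s r l) (t r l) (F r l) ++ (Q2 ++ Q1)) := by
    rw [e2, e4]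
    simp only [List.append_assoc]
  refine ⟨r, l, P1 ++ P2, Q2 ++ Q1, hr, hl, e5, ?_⟩
  rw [e5, List.getElem?_append_right (by rw [List.length_append]; omega),
    List.getElem?_append_left (by rw [List.length_append]; omega)] at h
  have h6 := gE_c h
  rw [List.length_append] at h6 ⊢
  omega

section

variable {N M1 M2 : ℕ} {w : List GA}

theorem iT_zero : (gm N M1 M2).initTape w 0 = .lend := by simp [Mach.initTape]

theorem iT_succ (i : ℕ) (y : GA) (h : w[i]? = some y) :
    (gm N M1 M2).initTape w (i + 1) = .inp y := by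
  simp [Mach.initTape, h]

theorem iT_end (p : ℕ) (h : w.length < p) : (gm N M1 M2).initTape w p = .rend := by
  have h0 : p ≠ 0 := by omega
  have h1 : w[p - 1]? = none := List.getElem?_eq_none (by omega)
  simp [Mach.initTape, h0, h1]

theorem iT_inv {i : ℕ} {y : GA} (h : (gm N M1 M2).initTape w (i + 1) = .inp y) :
    w[i]? = some y := by
  unfold Mach.initTape at h
  rw [if_neg (by omega), Nat.add_sub_cancel] at h
  cases hw : w[i]? with
  | none => rw [hw] at h; cases h
  | some z => rw [hw] at h; exact congrArg some (Sym.inp.inj h)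

end

theorem off_add {β : Type} (f : ℕ → List β) (a : ℕ) : ∀ b, off f (a + b) =
    off f a + off (fun y => f (a + y)) b := by
  intro b
  induction b with
  | zero => simp [off_zero]
  | succ b ih => rw [← Nat.add_assoc, off_succ, ih, off_succ, Nat.add_assoc]

theorem off_lt {β : Type} (f : ℕ → List β) {n M : ℕ} (hn : n < M) :
    off f n + (f n).length ≤ off f M := by
  induction M with
  | zero => exact absurd hn (Nat.not_lt_zero _)
  | succ M ih =>
    rw [off_succ]
    rcases Nat.lt_succ_iff_lt_or_eq.1 hn with h1 | h1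
    · have := ih h1; omega
    · subst h1; omega

/-- a row of the test -/
def rw' (L : ℕ) (s t : ℕ → ℕ → ℕ) (G : ℕ → ℕ → Bool) (q : ℕ) : List GA :=
  GA.r :: (List.range L).flatMap fun l => gS (s q l) (t q l) (G q l)

/-- a group of the test -/
def grp (K2 L : ℕ) (s t : ℕ → ℕ → ℕ) (G : ℕ → ℕ → Bool) (x : ℕ) : List GA :=
  GA.g :: (List.range K2).flatMap fun y => rw' L s t G (x * K2 + y)

theorem gY_eq (K1 K2 L : ℕ) (s t : ℕ → ℕ → ℕ) (G : ℕ → ℕ → Bool) :
    gY K1 K2 L s t G = GA.h :: (List.range K1).flatMap (grp K2 L s t G) := rfl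

theorem grp_length (K2 L : ℕ) (s t : ℕ → ℕ → ℕ) (G : ℕ → ℕ → Bool) (x : ℕ) :
    (grp K2 L s t G x).length = off (fun y => rw' L s t G (x * K2 + y)) K2 + 1 := rfl

theorem off_grp (K2 L : ℕ) (s t : ℕ → ℕ → ℕ) (G : ℕ → ℕ → Bool) (x : ℕ) :
    off (grp K2 L s t G) x = off (rw' L s t G) (x * K2) + x := by
  induction x with
  | zero => rw [Nat.zero_mul, off_zero, off_zero]
  | succ x ih => rw [off_succ, ih, grp_length, Nat.add_mul, Nat.one_mul, off_add]; omega

/-- the cells of a row -/
theorem gY_row {K1 K2 L : ℕ} (hK : 1 ≤ K2) {s t : ℕ → ℕ → ℕ} {G : ℕ → ℕ → Bool} {q o : ℕ}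
    (hq : q < K1 * K2) (ho : o < (rw' L s t G q).length) :
    (gY K1 K2 L s t G)[off (rw' L s t G) q + q / K2 + 2 + o]? = (rw' L s t G q)[o]? := by
  have h1 := Nat.div_add_mod q K2
  have h2 := Nat.mod_lt q (by omega : 0 < K2)
  have h3 : q / K2 < K1 := Nat.div_lt_of_lt_mul (by rw [Nat.mul_comm]; exact hq)
  rw [Nat.mul_comm] at h1
  have h4 : off (rw' L s t G) q = off (rw' L s t G) (q / K2 * K2) +
      off (fun y => rw' L s t G (q / K2 * K2 + y)) (q % K2) := by
    rw [← off_add, h1]
  have h5 := off_grp K2 L s t G (q / K2)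
  have h6 : rw' L s t G (q / K2 * K2 + q % K2) = rw' L s t G q := by rw [h1]
  have h7 := off_lt (fun y => rw' L s t G (q / K2 * K2 + y)) h2
  rw [h6] at h7
  have h9 := off_get (fun y => rw' L s t G (q / K2 * K2 + y)) h2 (u := o)
    (by show o < (rw' L s t G (q / K2 * K2 + q % K2)).length; rw [h6]; exact ho)
  have h8 := grp_length K2 L s t G (q / K2)
  have e : off (rw' L s t G) q + q / K2 + 2 + o = (off (grp K2 L s t G) (q / K2) +
      (off (fun y => rw' L s t G (q / K2 * K2 + y)) (q % K2) + o + 1)) + 1 := by omega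
  rw [e, gY_eq, List.getElem?_cons_succ, off_get _ h3 (by omega), grp, List.getElem?_cons_succ]
  refine h9.trans ?_
  show (rw' L s t G (q / K2 * K2 + q % K2))[o]? = _
  rw [h6]

/-- the letter of a group -/
theorem gY_grp {K1 K2 L : ℕ} {s t : ℕ → ℕ → ℕ} {G : ℕ → ℕ → Bool} {q : ℕ}
    (hq : q < K1 * K2) (hd : K2 ∣ q) :
    (gY K1 K2 L s t G)[off (rw' L s t G) q + q / K2 + 1]? = some .g := by
  have h1 := Nat.div_mul_cancel hd
  have h3 : q / K2 < K1 := Nat.div_lt_of_lt_mul (by rw [Nat.mul_comm]; exact hq)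
  have h5 := off_grp K2 L s t G (q / K2)
  rw [h1] at h5
  have h8 := grp_length K2 L s t G (q / K2)
  have e : off (rw' L s t G) q + q / K2 + 1 = off (grp K2 L s t G) (q / K2) + 1 := by omega
  have h9 := off_get (grp K2 L s t G) h3 (u := 0) (by omega)
  rw [Nat.add_zero] at h9
  rw [e, gY_eq, List.getElem?_cons_succ, h9]
  rfl

/-- the position of the row `q` of the test -/
def Rr (k' K2 L : ℕ) (s t : ℕ → ℕ → ℕ) (Fs : List (ℕ → ℕ → Bool)) (G : ℕ → ℕ → Bool)
    (q : ℕ) : ℕ := (gX k' L s t Fs).length + 3 + off (rw' L s t G) q + q / K2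

/-- the position behind the row `q - 1` of the test -/
def Er (k' K2 L : ℕ) (s t : ℕ → ℕ → ℕ) (Fs : List (ℕ → ℕ → Bool)) (G : ℕ → ℕ → Bool)
    (q : ℕ) : ℕ := (gX k' L s t Fs).length + 2 + off (rw' L s t G) q + (q + K2 - 1) / K2

/-- the position of the segment `(q, l)` of the test -/
def Ss (k' K2 L : ℕ) (s t : ℕ → ℕ → ℕ) (Fs : List (ℕ → ℕ → Bool)) (G : ℕ → ℕ → Bool)
    (q l : ℕ) : ℕ := Rr k' K2 L s t Fs G q + 1 + off (fun l => gS (s q l) (t q l) (G q l)) l

theorem div_ceil_dvd {K2 q : ℕ} (hK : 1 ≤ K2) (hd : K2 ∣ q) : (q + K2 - 1) / K2 = q / K2 := by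
  obtain ⟨c, rfl⟩ := hd
  have h1 : K2 * c + K2 - 1 = K2 - 1 + K2 * c := by omega
  rw [h1, Nat.add_mul_div_left _ _ (by omega), Nat.div_eq_of_lt (by omega),
    Nat.mul_div_cancel_left _ (by omega), Nat.zero_add]

theorem div_ceil_ndvd {K2 q : ℕ} (hK : 1 ≤ K2) (hd : ¬ K2 ∣ q) :
    (q + K2 - 1) / K2 = q / K2 + 1 := by
  have h1 := Nat.div_add_mod q K2
  have h2 : q % K2 ≠ 0 := fun hc => hd (Nat.dvd_of_mod_eq_zero hc)
  have h3 := Nat.mod_lt q (by omega : 0 < K2)
  have h4 : q + K2 - 1 = (q % K2 - 1) + K2 * (q / K2 + 1) := by rw [Nat.mul_add]; omega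
  rw [h4, Nat.add_mul_div_left _ _ (by omega), Nat.div_eq_of_lt (by omega), Nat.zero_add]

theorem w_length {K1 K2 L : ℕ} (hK : 1 ≤ K2) (s t : ℕ → ℕ → ℕ) (Fs : List (ℕ → ℕ → Bool))
    (G : ℕ → ℕ → Bool) :
    (gX (K1 * K2) L s t Fs ++ gY K1 K2 L s t G).length + 1 =
      Er (K1 * K2) K2 L s t Fs G (K1 * K2) := by
  have h1 : (gY K1 K2 L s t G).length = off (grp K2 L s t G) K1 + 1 := rfl
  rw [List.length_append, h1, off_grp, Er, div_ceil_dvd hK (Dvd.intro_left K1 rfl),
    Nat.mul_div_cancel _ (by omega)]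
  omega

/-- the layout of the input -/
theorem lay (N M1 M2 K1 K2 L : ℕ) (hK : 1 ≤ K2) (s t : ℕ → ℕ → ℕ)
    (Fs l1 l2 : List (ℕ → ℕ → Bool)) (F G : ℕ → ℕ → Bool) (e : Fs = l1 ++ F :: l2) :
    TF (K1 * K2) K2 L ((gX (K1 * K2) L s t l1).length + 1) ((gX (K1 * K2) L s t Fs).length + 1)
      ((gX (K1 * K2) L s t l1).length + 1 + (gB (K1 * K2) L s t F).length) s t F G
      (Er (K1 * K2) K2 L s t Fs G) (Rr (K1 * K2) K2 L s t Fs G) (Ss (K1 * K2) K2 L s t Fs G)
      ((gm N M1 M2).initTape (gX (K1 * K2) L s t Fs ++ gY K1 K2 L s t G)) := by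
  have gXe : gX (K1 * K2) L s t Fs = gX (K1 * K2) L s t l1 ++
      (gB (K1 * K2) L s t F ++ gX (K1 * K2) L s t l2) := by
    rw [e, gX, List.flatMap_append, List.flatMap_cons]
    rfl
  have lX : (gX (K1 * K2) L s t Fs).length = (gX (K1 * K2) L s t l1).length +
      ((gB (K1 * K2) L s t F).length + (gX (K1 * K2) L s t l2).length) := by
    rw [gXe, List.length_append, List.length_append]
  have lB : (gB (K1 * K2) L s t F).length = (body (K1 * K2) L s t F).length + 1 := by
    rw [gB_eq, List.length_cons]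
  have hY : ∀ q < K1 * K2, ∀ o < (rw' L s t G q).length,
      (gm N M1 M2).initTape (gX (K1 * K2) L s t Fs ++ gY K1 K2 L s t G)
        (Rr (K1 * K2) K2 L s t Fs G q + o) =
      (gm N M1 M2).initTape (rw' L s t G q) (o + 1) := by
    intro q hq o ho
    have h1 : (gX (K1 * K2) L s t Fs ++ gY K1 K2 L s t G)[(gX (K1 * K2) L s t Fs).length +
        (off (rw' L s t G) q + q / K2 + 2 + o)]? = (rw' L s t G q)[o]? := by
      rw [List.getElem?_append_right (Nat.le_add_right _ _), Nat.add_sub_cancel_left]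
      exact gY_row hK hq ho
    have e2 : Rr (K1 * K2) K2 L s t Fs G q + o = ((gX (K1 * K2) L s t Fs).length +
        (off (rw' L s t G) q + q / K2 + 2 + o)) + 1 := by unfold Rr; omega
    rw [List.getElem?_eq_getElem ho] at h1
    rw [e2, iT_succ _ _ h1, iT_succ _ _ (List.getElem?_eq_getElem ho)]
  have hS : ∀ q < K1 * K2, ∀ l < L, ∀ u < (gS (s q l) (t q l) (G q l)).length,
      (gm N M1 M2).initTape (gX (K1 * K2) L s t Fs ++ gY K1 K2 L s t G)
        (Ss (K1 * K2) K2 L s t Fs G q l + u) =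
      (gm N M1 M2).initTape (gS (s q l) (t q l) (G q l)) (u + 1) := by
    intro q hq l hl u hu
    have h1 := off_get (fun l => gS (s q l) (t q l) (G q l)) hl hu
    have h2 : (rw' L s t G q)[off (fun l => gS (s q l) (t q l) (G q l)) l + u + 1]? =
        (gS (s q l) (t q l) (G q l))[u]? := by
      rw [rw', List.getElem?_cons_succ]
      exact h1
    rw [List.getElem?_eq_getElem hu] at h2
    have h3 : off (fun l => gS (s q l) (t q l) (G q l)) l + u + 1 < (rw' L s t G q).length := by
      by_contra hc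
      rw [List.getElem?_eq_none (by omega)] at h2
      cases h2
    have h4 := hY q hq _ h3
    rw [iT_succ _ _ h2] at h4
    rw [iT_succ _ _ (List.getElem?_eq_getElem hu), ← h4]
    congr 1
    unfold Ss
    omega
  have hB : ∀ k < (gB (K1 * K2) L s t F).length, (gX (K1 * K2) L s t Fs ++ gY K1 K2 L s t G)[
      (gX (K1 * K2) L s t l1).length + k]? = (gB (K1 * K2) L s t F)[k]? := by
    intro k hk
    rw [List.getElem?_append_left (by omega), gXe, List.getElem?_append_right (by omega),
      Nat.add_sub_cancel_left, List.getElem?_append_left hk]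
  have rl : ∀ q, 0 < (rw' L s t G q).length := by intro q; simp [rw']
  refine ⟨hK, Dvd.intro_left K1 rfl, by omega, by omega, by omega, iT_zero, ?_, ?_, ?_, ?_, ?_, ?_,
    ?_, ?_, ?_, ?_, ?_, ?_, ?_, ?_, ?_, ?_⟩
  · apply iT_succ
    rw [List.getElem?_append_right le_rfl, Nat.sub_self]
    rfl
  · unfold Er
    rw [off_zero, Nat.zero_add, Nat.div_eq_of_lt (by omega)]
  · intro q hd
    unfold Er Rr
    rw [div_ceil_dvd hK hd]
    omega
  · intro q hd
    unfold Er Rr
    rw [div_ceil_ndvd hK hd]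
    omega
  · intro q _
    simp [Ss, off_zero]
  · intro q _
    show Rr (K1 * K2) K2 L s t Fs G q + 1 + off (fun l => gS (s q l) (t q l) (G q l)) L =
      (gX (K1 * K2) L s t Fs).length + 2 + off (rw' L s t G) (q + 1) + (q + 1 + K2 - 1) / K2
    rw [off_succ]
    have h1 : (rw' L s t G q).length = off (fun l => gS (s q l) (t q l) (G q l)) L + 1 := rfl
    have h2 : q + 1 + K2 - 1 = q + K2 := by omega
    rw [h1, h2, Nat.add_div_right _ (by omega)]
    unfold Rr
    omega
  · intro q _ l _
    unfold Ss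
    rw [off_succ, gS_length]
    omega
  · intro q hq hd
    have h1 := gY_grp (L := L) (s := s) (t := t) (G := G) hq hd
    have h2 : Er (K1 * K2) K2 L s t Fs G q = ((gX (K1 * K2) L s t Fs).length +
        (off (rw' L s t G) q + q / K2 + 1)) + 1 := by
      unfold Er
      rw [div_ceil_dvd hK hd]
      omega
    rw [h2]
    apply iT_succ
    rw [List.getElem?_append_right (Nat.le_add_right _ _), Nat.add_sub_cancel_left]
    exact h1
  · intro q hq
    have h1 := hY q hq 0 (rl q)
    rw [Nat.add_zero] at h1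
    rw [h1]
    exact iT_succ _ _ rfl
  · intro q hq l hl u hu
    rw [hS q hq l hl u (by rw [gS_length]; omega)]
    exact iT_succ _ _ (gS_get.1 u hu)
  · intro q hq l hl
    rw [hS q hq l hl _ (by rw [gS_length]; omega)]
    exact iT_succ _ _ gS_get.2.1
  · intro q hq l hl u hu
    rw [Nat.add_assoc (Ss (K1 * K2) K2 L s t Fs G q l + s q l) 1 u, Nat.add_assoc,
      hS q hq l hl _ (by rw [gS_length]; omega)]
    apply iT_succ
    rw [← Nat.add_assoc]
    exact gS_get.2.2 u hu
  · apply iT_end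
    have := w_length (K1 := K1) (L := L) hK s t Fs G
    omega
  · intro p h1 h2
    obtain ⟨i, rfl⟩ : ∃ i, p = i + 1 := ⟨p - 1, by omega⟩
    have h3 : i < (gX (K1 * K2) L s t Fs).length := by omega
    have h4 : (gX (K1 * K2) L s t Fs ++ gY K1 K2 L s t G)[i]? =
        some ((gX (K1 * K2) L s t Fs)[i]) := by
      rw [List.getElem?_append_left h3, List.getElem?_eq_getElem h3]
    exact ⟨_, iT_succ _ _ h4, gX_mem (List.getElem_mem h3)⟩
  · cases l2 with
    | nil =>
      right
      have e1 : (gX (K1 * K2) L s t l1).length + 1 + (gB (K1 * K2) L s t F).length =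
          (gX (K1 * K2) L s t Fs).length + 1 := by
        rw [lX]
        simp [gX]
        omega
      rw [e1]
      apply iT_succ
      rw [List.getElem?_append_right le_rfl, Nat.sub_self]
      rfl
    | cons F' l3 =>
      left
      have e1 : (gX (K1 * K2) L s t l1).length + 1 + (gB (K1 * K2) L s t F).length =
          ((gX (K1 * K2) L s t l1).length + (gB (K1 * K2) L s t F).length) + 1 := by omega
      have e2 : gX (K1 * K2) L s t (F' :: l3) = GA.s :: (body (K1 * K2) L s t F' ++
          gX (K1 * K2) L s t l3) := by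
        simp only [gX, List.flatMap_cons, gB_eq, List.cons_append]
      rw [e1]
      apply iT_succ
      rw [List.getElem?_append_left (by rw [lX, e2, List.length_cons]; omega), gXe,
        List.getElem?_append_right (by omega), Nat.add_sub_cancel_left,
        List.getElem?_append_right le_rfl, Nat.sub_self, e2]
      rfl
  · intro p h1 h2 h3
    obtain ⟨k, rfl⟩ : ∃ k, p = (gX (K1 * K2) L s t l1).length + (k + 1) + 1 :=
      ⟨p - ((gX (K1 * K2) L s t l1).length + 2), by omega⟩
    have h4 := iT_inv h3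
    rw [hB _ (by omega), gB_eq, List.getElem?_cons_succ] at h4
    obtain ⟨r, l, P, Q, a1, a2, a5, a6⟩ := body_c h4
    have lE := gE_length (s r l) (t r l) (F r l)
    have hlen : (body (K1 * K2) L s t F).length = P.length +
        ((gE (s r l) (t r l) (F r l)).length + Q.length) := by
      rw [a5, List.length_append, List.length_append]
    have hE : ∀ u < (gE (s r l) (t r l) (F r l)).length,
        (gX (K1 * K2) L s t Fs ++ gY K1 K2 L s t G)[(gX (K1 * K2) L s t l1).length +
        (k + u + 1)]? = (gE (s r l) (t r l) (F r l))[u]? := by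
      intro u hu
      rw [hB _ (by omega), gB_eq, List.getElem?_cons_succ, a5,
        List.getElem?_append_right (by omega)]
      have e1 : k + u - P.length = u := by omega
      rw [e1, List.getElem?_append_left hu]
    obtain ⟨g1, g2, g3⟩ := gE_get (i := s r l) (j := t r l) (β := F r l)
    refine ⟨r, l, a1, a2, ?_, ?_, ?_, by omega⟩
    · intro u hu
      have e1 : (gX (K1 * K2) L s t l1).length + (k + 1) + 1 + 1 + u =
          ((gX (K1 * K2) L s t l1).length + (k + (1 + u) + 1)) + 1 := by omega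
      rw [e1]
      apply iT_succ _ _
      rw [hE _ (by omega)]
      exact g1 u hu
    · intro u hu
      have e1 : (gX (K1 * K2) L s t l1).length + (k + 1) + 1 + 1 + s r l + u =
          ((gX (K1 * K2) L s t l1).length + (k + (1 + s r l + u) + 1)) + 1 := by omega
      rw [e1]
      apply iT_succ _ _
      rw [hE _ (by omega)]
      exact g2 u hu
    · have e1 : (gX (K1 * K2) L s t l1).length + (k + 1) + 1 + 1 + s r l + t r l =
          ((gX (K1 * K2) L s t l1).length + (k + (1 + s r l + t r l) + 1)) + 1 := by omega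
      rw [e1]
      apply iT_succ _ _
      rw [hE _ (by omega)]
      exact g3

/-- a separator is the start of a block -/
theorem is_s {N M1 M2 K1 K2 L : ℕ} {s t : ℕ → ℕ → ℕ} {Fs : List (ℕ → ℕ → Bool)}
    {G : ℕ → ℕ → Bool} {p : ℕ} (hp : 1 ≤ p)
    (h : (gm N M1 M2).initTape (gX (K1 * K2) L s t Fs ++ gY K1 K2 L s t G) p = .inp .s) :
    ∃ l1 F l2, Fs = l1 ++ F :: l2 ∧ p = (gX (K1 * K2) L s t l1).length + 1 := by
  obtain ⟨i, rfl⟩ : ∃ i, p = i + 1 := ⟨p - 1, by omega⟩
  have h1 := iT_inv h
  rcases Nat.lt_or_ge i (gX (K1 * K2) L s t Fs).length with h2 | h2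
  · rw [List.getElem?_append_left h2] at h1
    obtain ⟨l1, F, l2, e, h3, h4⟩ := flat_split _ _ _ h2
    refine ⟨l1, F, l2, e, ?_⟩
    have gXe : gX (K1 * K2) L s t Fs = gX (K1 * K2) L s t l1 ++
        (gB (K1 * K2) L s t F ++ gX (K1 * K2) L s t l2) := by
      rw [e, gX, List.flatMap_append, List.flatMap_cons]
      rfl
    have h3' : (gX (K1 * K2) L s t l1).length ≤ i := h3
    have h4' : i < (gX (K1 * K2) L s t l1).length + (gB (K1 * K2) L s t F).length := h4
    rw [gXe, List.getElem?_append_right h3', List.getElem?_append_left (by omega), gB_eq] at h1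
    rcases Nat.eq_zero_or_pos (i - (gX (K1 * K2) L s t l1).length) with h5 | h5
    · omega
    · exfalso
      obtain ⟨k, hk⟩ : ∃ k, i - (gX (K1 * K2) L s t l1).length = k + 1 :=
        ⟨i - (gX (K1 * K2) L s t l1).length - 1, by omega⟩
      rw [hk, List.getElem?_cons_succ] at h1
      exact (body_mem (List.mem_of_getElem? h1)).2 rfl
  · exfalso
    rw [List.getElem?_append_right h2] at h1
    exact gY_mem (List.mem_of_getElem? h1) rfl

/-- the invariant -/
def Inv (N M1 M2 K1 K2 L : ℕ) (s t : ℕ → ℕ → ℕ) (Fs : List (ℕ → ℕ → Bool))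
    (G : ℕ → ℕ → Bool) (c : (gm N M1 M2).Cfg) : Prop :=
  (c.st = GQ.scan ∧
    c.tape = (gm N M1 M2).initTape (gX (K1 * K2) L s t Fs ++ gY K1 K2 L s t G) ∧
    1 ≤ c.pos ∧ ∀ i ∈ c.seen, i < c.pos) ∨
  ∃ l1 F l2 P, Fs = l1 ++ F :: l2 ∧ (gX (K1 * K2) L s t Fs).length + 1 < P ∧
    P ≤ Er (K1 * K2) K2 L s t Fs G (K1 * K2) ∧
    c.tape = TK ((gX (K1 * K2) L s t l1).length + 1)
      ((gm N M1 M2).initTape (gX (K1 * K2) L s t Fs ++ gY K1 K2 L s t G)) P ∧
    (∀ i ∈ c.seen, i < P ∨ i = Er (K1 * K2) K2 L s t Fs G (K1 * K2)) ∧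
    St (K1 * K2) K2 L ((gX (K1 * K2) L s t l1).length + 1)
      ((gX (K1 * K2) L s t Fs).length + 1)
      ((gX (K1 * K2) L s t l1).length + 1 + (gB (K1 * K2) L s t F).length) s t F G
      (Er (K1 * K2) K2 L s t Fs G) (Rr (K1 * K2) K2 L s t Fs G) (Ss (K1 * K2) K2 L s t Fs G)
      ((gm N M1 M2).initTape (gX (K1 * K2) L s t Fs ++ gY K1 K2 L s t G)) P c.st c.pos

theorem inv_step {N M1 M2 K1 K2 L : ℕ} {s t : ℕ → ℕ → ℕ} (hP : PS (K1 * K2) L N s t)
    (hL : 1 ≤ L) (hK : 1 ≤ K2) {cv : Bool} {Fs : List (ℕ → ℕ → Bool)} {G : ℕ → ℕ → Bool}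
    {c c' : (gm N M1 M2).Cfg} (hI : Inv N M1 M2 K1 K2 L s t Fs G c)
    (hs : (gm N M1 M2).Step cv (gX (K1 * K2) L s t Fs ++ gY K1 K2 L s t G).length c c') :
    Inv N M1 M2 K1 K2 L s t Fs G c' := by
  obtain ⟨hle, x, d, hδ, h0, hp, hw, hnw, hseen⟩ := hs
  obtain ⟨q, pos, tape, seen⟩ := c
  obtain ⟨q', pos', tape', seen'⟩ := c'
  simp only at hle hδ h0 hp hw hnw hseen
  have hδ' : gtr1 N M1 M2 q (tape pos) = some (q', x, d) ∨
      gtr2 q (tape pos) = some (q', x, d) := hδ
  have hlen := w_length (K1 := K1) (L := L) hK s t Fs G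
  rcases hI with ⟨h1, h2, h3, h4⟩ | ⟨l1, F, l2, P, h1, h2, h2', h3, h4, h5⟩
  · simp only at h1 h2 h3 h4
    subst h1
    have hfresh : pos ∉ seen := fun h => lt_irrefl _ (h4 pos h)
    rcases hδ' with h | h
    · left
      have hx : Sym.ofW x = tape pos ∧ q' = .scan ∧ d = true := by
        generalize tape pos = s at h
        cases s with
        | inp y =>
          simp only [gtr1] at h
          split_ifs at h with hb
          simp only [Option.some.injEq, Prod.mk.injEq] at h
          obtain ⟨rfl, rfl, rfl⟩ := h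
          exact ⟨rfl, rfl, rfl⟩
        | wrk u => simp [gtr1] at h
        | lend => simp [gtr1] at h
        | rend => simp [gtr1] at h
      obtain ⟨hx, rfl, rfl⟩ := hx
      have ht : tape' = tape := by
        by_cases hc : 1 ≤ pos ∧ pos ≤ (gX (K1 * K2) L s t Fs ++ gY K1 K2 L s t G).length ∧
            pos ∉ seen
        · rw [hw hc, hx, Function.update_eq_self]
        · exact (hnw hc).1
      rw [if_pos rfl] at hp
      refine ⟨rfl, by simp only; rw [ht, h2], by simp only; omega, ?_⟩
      intro i hi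
      simp only at hi ⊢
      rw [hseen] at hi
      rcases hi with hi | hi
      · omega
      · have := h4 i hi; omega
    · right
      have hts : tape pos = .inp .s ∧ q' = .mid ∧ x = .inr .ms ∧ d = true := by
        generalize tape pos = s at h
        cases s with
        | inp y =>
          cases y <;> simp [gtr2] at h
          exact ⟨rfl, h.1.symm, h.2.1.symm, h.2.2⟩
        | wrk u => simp [gtr2] at h
        | lend => simp [gtr2] at h
        | rend => simp [gtr2] at h
      obtain ⟨hts, rfl, rfl, rfl⟩ := hts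
      rw [h2] at hts
      obtain ⟨l1, F, l2, e, hpe⟩ := is_s h3 hts
      have hL' := lay N M1 M2 K1 K2 L hK s t Fs l1 l2 F G e
      have hAZ := hL'.hAZ
      have hZH := hL'.hZH
      have hE0 := hL'.E0
      have hEk := hL'.hE (q := K1 * K2) le_rfl
      have ht := hw ⟨h3, by omega, hfresh⟩
      refine ⟨l1, F, l2, Er (K1 * K2) K2 L s t Fs G 0, e, by omega,
        hL'.ele (Nat.zero_le _) le_rfl, ?_, ?_, ?_⟩
      · simp only
        rw [ht, h2, hpe]
        funext i
        by_cases hi : i = (gX (K1 * K2) L s t l1).length + 1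
        · rw [hi, Function.update_self, tk_A]
          rfl
        · rw [Function.update_of_ne hi]
          by_cases hi' : i ≤ (gX (K1 * K2) L s t Fs).length + 1
          · rw [hL'.tk_low hi hi']
          · unfold TK
            rw [if_neg hi, if_neg (by omega)]
      · intro i hi
        simp only at hi
        rw [hseen] at hi
        left
        rcases hi with hi | hi
        · omega
        · have := h4 i hi; omega
      · simp only [St]
        rw [if_pos rfl] at hp
        exact ⟨trivial, by omega, by omega⟩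
  · simp only at h3 h4 h5
    right
    have hL' := lay N M1 M2 K1 K2 L hK s t Fs l1 l2 F G h1
    rw [h3] at hδ'
    rcases st_step hL' hP hL h5 hδ' with ⟨g1, g2, g3⟩ | ⟨g1, g2, g3, g4, P', g5, g6, g7, g8⟩
    · have ht : tape' = tape := by
        by_cases hc : 1 ≤ pos ∧ pos ≤ (gX (K1 * K2) L s t Fs ++ gY K1 K2 L s t G).length ∧
            pos ∉ seen
        · rw [hw hc]
          have hx : Sym.ofW x = tape pos := by
            rcases g1 with g1 | g1
            · rw [h3]; exact g1
            · omega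
          rw [hx, Function.update_eq_self]
        · exact (hnw hc).1
      refine ⟨l1, F, l2, P, h1, h2, h2', ?_, ?_, ?_⟩
      · simp only
        rw [ht, h3]
      · intro i hi
        simp only at hi
        rw [hseen] at hi
        rcases hi with hi | hi
        · rw [hi]; exact g2
        · exact h4 i hi
      · simp only
        rw [hp]
        exact g3
    · have hns : pos ∉ seen := by
        intro hc
        have := h4 pos hc
        omega
      have ht := hw ⟨by omega, by omega, hns⟩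
      refine ⟨l1, F, l2, P', h1, by omega, g6, ?_, ?_, ?_⟩
      · simp only
        rw [ht, h3, g4, g1]
        exact hL'.tk_update g2 g5 g7
      · intro i hi
        simp only at hi
        rw [hseen] at hi
        rcases hi with hi | hi
        · left; omega
        · rcases h4 i hi with h8 | h8
          · left; omega
          · right; exact h8
      · simp only
        rw [hp]
        exact g8

end WitB1Aux

theorem gm_sound {K1 K2 L N M1 M2 : ℕ} {s t : ℕ → ℕ → ℕ} (hP : PS (K1 * K2) L N s t)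
    (hL : 1 ≤ L) (hK2 : 1 ≤ K2) (cv : Bool) (Fs : List (ℕ → ℕ → Bool)) (G : ℕ → ℕ → Bool)
    (h : gX (K1 * K2) L s t Fs ++ gY K1 K2 L s t G ∈ (gm N M1 M2).lang cv) :
    ∃ F ∈ Fs, ∀ q < K1 * K2, Ph (K1 * K2) s t F G q L q := by
  obtain ⟨c, hr, hpos, hF⟩ := h
  have hI : WitB1Aux.Inv N M1 M2 K1 K2 L s t Fs G c := by
    clear hpos hF
    induction hr with
    | refl =>
      left
      exact ⟨rfl, rfl, le_rfl, fun i hi => hi.elim⟩
    | tail _ hs ih => exact WitB1Aux.inv_step hP hL hK2 ih hs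
  have hq : c.st = GQ.fin := hF
  rcases hI with ⟨h1, _⟩ | ⟨l1, F, l2, P, h1, h2, h2', h3, h4, h5⟩
  · rw [hq] at h1
    cases h1
  · rw [hq] at h5
    exact ⟨F, by rw [h1]; simp, h5⟩

end Pool.Agent.P0036f5f
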